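import Mathlib

/-!
DPT-CardT. For `p ≡ 3 mod 4` there are (at least) `(p - 3)/2` elements `a ≠ 0` of `ZMod p` with `1 - a⁴` a non-zero
square.

The elements `t` different from `0`, `1`, `-1` give points `x = (1 - t²)/(1 + t²)`, `y = 2t/(1 + t²)` of the circle with
`x y ≠ 0`. As `-1` is not a square, there is `a` with `a² = x` or `a² = -x` and `a y` a square; `t` is determined by `a`
and the sign.
-/

set_option autoImplicit false

open Finset

namespace Pool.Agent.DPT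

private theorem cT_neg {p : ℕ} [Fact p.Prime] (h4 : p % 4 = 3) : ¬ IsSquare (-1 : ZMod p) := by
  intro h
  exact ZMod.exists_sq_eq_neg_one_iff.mp h h4

private theorem cT_sq {p : ℕ} [Fact p.Prime] (h4 : p % 4 = 3) (u : ZMod p) :
    IsSquare u ∨ IsSquare (-u) := by
  have hp2 : p ≠ 2 := by
    intro h
    rw [h] at h4
    omega
  have hc : ringChar (ZMod p) ≠ 2 := by
    rw [ZMod.ringChar_zmod_n]
    exact hp2
  by_cases hu : u = 0
  · left
    rw [hu]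
    exact IsSquare.zero
  by_cases h : IsSquare u
  · exact Or.inl h
  · right
    have h1 : quadraticChar (ZMod p) u = -1 := quadraticChar_neg_one_iff_not_isSquare.mpr h
    have h2 : quadraticChar (ZMod p) (-1) = -1 :=
      quadraticChar_neg_one_iff_not_isSquare.mpr (cT_neg h4)
    have h3 : quadraticChar (ZMod p) (-u) = 1 := by
      rw [← neg_one_mul, map_mul, h1, h2]
      norm_num
    exact (quadraticChar_one_iff_isSquare (neg_ne_zero.mpr hu)).mp h3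

private theorem cT_two {p : ℕ} [Fact p.Prime] (h4 : p % 4 = 3) {u : ZMod p} (h0 : u ≠ 0)
    (h1 : IsSquare u) (h2 : IsSquare (-u)) : False := by
  apply cT_neg h4
  have h3 : (-1 : ZMod p) = (-u) / u := by
    field_simp
  rw [h3]
  exact h2.div h1

private theorem cT_den {p : ℕ} [Fact p.Prime] (h4 : p % 4 = 3) (t : ZMod p) : 1 + t ^ 2 ≠ 0 := by
  intro h
  apply cT_neg h4
  exact ⟨t, by linear_combination -h⟩

private theorem cT_ex {p : ℕ} [Fact p.Prime] (h4 : p % 4 = 3) (t : ZMod p) (h0 : t ≠ 0) (h1 : t ≠ 1)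
    (h2 : t ≠ -1) : ∃ a : ZMod p, (a ≠ 0 ∧ a ^ 4 ≠ 1 ∧ IsSquare (1 - a ^ 4)) ∧
      (a ^ 2 = (1 - t ^ 2) / (1 + t ^ 2) ∨ a ^ 2 = -((1 - t ^ 2) / (1 + t ^ 2))) ∧
      IsSquare (a * (2 * t / (1 + t ^ 2))) := by
  have hp2 : p ≠ 2 := by
    intro h
    rw [h] at h4
    omega
  have h20 : (2 : ZMod p) ≠ 0 := by
    intro h
    have h3 : ((2 : ℕ) : ZMod p) = 0 := by exact_mod_cast h
    rw [ZMod.natCast_eq_zero_iff] at h3
    exact hp2 (((Nat.prime_dvd_prime_iff_eq (Fact.out) Nat.prime_two).mp h3))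
  have hd := cT_den h4 t
  have hx : (1 - t ^ 2) / (1 + t ^ 2) ≠ 0 := by
    refine div_ne_zero ?_ hd
    intro h
    have h3 : (t - 1) * (t + 1) = 0 := by linear_combination -h
    rcases mul_eq_zero.mp h3 with h3 | h3
    · exact h1 (sub_eq_zero.mp h3)
    · exact h2 (eq_neg_of_add_eq_zero_left h3)
  have hy : 2 * t / (1 + t ^ 2) ≠ 0 := div_ne_zero (mul_ne_zero h20 h0) hd
  have hxy : ((1 - t ^ 2) / (1 + t ^ 2)) ^ 2 + (2 * t / (1 + t ^ 2)) ^ 2 = 1 := by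
    field_simp
    ring
  obtain ⟨b, hb⟩ : ∃ b : ZMod p, b ^ 2 = (1 - t ^ 2) / (1 + t ^ 2) ∨
      b ^ 2 = -((1 - t ^ 2) / (1 + t ^ 2)) := by
    rcases cT_sq h4 ((1 - t ^ 2) / (1 + t ^ 2)) with ⟨b, hb⟩ | ⟨b, hb⟩
    · exact ⟨b, Or.inl (by rw [hb]; ring)⟩
    · exact ⟨b, Or.inr (by rw [hb]; ring)⟩
  obtain ⟨a, ha, ha'⟩ : ∃ a : ZMod p, a ^ 2 = b ^ 2 ∧ IsSquare (a * (2 * t / (1 + t ^ 2))) := by
    rcases cT_sq h4 (b * (2 * t / (1 + t ^ 2))) with h | h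
    · exact ⟨b, rfl, h⟩
    · refine ⟨-b, by ring, ?_⟩
      rwa [neg_mul]
  rw [← ha] at hb
  have ha4 : a ^ 4 = ((1 - t ^ 2) / (1 + t ^ 2)) ^ 2 := by
    rcases hb with hb | hb
    · rw [← hb]
      ring
    · have h3 : a ^ 4 = (a ^ 2) ^ 2 := by ring
      rw [h3, hb]
      ring
  have ha4' : 1 - a ^ 4 = (2 * t / (1 + t ^ 2)) ^ 2 := by
    rw [ha4]
    linear_combination -hxy
  refine ⟨a, ⟨?_, ?_, ?_⟩, hb, ha'⟩
  · intro h
    rw [h] at ha4
    apply hx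
    have h3 : ((1 - t ^ 2) / (1 + t ^ 2)) ^ 2 = 0 := by
      rw [← ha4]
      ring
    exact pow_eq_zero_iff (two_ne_zero) |>.mp h3
  · intro h
    apply hy
    have h3 : (2 * t / (1 + t ^ 2)) ^ 2 = 0 := by
      rw [← ha4', h, sub_self]
    exact pow_eq_zero_iff (two_ne_zero) |>.mp h3
  · rw [ha4']
    exact IsSquare.sq _

private theorem cT_inj {p : ℕ} [Fact p.Prime] (h4 : p % 4 = 3) {t t' a : ZMod p} (h0 : t ≠ 0)
    (ha0 : a ≠ 0)
    (hx : (1 - t ^ 2) / (1 + t ^ 2) = (1 - t' ^ 2) / (1 + t' ^ 2))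
    (h1 : IsSquare (a * (2 * t / (1 + t ^ 2)))) (h2 : IsSquare (a * (2 * t' / (1 + t' ^ 2)))) :
    t = t' := by
  have hp2 : p ≠ 2 := by
    intro h
    rw [h] at h4
    omega
  have h20 : (2 : ZMod p) ≠ 0 := by
    intro h
    have h3 : ((2 : ℕ) : ZMod p) = 0 := by exact_mod_cast h
    rw [ZMod.natCast_eq_zero_iff] at h3
    exact hp2 (((Nat.prime_dvd_prime_iff_eq (Fact.out) Nat.prime_two).mp h3))
  have hd := cT_den h4 t
  have hd' := cT_den h4 t'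
  have h3 : t ^ 2 = t' ^ 2 := by
    rw [div_eq_div_iff hd hd'] at hx
    have h4 : 2 * (t ^ 2 - t' ^ 2) = 0 := by linear_combination -hx
    rcases mul_eq_zero.mp h4 with h | h
    · exact absurd h h20
    · exact sub_eq_zero.mp h
  rcases sq_eq_sq_iff_eq_or_eq_neg.mp h3 with h | h
  · exact h
  · exfalso
    have h5 : a * (2 * t' / (1 + t' ^ 2)) = -(a * (2 * t / (1 + t ^ 2))) := by
      rw [h]
      ring
    rw [h5] at h2
    exact cT_two h4 (mul_ne_zero ha0 (div_ne_zero (mul_ne_zero h20 h0) hd)) h1 h2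

open Classical in
theorem card_T {p : ℕ} [Fact p.Prime] (h4 : p % 4 = 3) :
    p ≤ 2 * ((univ : Finset (ZMod p)).filter fun a =>
      a ≠ 0 ∧ a ^ 4 ≠ 1 ∧ IsSquare (1 - a ^ 4)).card + 3 := by
  have h : ∀ t : ZMod p, ∃ a : ZMod p, t ≠ 0 → t ≠ 1 → t ≠ -1 →
      (a ≠ 0 ∧ a ^ 4 ≠ 1 ∧ IsSquare (1 - a ^ 4)) ∧
      (a ^ 2 = (1 - t ^ 2) / (1 + t ^ 2) ∨ a ^ 2 = -((1 - t ^ 2) / (1 + t ^ 2))) ∧
      IsSquare (a * (2 * t / (1 + t ^ 2))) := by
    intro t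
    by_cases h : t ≠ 0 ∧ t ≠ 1 ∧ t ≠ -1
    · obtain ⟨a, ha⟩ := cT_ex h4 t h.1 h.2.1 h.2.2
      exact ⟨a, fun _ _ _ => ha⟩
    · exact ⟨0, fun h1 h2 h3 => absurd ⟨h1, h2, h3⟩ h⟩
  choose f hf using h
  have hm : ∀ t ∈ (univ : Finset (ZMod p)) \ {0, 1, -1}, t ≠ 0 ∧ t ≠ 1 ∧ t ≠ -1 := by
    intro t ht
    rw [mem_sdiff, mem_insert, mem_insert, mem_singleton, not_or, not_or] at ht
    exact ht.2
  have h1 : ((univ : Finset (ZMod p)) \ {0, 1, -1}).card ≤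
      (((univ : Finset (ZMod p)).filter fun a =>
        a ≠ 0 ∧ a ^ 4 ≠ 1 ∧ IsSquare (1 - a ^ 4)) ×ˢ (univ : Finset Bool)).card := by
    refine card_le_card_of_injOn
      (fun t => (f t, decide ((f t) ^ 2 = (1 - t ^ 2) / (1 + t ^ 2)))) ?_ ?_
    · intro t ht
      obtain ⟨h1, h2, h3⟩ := hm t (mem_coe.mp ht)
      rw [mem_coe, mem_product, mem_filter]
      exact ⟨⟨mem_univ _, (hf t h1 h2 h3).1⟩, mem_univ _⟩
    · intro t ht t' ht' he
      obtain ⟨h1, h2, h3⟩ := hm t (mem_coe.mp ht)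
      obtain ⟨h1', h2', h3'⟩ := hm t' (mem_coe.mp ht')
      obtain ⟨⟨ha, -, -⟩, hx, hy⟩ := hf t h1 h2 h3
      obtain ⟨-, hx', hy'⟩ := hf t' h1' h2' h3'
      rw [Prod.mk.injEq] at he
      obtain ⟨he1, he2⟩ := he
      rw [decide_eq_decide, ← he1] at he2
      rw [← he1] at hx' hy'
      refine cT_inj h4 h1 ha ?_ hy hy'
      by_cases h : (f t) ^ 2 = (1 - t ^ 2) / (1 + t ^ 2)
      · rw [← h, he2.mp h]
      · have h5 := hx.resolve_left h
        have h6 := hx'.resolve_left fun h' => h (he2.mpr h')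
        rw [h5] at h6
        exact neg_injective h6
  have h2 := le_card_sdiff ({0, 1, -1} : Finset (ZMod p)) univ
  have h3 : ({0, 1, -1} : Finset (ZMod p)).card ≤ 3 := card_le_three
  rw [card_univ, ZMod.card] at h2
  rw [card_product, card_univ, Fintype.card_bool] at h1
  omega

end Pool.Agent.DPT
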