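import Pool.Agent.DPT.Iden
import Pool.Agent.DPT.CardT

/-!
DPT-CardG. At least `(p - 3)/4` good classes for `p ≡ 7 mod 12`.

PLAN. Let `T` be the set of `card_T`. For `a ∈ T`: `1 - a⁴` is a non-zero square, hence a fourth power (`-1` is not a
square, so of `s`, `-s` with `s² = 1 - a⁴` one is a square): `1 - a⁴ = a'⁴`, `a' ∈ T`, and by `not_both` not both are
bad. Fix for `a ∈ T` such an `a'` which is a non-zero square if `a` is a square and a non-square if not
(replace `a'` by `-a'`). The map `a ↦ a'` is injective on `T`: `a'` determines `a⁴ = 1 - a'⁴`, so `a` up to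
sign, and the sign by the quadratic character. It maps the bad elements of `T` to good ones. So at least half of
`T` is good; `card T ≥ (p - 3)/2`.
`gg p` counts natural numbers `n < p` with `Good p n`: transport by the bijection `range p → ZMod p` (`Nat.cast`,
`ZMod.val`).
`gg_le`: `0` is not good. `good_mod`: casts agree.
-/

set_option autoImplicit false

open Finset

namespace Pool.Agent.DPT

theorem good_mod (p a : ℕ) : Good p (a % p) ↔ Good p a := by
  unfold Good
  rw [ZMod.natCast_mod]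

theorem gg_le {p : ℕ} (hp : p.Prime) : gg p + 1 ≤ p := by
  classical
  have h1 : gg p ≤ ((range p).erase 0).card := by
    unfold gg
    refine Finset.card_le_card fun n hn => ?_
    rw [Finset.mem_filter] at hn
    refine Finset.mem_erase.2 ⟨?_, hn.1⟩
    rintro rfl
    exact hn.2.1 (by simp)
  rw [Finset.card_erase_of_mem (Finset.mem_range.2 hp.pos), Finset.card_range] at h1
  have := hp.pos
  omega

private theorem cg_neg_one {p : ℕ} [Fact p.Prime] (h4 : p % 4 = 3) : ¬ IsSquare (-1 : ZMod p) := by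
  rw [ZMod.exists_sq_eq_neg_one_iff]
  intro h
  exact h h4

private theorem cg_or {p : ℕ} [Fact p.Prime] (h4 : p % 4 = 3) (b : ZMod p) :
    IsSquare b ∨ IsSquare (-b) := by
  have h2 : p ≠ 2 := by
    rintro rfl
    omega
  have hc : ringChar (ZMod p) ≠ 2 := by
    rw [ZMod.ringChar_zmod_n]
    exact h2
  by_contra hcon
  rw [not_or] at hcon
  have h5 := (quadraticChar_neg_one_iff_not_isSquare (F := ZMod p)).2 hcon.1
  have h6 := (quadraticChar_neg_one_iff_not_isSquare (F := ZMod p)).2 hcon.2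
  have h7 : quadraticChar (ZMod p) (-b) = quadraticChar (ZMod p) (-1) * quadraticChar (ZMod p) b := by
    rw [← map_mul, neg_one_mul]
  rw [h5, h6] at h7
  have h8 : quadraticChar (ZMod p) (-1) = 1 := by linarith
  exact cg_neg_one h4 ((quadraticChar_one_iff_isSquare (by simp)).1 h8)

private theorem cg_not {p : ℕ} [Fact p.Prime] (h4 : p % 4 = 3) {b : ZMod p} (hb : b ≠ 0)
    (h1 : IsSquare b) (h2 : IsSquare (-b)) : False := by
  obtain ⟨x, hx⟩ := h1
  obtain ⟨y, hy⟩ := h2
  have hx0 : x ≠ 0 := by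
    rintro rfl
    exact hb (by rw [hx, mul_zero])
  refine cg_neg_one h4 ⟨y / x, ?_⟩
  field_simp
  have h3 : y * y = -(x * x) := by rw [← hy, hx]
  linear_combination -h3

private theorem cg_sign {p : ℕ} [Fact p.Prime] (h4 : p % 4 = 3) {b : ZMod p} (hb : b ≠ 0) :
    IsSquare (-b) ↔ ¬ IsSquare b :=
  ⟨fun h1 h2 => cg_not h4 hb h2 h1, fun h => (cg_or h4 b).resolve_left h⟩

private theorem cg_ex {p : ℕ} [Fact p.Prime] (h4 : p % 4 = 3) (a : ZMod p)
    (h1 : a ^ 4 ≠ 1) (h2 : IsSquare (1 - a ^ 4)) :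
    ∃ b : ZMod p, b ≠ 0 ∧ a ^ 4 + b ^ 4 = 1 ∧ (IsSquare b ↔ IsSquare a) := by
  obtain ⟨s, hs⟩ := h2
  have hs0 : s ≠ 0 := by
    rintro rfl
    apply h1
    rw [mul_zero] at hs
    linear_combination -hs
  have h3 : ∃ b : ZMod p, b ≠ 0 ∧ a ^ 4 + b ^ 4 = 1 := by
    rcases cg_or h4 s with ⟨b, hb⟩ | ⟨b, hb⟩
    · refine ⟨b, ?_, ?_⟩
      · rintro rfl
        exact hs0 (by rw [hb, mul_zero])
      · have h5 : b ^ 4 = s * s := by rw [hb]; ring
        rw [h5, ← hs]
        ring
    · refine ⟨b, ?_, ?_⟩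
      · rintro rfl
        exact hs0 (by rw [← neg_eq_zero, hb, mul_zero])
      · have h5 : b ^ 4 = s * s := by
          have h6 : s = -(b * b) := by rw [← hb, neg_neg]
          rw [h6]
          ring
        rw [h5, ← hs]
        ring
  obtain ⟨b, hb0, hb⟩ := h3
  by_cases h5 : IsSquare b ↔ IsSquare a
  · exact ⟨b, hb0, hb, h5⟩
  · refine ⟨-b, neg_ne_zero.2 hb0, by rw [neg_pow]; norm_num; exact hb, ?_⟩
    rw [cg_sign h4 hb0]
    tauto

private theorem cg_inj {p : ℕ} [Fact p.Prime] (h4 : p % 4 = 3) {a b : ZMod p} (hb : b ≠ 0)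
    (h : a ^ 4 = b ^ 4) (hs : IsSquare a ↔ IsSquare b) : a = b := by
  have h1 : (a - b) * (a + b) * (a ^ 2 + b ^ 2) = 0 := by linear_combination h
  rcases mul_eq_zero.1 h1 with h2 | h2
  · rcases mul_eq_zero.1 h2 with h3 | h3
    · exact sub_eq_zero.1 h3
    · exfalso
      have h5 : a = -b := eq_neg_of_add_eq_zero_left h3
      rw [h5, cg_sign h4 hb] at hs
      tauto
  · exfalso
    refine cg_neg_one h4 ⟨a / b, ?_⟩
    field_simp
    linear_combination -h2

theorem card_G {p : ℕ} (hp : p.Prime) (h12 : p % 12 = 7) : p ≤ 4 * gg p + 3 := by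
  classical
  haveI : Fact p.Prime := ⟨hp⟩
  haveI : NeZero p := ⟨hp.ne_zero⟩
  have h4 : p % 4 = 3 := by omega
  set T : Finset (ZMod p) := (univ : Finset (ZMod p)).filter fun a =>
      a ≠ 0 ∧ a ^ 4 ≠ 1 ∧ IsSquare (1 - a ^ 4) with hT
  have hcT : p ≤ 2 * T.card + 3 := by
    have h := card_T (p := p) h4
    convert h using 3
  have hex : ∀ a : ZMod p, ∃ b : ZMod p, a ∈ T →
      (b ≠ 0 ∧ a ^ 4 + b ^ 4 = 1 ∧ (IsSquare b ↔ IsSquare a)) := by
    intro a
    by_cases ha : a ∈ T
    · rw [hT, Finset.mem_filter] at ha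
      obtain ⟨b, hb⟩ := cg_ex h4 a ha.2.2.1 ha.2.2.2
      exact ⟨b, fun _ => hb⟩
    · exact ⟨0, fun h => absurd h ha⟩
  choose f hf using hex
  have hB : (T.filter fun a => Bad p a).card ≤ (T.filter fun a => ¬ Bad p a).card := by
    refine Finset.card_le_card_of_injOn f ?_ ?_
    · intro a ha
      rw [Finset.mem_coe, Finset.mem_filter] at ha
      obtain ⟨h1, h2, h3⟩ := hf a ha.1
      have haT := ha.1
      rw [hT, Finset.mem_filter] at haT
      rw [Finset.mem_coe, Finset.mem_filter]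
      refine ⟨?_, fun hbad => not_both h12 haT.2.1 h1 h2 ⟨ha.2, hbad⟩⟩
      rw [hT, Finset.mem_filter]
      refine ⟨Finset.mem_univ _, h1, ?_, ?_⟩
      · intro h5
        rw [h5] at h2
        have h6 : a ^ 4 = 0 := by linear_combination h2
        exact haT.2.1 (pow_eq_zero_iff (by norm_num) |>.1 h6)
      · refine ⟨a ^ 2, ?_⟩
        linear_combination -h2
    · intro a ha b hb hab
      rw [Finset.mem_coe, Finset.mem_filter] at ha hb
      obtain ⟨h1, h2, h3⟩ := hf a ha.1
      obtain ⟨h5, h6, h7⟩ := hf b hb.1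
      have hbT := hb.1
      rw [hT, Finset.mem_filter] at hbT
      refine cg_inj h4 hbT.2.1 ?_ ?_
      · rw [← hab] at h6
        linear_combination h2 - h6
      · rw [← h3, ← h7, hab]
  have hsum : (T.filter fun a => Bad p a).card + (T.filter fun a => ¬ Bad p a).card = T.card :=
    Finset.card_filter_add_card_filter_not _
  have hG : (T.filter fun a => ¬ Bad p a).card ≤ gg p := by
    unfold gg
    refine Finset.card_le_card_of_injOn ZMod.val ?_ (fun a _ b _ h => ZMod.val_injective p h)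
    intro a ha
    rw [Finset.mem_coe, Finset.mem_filter] at ha
    have haT := ha.1
    rw [hT, Finset.mem_filter] at haT
    rw [Finset.mem_coe, Finset.mem_filter, Finset.mem_range]
    refine ⟨ZMod.val_lt a, ?_⟩
    unfold Good
    rw [ZMod.natCast_zmod_val]
    exact ⟨haT.2.1, ha.2⟩
  omega

end Pool.Agent.DPT
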