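import Mathlib

/-!
DPT-Step. The classical descent `c ↦ d₋(a, b, c)`.

`e := a + b + c + 2abc - 2rst` (an integer). Identities: `a e + 1 = (r s - a t)²`,
`b e + 1 = (r t - b s)²`, `e + c - (a + b) = 2 r (c r - s t)`, and with `f = a + b + c + 2abc + 2rst`:
`e f = (c - a - b)² - 4ab - 4`.
-/

set_option autoImplicit false

namespace Pool.Agent.DPT

theorem desc {a b c r s t : ℕ} (ha : 0 < a) (hab : a < b) (hbc : b < c) (hr : a * b + 1 = r ^ 2)
    (hs : a * c + 1 = s ^ 2) (ht : b * c + 1 = t ^ 2) :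
    ∃ e : ℕ, e < c ∧ IsSquare (a * e + 1) ∧ IsSquare (b * e + 1) ∧
      (r : ℤ) ∣ (e : ℤ) + c - (a + b) := by
  have ha' : (1 : ℤ) ≤ a := by exact_mod_cast ha
  have hab' : (a : ℤ) + 1 ≤ b := by exact_mod_cast hab
  have hbc' : (b : ℤ) + 1 ≤ c := by exact_mod_cast hbc
  have hr' : (a : ℤ) * b + 1 = r ^ 2 := by exact_mod_cast hr
  have hs' : (a : ℤ) * c + 1 = s ^ 2 := by exact_mod_cast hs
  have ht' : (b : ℤ) * c + 1 = t ^ 2 := by exact_mod_cast ht
  obtain ⟨e, he⟩ : ∃ e : ℤ, e = a + b + c + 2 * a * b * c - 2 * r * s * t := ⟨_, rfl⟩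
  obtain ⟨f, hf⟩ : ∃ f : ℤ, f = a + b + c + 2 * a * b * c + 2 * r * s * t := ⟨_, rfl⟩
  have i1 : (a : ℤ) * e + 1 = (r * s - a * t) ^ 2 := by
    have h : ((r : ℤ) * s - a * t) ^ 2 = r ^ 2 * s ^ 2 - 2 * a * r * s * t + a ^ 2 * t ^ 2 := by ring
    rw [h, ← hr', ← hs', ← ht', he]
    ring
  have i2 : (b : ℤ) * e + 1 = (r * t - b * s) ^ 2 := by
    have h : ((r : ℤ) * t - b * s) ^ 2 = r ^ 2 * t ^ 2 - 2 * b * r * s * t + b ^ 2 * s ^ 2 := by ring
    rw [h, ← hr', ← hs', ← ht', he]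
    ring
  have i3 : e + c - (a + b) = r * (2 * (c * r - s * t)) := by
    have h : (r : ℤ) * (2 * (c * r - s * t)) = 2 * c * r ^ 2 - 2 * r * s * t := by ring
    rw [h, ← hr', he]
    ring
  have i4 : e * f = ((c : ℤ) - a - b) ^ 2 - 4 * a * b - 4 := by
    have h : e * f = ((a : ℤ) + b + c + 2 * a * b * c) ^ 2 - 4 * (r ^ 2 * s ^ 2 * t ^ 2) := by
      rw [he, hf]
      ring
    rw [h, ← hr', ← hs', ← ht']
    ring
  have he0 : 0 ≤ e := by
    by_contra hcon
    push Not at hcon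
    have h1 : 0 ≤ (a : ℤ) * e + 1 := by rw [i1]; exact sq_nonneg _
    have h2 : 0 ≤ (b : ℤ) * e + 1 := by rw [i2]; exact sq_nonneg _
    nlinarith
  have hrst : (0 : ℤ) ≤ 2 * r * s * t := by positivity
  have habc : (0 : ℤ) ≤ 2 * a * b * c := by positivity
  have hec : e < c := by
    by_contra hcon
    push Not at hcon
    have hfc : (c : ℤ) ≤ f := by rw [hf]; linarith
    have h1 : (c : ℤ) * c ≤ e * f :=
      mul_le_mul hcon hfc (by linarith) (by linarith)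
    rw [i4] at h1
    have h2 : 0 < ((a : ℤ) + b) * (2 * c - a - b) :=
      mul_pos (by linarith) (by linarith)
    have h3 : (0 : ℤ) ≤ a * b := by positivity
    nlinarith
  obtain ⟨n, hn⟩ := Int.eq_ofNat_of_zero_le he0
  refine ⟨n, ?_, ?_, ?_, ?_⟩
  · rw [hn] at hec
    exact_mod_cast hec
  · have h : ((a * n + 1 : ℕ) : ℤ) = (r * s - a * t) ^ 2 := by
      rw [← i1, hn]
      push_cast
      ring
    refine ⟨((r : ℤ) * s - a * t).natAbs, ?_⟩
    have h2 : (((r : ℤ) * s - a * t).natAbs * ((r : ℤ) * s - a * t).natAbs : ℕ) =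
        (a * n + 1 : ℕ) := by
      have h4 : ((((r : ℤ) * s - a * t).natAbs * ((r : ℤ) * s - a * t).natAbs : ℕ) : ℤ) =
          ((a * n + 1 : ℕ) : ℤ) := by
        rw [h]
        push_cast
        rw [sq]
        exact abs_mul_abs_self _
      exact_mod_cast h4
    exact h2.symm
  · have h : ((b * n + 1 : ℕ) : ℤ) = (r * t - b * s) ^ 2 := by
      rw [← i2, hn]
      push_cast
      ring
    refine ⟨((r : ℤ) * t - b * s).natAbs, ?_⟩
    have h2 : (((r : ℤ) * t - b * s).natAbs * ((r : ℤ) * t - b * s).natAbs : ℕ) =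
        (b * n + 1 : ℕ) := by
      have h4 : ((((r : ℤ) * t - b * s).natAbs * ((r : ℤ) * t - b * s).natAbs : ℕ) : ℤ) =
          ((b * n + 1 : ℕ) : ℤ) := by
        rw [h]
        push_cast
        rw [sq]
        exact abs_mul_abs_self _
      exact_mod_cast h4
    exact h2.symm
  · refine ⟨2 * (c * r - s * t), ?_⟩
    rw [← i3, hn]

end Pool.Agent.DPT
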