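import Pool.Agent.DPT.Defs
import Pool.Agent.DPT.Step

/-!
DPT-Chain. If the pair `{a, b}` has no non-standard extension below `b`, every extension `c` is `0` or `a + b` modulo
`r`.

PLAN. Strong induction on `c`, statement for all `c ≥ 0` (for `c = 0`: `r ∣ 0`). If `0 < c < b`: `¬ NS` gives
`c + 2r = a + b`, so `c - (a + b) = -2r`. If `c = b`: `b² + 1` is not a square (`b > 0`). If `c > b`: `desc` gives
`e < c`; by induction `r ∣ e` (then `r ∣ c - (a + b)`) or `r ∣ e - (a + b)` (then `r ∣ c`).
-/

set_option autoImplicit false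

namespace Pool.Agent.DPT

private theorem chain_aux {a b r : ℕ} (ha : 0 < a) (hab : a < b) (hr : a * b + 1 = r ^ 2)
    (hns : ¬ NS a b r) : ∀ c : ℕ, IsSquare (a * c + 1) → IsSquare (b * c + 1) →
    (r : ℤ) ∣ c ∨ (r : ℤ) ∣ (c : ℤ) - (a + b) := by
  intro c
  induction c using Nat.strong_induction_on with
  | _ c ih =>
    intro h1 h2
    rcases Nat.eq_zero_or_pos c with hc | hc
    · left
      subst hc
      exact dvd_zero _
    rcases lt_trichotomy c b with hcb | hcb | hcb
    · right
      have h3 : c + 2 * r = a + b := by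
        by_contra h4
        exact hns ⟨c, hc, hcb, h1, h2, h4⟩
      refine ⟨-2, ?_⟩
      have h5 : (c : ℤ) + 2 * r = a + b := by exact_mod_cast h3
      linarith
    · exfalso
      subst hcb
      obtain ⟨s, hs⟩ := h2
      have h3 : c < s := by
        by_contra h4
        have h5 : s ≤ c := not_lt.1 h4
        nlinarith
      have h6 : c + 1 ≤ s := h3
      nlinarith
    · obtain ⟨s, hs⟩ := h1
      obtain ⟨t, ht⟩ := h2
      obtain ⟨e, hec, he1, he2, hd⟩ := desc ha hab hcb hr (hs.trans (sq s).symm)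
        (ht.trans (sq t).symm)
      rcases ih e hec he1 he2 with h | h
      · right
        have h7 : (c : ℤ) - (a + b) = ((e : ℤ) + c - (a + b)) - e := by ring
        rw [h7]
        exact dvd_sub hd h
      · left
        have h7 : (c : ℤ) = ((e : ℤ) + c - (a + b)) - ((e : ℤ) - (a + b)) := by ring
        rw [h7]
        exact dvd_sub hd h

theorem chain {a b r : ℕ} (ha : 0 < a) (hab : a < b) (hr : a * b + 1 = r ^ 2) (hns : ¬ NS a b r)
    {c : ℕ} (hc : 0 < c) (h1 : IsSquare (a * c + 1)) (h2 : IsSquare (b * c + 1)) :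
    (r : ℤ) ∣ c ∨ (r : ℤ) ∣ (c : ℤ) - (a + b) :=
  chain_aux ha hab hr hns c h1 h2

end Pool.Agent.DPT
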