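import Mathlib

/-!
DPT-Crt. The mean value of a product of functions modulo distinct primes is the product of the mean values.

PLAN. Induction on `F` (`Finset.induction_on`): for `p ∉ F` the number `p` is coprime to `P = ∏_F q` and
`e ↦ (e % p, e % P)` is a bijection `range (p P) → range p × range P` (`Nat.chineseRemainder`, `ZMod.chineseRemainder`);
`∏_{q ∈ F} φ q e` depends only on `e % P` (`q ∣ P`). Or use `ZMod.prodEquivPi`.
-/

set_option autoImplicit false

open Finset

namespace Pool.Agent.DPT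

theorem mean_prod {F : Finset ℕ} (hF : ∀ p ∈ F, p.Prime) (φ : ℕ → ℕ → ℝ)
    (hper : ∀ p ∈ F, ∀ n, φ p (n % p) = φ p n) :
    ∑ e ∈ range (∏ p ∈ F, p), ∏ p ∈ F, φ p e = ∏ p ∈ F, ∑ e ∈ range p, φ p e := by
  classical
  induction F using Finset.induction_on with
  | empty => simp
  | insert p F hp ih =>
    have hpp := hF p (mem_insert_self _ _)
    have hFF : ∀ q ∈ F, q.Prime := fun q hq => hF q (mem_insert_of_mem hq)
    have hpF : ∀ q ∈ F, ∀ n, φ q (n % q) = φ q n := fun q hq => hper q (mem_insert_of_mem hq)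
    have hcop : Nat.Coprime p (∏ q ∈ F, q) := Nat.Coprime.prod_right fun q hq =>
      (Nat.coprime_primes hpp (hFF q hq)).mpr (by
        rintro rfl
        exact hp hq)
    have hP0 : ∏ q ∈ F, q ≠ 0 := Finset.prod_ne_zero_iff.mpr fun q hq => (hFF q hq).ne_zero
    have hdep : ∀ e, ∏ q ∈ F, φ q (e % ∏ q ∈ F, q) = ∏ q ∈ F, φ q e := by
      intro e
      refine prod_congr rfl fun q hq => ?_
      rw [← hpF q hq (e % ∏ q ∈ F, q), Nat.mod_mod_of_dvd _ (dvd_prod_of_mem _ hq), hpF q hq]
    rw [prod_insert hp, prod_insert hp, ← ih hFF hpF, sum_mul_sum, ← sum_product']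
    symm
    refine sum_nbij' (fun x => (Nat.chineseRemainder hcop x.1 x.2 : ℕ))
      (fun e => (e % p, e % ∏ q ∈ F, q)) ?_ ?_ ?_ ?_ ?_
    · rintro ⟨x, y⟩ _
      exact mem_range.mpr (Nat.chineseRemainder_lt_mul hcop _ _ hpp.ne_zero hP0)
    · intro e _
      exact mem_product.mpr ⟨mem_range.mpr (Nat.mod_lt _ hpp.pos),
        mem_range.mpr (Nat.mod_lt _ (Nat.pos_of_ne_zero hP0))⟩
    · rintro ⟨x, y⟩ hxy
      have hxy' := mem_product.mp hxy
      have h1 := (Nat.chineseRemainder hcop x y).2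
      simp only [Prod.mk.injEq]
      constructor
      · exact (show _ = _ from h1.1).trans (Nat.mod_eq_of_lt (mem_range.mp hxy'.1))
      · exact (show _ = _ from h1.2).trans (Nat.mod_eq_of_lt (mem_range.mp hxy'.2))
    · intro e he
      have h1 := Nat.chineseRemainder_modEq_unique hcop (a := e % p) (b := e % ∏ q ∈ F, q)
        (z := e) (Nat.mod_modEq e p).symm (Nat.mod_modEq e _).symm
      exact (h1.eq_of_lt_of_lt (mem_range.mp he)
        (Nat.chineseRemainder_lt_mul hcop _ _ hpp.ne_zero hP0)).symm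
    · rintro ⟨x, y⟩ hxy
      have hxy' := mem_product.mp hxy
      have h1 := (Nat.chineseRemainder hcop x y).2
      simp only
      rw [prod_insert hp, ← hper p (mem_insert_self _ _) (Nat.chineseRemainder hcop x y : ℕ),
        ← hdep (Nat.chineseRemainder hcop x y : ℕ)]
      have e1 : (Nat.chineseRemainder hcop x y : ℕ) % p = x :=
        (show _ = _ from h1.1).trans (Nat.mod_eq_of_lt (mem_range.mp hxy'.1))
      have e2 : (Nat.chineseRemainder hcop x y : ℕ) % (∏ q ∈ F, q) = y :=
        (show _ = _ from h1.2).trans (Nat.mod_eq_of_lt (mem_range.mp hxy'.2))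
      rw [e1, e2]

end Pool.Agent.DPT
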