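import Pool.Agent.DPT.SDefs

/-!
PROJECT DPT (MP_30ac48_nt, helper27): internal definitions.

THEOREM: for all but a proportion `O((log log R)^(-1/16))` of the Diophantine pairs `{a, b}` with
`√(ab+1) ≤ R` there is no `c` at all such that `{a, b, c}` is a Diophantine triple with torsion
`ℤ/2 × ℤ/6`.

IDEA. Let `ab + 1 = r²`. (1) Modulo `r` every `c` is `0` or `a + b` (except for `O(R)` pairs, `NS`).
(2) Let `p ≡ 7 mod 12` divide `r`. `c ≡ 0 mod p` is impossible. If `c ≡ a + b mod p` then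
`a mod p` is a bad class (`Bad`); (3) at least `(p - 3)/4` classes are good. (4) Counting.
-/

set_option autoImplicit false

open Finset

namespace Pool.Agent.DPT

/-- The curve `y² = x(x+1)(x+a⁴)` over `ZMod p` has a point of order three (in the form given by
`Helper51.Tors.Data`). -/
def Bad (p : ℕ) (a : ZMod p) : Prop :=
  ∃ u v d : ZMod p, a ^ 2 = d ^ 2 * (u ^ 3 * (u + 2 * v)) ∧ a⁻¹ ^ 2 = d ^ 2 * (v ^ 3 * (v + 2 * u))

/-- good residues -/
def Good (p a : ℕ) : Prop := (a : ZMod p) ≠ 0 ∧ ¬ Bad p (a : ZMod p)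

open Classical in
/-- the number of good residue classes -/
noncomputable def gg (p : ℕ) : ℕ := ((range p).filter (Good p)).card

/-- `r² ≡ 1 mod a` -/
def SQ1 (a r : ℕ) : Prop := (a : ℤ) ∣ (r : ℤ) ^ 2 - 1

open Classical in
/-- the number of solutions of `r² ≡ 1` modulo `a` -/
noncomputable def rho (a : ℕ) : ℕ := ((range a).filter (SQ1 a)).card

open Classical in
/-- the solutions of `r² ≡ 1` modulo `a` in `[1, N]` -/
noncomputable def sqs (a N : ℕ) : Finset ℕ := (Icc 1 N).filter (SQ1 a)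

/-- `{a, b}` (with `ab + 1 = r²`) has an extension `c < b` different from `a + b - 2r` -/
def NS (a b r : ℕ) : Prop :=
  ∃ c : ℕ, 0 < c ∧ c < b ∧ IsSquare (a * c + 1) ∧ IsSquare (b * c + 1) ∧ c + 2 * r ≠ a + b

open Classical in
/-- the pairs with `NS` -/
noncomputable def nsPairs (R : ℕ) : Finset (ℕ × ℕ) :=
  (pairs R).filter fun p => NS p.1 p.2 (Nat.sqrt (p.1 * p.2 + 1))

open Classical in
/-- the Diophantine triples `x < y < z` with `4 x² y z ≤ N` -/
noncomputable def trip (N : ℕ) : Finset (ℕ × ℕ × ℕ) :=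
  ((Icc 1 N) ×ˢ (Icc 1 N) ×ˢ (Icc 1 N)).filter fun q =>
    q.1 < q.2.1 ∧ q.2.1 < q.2.2 ∧ IsSquare (q.1 * q.2.1 + 1) ∧ IsSquare (q.1 * q.2.2 + 1) ∧
      IsSquare (q.2.1 * q.2.2 + 1) ∧ 4 * q.1 ^ 2 * q.2.1 * q.2.2 ≤ N

open Classical in
/-- the weight `1 - 1/p` of a good residue -/
noncomputable def wt (p a : ℕ) : ℝ := if Good p a then 1 - 1 / (p : ℝ) else 1

/-- the product of the weights -/
noncomputable def hh (F : Finset ℕ) (a : ℕ) : ℝ := ∏ p ∈ F, wt p a

/-- the mean value of `hh F` -/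
noncomputable def HH (F : Finset ℕ) : ℝ := ∏ p ∈ F, (1 - (gg p : ℝ) / (p : ℝ) ^ 2)

open Classical in
/-- for fixed `a`: the `r ≤ R` with `r² ≡ 1 mod a` which are not excluded by a prime of `F` -/
noncomputable def sieved (F : Finset ℕ) (a R : ℕ) : Finset ℕ :=
  (Icc 1 R).filter fun r => SQ1 a r ∧ ∀ p ∈ F, ¬ (p ∣ r ∧ Good p a)

open Classical in
/-- the pairs `(a, r)` which are not excluded by a prime of `F` -/
noncomputable def sieved2 (F : Finset ℕ) (R : ℕ) : Finset (ℕ × ℕ) :=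
  ((Icc 1 R) ×ˢ (Icc 1 R)).filter fun q => SQ1 q.1 q.2 ∧ ∀ p ∈ F, ¬ (p ∣ q.2 ∧ Good p q.1)

/-- the primes `p ≡ 7 mod 12`, `p ≤ y` -/
def FF (y : ℕ) : Finset ℕ := (Icc 1 y).filter fun p => p.Prime ∧ p % 12 = 7

end Pool.Agent.DPT
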