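import Pool.Agent.DPT.Rho
import Pool.Agent.Helper11.Grimm.Asy

/-!
DPT-DivB. A divisor bound: `rho y ≤ 2 τ(y)` and `τ(y) ≤ D`, `τ(w² - 1) ≤ D` with `D` from
`Helper11.Grimm.divisor_bound` for `ε = 1/3`, `x = w²`, so that `D³ ≤ K w^(2/3)`. The sum is `≤ 2 D² ≤ 2 D³`.
-/

set_option autoImplicit false

open Finset

namespace Pool.Agent.DPT

theorem div_sum : ∃ C : ℝ, 0 < C ∧ ∀ w : ℕ, 2 ≤ w →
    ∑ y ∈ (w ^ 2 - 1).divisors, (rho y : ℝ) ≤ C * (w : ℝ) ^ (2 / 3 : ℝ) := by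
  obtain ⟨K, hK1, hK⟩ := Helper11.Grimm.divisor_bound (show (0 : ℝ) < 1 / 3 by norm_num)
  refine ⟨2 * K, by linarith, fun w hw => ?_⟩
  have hw2 : 1 ≤ w ^ 2 := Nat.one_le_pow _ _ (by omega)
  have hw4 : 2 ^ 2 ≤ w ^ 2 := Nat.pow_le_pow_left hw 2
  obtain ⟨D, hD, hD3⟩ := hK (w ^ 2) hw2
  have hw0 : (0 : ℝ) ≤ (w : ℝ) := Nat.cast_nonneg w
  have hpow : ((w ^ 2 : ℕ) : ℝ) ^ (1 / 3 : ℝ) = (w : ℝ) ^ (2 / 3 : ℝ) := by
    rw [Nat.cast_pow, ← Real.rpow_natCast, ← Real.rpow_mul hw0]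
    norm_num
  rw [hpow] at hD3
  have hcard : (w ^ 2 - 1).divisors.card ≤ D := hD _ (by omega) (by omega)
  have h1 : ∑ y ∈ (w ^ 2 - 1).divisors, rho y ≤ D * (2 * D) := by
    calc ∑ y ∈ (w ^ 2 - 1).divisors, rho y ≤ ∑ _y ∈ (w ^ 2 - 1).divisors, 2 * D := by
          refine Finset.sum_le_sum fun y hy => ?_
          have hy0 : 0 < y := Nat.pos_of_mem_divisors hy
          have hyle : y ≤ w ^ 2 - 1 := Nat.divisor_le hy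
          exact (rho_le hy0).trans (Nat.mul_le_mul_left 2 (hD y hy0 (by omega)))
      _ = (w ^ 2 - 1).divisors.card * (2 * D) := by rw [Finset.sum_const, smul_eq_mul]
      _ ≤ D * (2 * D) := Nat.mul_le_mul_right _ hcard
  have h2 : D * (2 * D) ≤ 2 * D ^ 3 := by
    rcases Nat.eq_zero_or_pos D with h | h
    · rw [h]; norm_num
    · calc D * (2 * D) = 2 * (D ^ 2 * 1) := by ring
        _ ≤ 2 * (D ^ 2 * D) := by gcongr; exact h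
        _ = 2 * D ^ 3 := by ring
  have h3 : (∑ y ∈ (w ^ 2 - 1).divisors, (rho y : ℝ)) ≤ 2 * (D : ℝ) ^ 3 := by
    have := h1.trans h2
    have h4 : ((∑ y ∈ (w ^ 2 - 1).divisors, rho y : ℕ) : ℝ) ≤ ((2 * D ^ 3 : ℕ) : ℝ) := by exact_mod_cast this
    push_cast at h4
    exact h4
  calc (∑ y ∈ (w ^ 2 - 1).divisors, (rho y : ℝ)) ≤ 2 * (D : ℝ) ^ 3 := h3
    _ ≤ 2 * (K * (w : ℝ) ^ (2 / 3 : ℝ)) := by linarith
    _ = 2 * K * (w : ℝ) ^ (2 / 3 : ℝ) := by ring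

end Pool.Agent.DPT
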