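import Mathlib

/-!
DPT-Fin. The final real inequality.

PLAN. `R ≥ R₀` with `R₀` large; `l = log R`, `y = ⌊√l⌋₊`, so `y ≥ 3`, `log y ≥ (1/4) log l`, `4^y ≤ exp(2 √l)`.
`C₁ R + R (6 H (1+l)² + 2 (1+l)²/Q + 10 (1+l)(1 + log Q))` with `1/Q ≤ H ≤ C₂ (log y)^(-1/16) ≤ 4 C₂ (log l)^(-1/16)` and
`log Q ≤ y log 4 ≤ 2 √l`: everything is `≤ C R l² (log l)^(-1/16)`, because `1 + l ≤ 2l`, `√l`, `l^(3/2) ≤ l² (log l)^(-1/16)`
(`log l ≤ √l`).
-/

set_option autoImplicit false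

namespace Pool.Agent.DPT

private lemma core (C₁ C₂ l H Q : ℝ) (hC₁ : 0 < C₁) (hC₂ : 0 < C₂) (hl : 16 ≤ l) (hQ : 1 ≤ Q)
    (hQ2 : Real.log Q ≤ 2 * √l) (hH1 : 1 / Q ≤ H)
    (hH2 : H ≤ 4 * C₂ * (Real.log l ^ (1 / 16 : ℝ))⁻¹) :
    C₁ + (6 * H * (1 + l) ^ 2 + 2 * (1 + l) ^ 2 / Q + 10 * (1 + l) * (1 + Real.log Q)) ≤
      (C₁ + 128 * C₂ + 60) * (l ^ 2 * (Real.log l ^ (1 / 16 : ℝ))⁻¹) := by
  have hl0 : 0 < l := by linarith
  have h1 : 1 ≤ Real.log l := by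
    rw [Real.le_log_iff_exp_le hl0]
    have := Real.exp_one_lt_d9
    linarith
  have ht0 : 0 < Real.log l := by linarith
  set T := Real.log l ^ (1 / 16 : ℝ) with hT
  have hTpos : 0 < T := Real.rpow_pos_of_pos ht0 _
  have hTsq : T ≤ √l := by
    calc T ≤ l ^ (1 / 16 : ℝ) := by
          apply Real.rpow_le_rpow ht0.le _ (by norm_num)
          have := Real.log_le_sub_one_of_pos hl0
          linarith
      _ ≤ l ^ (1 / 2 : ℝ) := by
          apply Real.rpow_le_rpow_of_exponent_le (by linarith) (by norm_num)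
      _ = √l := by rw [Real.sqrt_eq_rpow]
  have hs : √l * √l = l := Real.mul_self_sqrt hl0.le
  have hs4 : 4 ≤ √l := by
    apply Real.le_sqrt_of_sq_le
    norm_num
    exact hl
  have hspos : 0 < √l := by linarith
  -- l * √l ≤ l^2 / T
  have hA : l * √l ≤ l ^ 2 * T⁻¹ := by
    rw [← div_eq_mul_inv, le_div_iff₀ hTpos]
    calc l * √l * T ≤ l * √l * √l := by
          apply mul_le_mul_of_nonneg_left hTsq (by positivity)
      _ = l ^ 2 := by rw [mul_assoc, hs]; ring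
  have hB : 1 ≤ l ^ 2 * T⁻¹ := by
    refine le_trans ?_ hA
    nlinarith
  have hH0 : 0 ≤ H := le_trans (by positivity) hH1
  have e1 : (1 + l) ^ 2 ≤ 4 * l ^ 2 := by nlinarith
  have e2 : 6 * H * (1 + l) ^ 2 ≤ 24 * H * l ^ 2 := by nlinarith
  have e3 : 2 * (1 + l) ^ 2 / Q ≤ 8 * H * l ^ 2 := by
    have : 2 * (1 + l) ^ 2 / Q = 2 * (1 + l) ^ 2 * (1 / Q) := by ring
    rw [this]
    calc 2 * (1 + l) ^ 2 * (1 / Q) ≤ 2 * (1 + l) ^ 2 * H := by
          apply mul_le_mul_of_nonneg_left hH1 (by positivity)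
      _ ≤ 8 * H * l ^ 2 := by nlinarith
  have e4 : 10 * (1 + l) * (1 + Real.log Q) ≤ 60 * (l * √l) := by
    have a1 : 1 + Real.log Q ≤ 3 * √l := by linarith
    have a2 : 0 ≤ 1 + Real.log Q := by
      have := Real.log_nonneg hQ
      linarith
    calc 10 * (1 + l) * (1 + Real.log Q) ≤ 10 * (2 * l) * (3 * √l) := by
          apply mul_le_mul _ a1 a2 (by positivity)
          linarith
      _ = 60 * (l * √l) := by ring
  have e5 : 32 * H * l ^ 2 ≤ 128 * C₂ * (l ^ 2 * T⁻¹) := by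
    calc 32 * H * l ^ 2 = 32 * l ^ 2 * H := by ring
      _ ≤ 32 * l ^ 2 * (4 * C₂ * T⁻¹) := by
          apply mul_le_mul_of_nonneg_left hH2 (by positivity)
      _ = 128 * C₂ * (l ^ 2 * T⁻¹) := by ring
  have e6 : C₁ ≤ C₁ * (l ^ 2 * T⁻¹) := by
    calc C₁ = C₁ * 1 := by ring
      _ ≤ _ := mul_le_mul_of_nonneg_left hB hC₁.le
  nlinarith

theorem fin_real (C₁ C₂ c : ℝ) (hC₁ : 0 < C₁) (hC₂ : 0 < C₂) (hc : 0 < c) : ∃ (C : ℝ) (R₀ : ℕ), 0 < C ∧ 16 ≤ R₀ ∧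
    ∀ R : ℕ, R₀ ≤ R → 3 ≤ ⌊√(Real.log R)⌋₊ ∧ ∀ (H : ℝ) (Q : ℕ), 1 ≤ Q → (Q : ℝ) ≤ 4 ^ ⌊√(Real.log R)⌋₊ →
      1 / (Q : ℝ) ≤ H → H ≤ C₂ * Real.log (⌊√(Real.log R)⌋₊ : ℕ) ^ (-(1 / 16) : ℝ) →
      C₁ * R + R * (6 * H * (1 + Real.log R) ^ 2 + 2 * (1 + Real.log R) ^ 2 / (Q : ℝ) +
        10 * (1 + Real.log R) * (1 + Real.log Q)) ≤
      C * (c * (R * Real.log R ^ 2)) / Real.log (Real.log R) ^ (1 / 16 : ℝ) := by
  refine ⟨(C₁ + 128 * C₂ + 60) / c, 3 ^ 16, by positivity, by norm_num, ?_⟩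
  intro R hR
  have hRR : (3 : ℝ) ^ 16 ≤ (R : ℝ) := by exact_mod_cast hR
  have hRpos : (0 : ℝ) < R := lt_of_lt_of_le (by norm_num) hRR
  have hl : 16 ≤ Real.log R := by
    calc (16 : ℝ) = 16 * 1 := by norm_num
      _ ≤ 16 * Real.log 3 := by
          apply mul_le_mul_of_nonneg_left _ (by norm_num)
          rw [Real.le_log_iff_exp_le (by norm_num)]
          have := Real.exp_one_lt_d9
          linarith
      _ = Real.log ((3 : ℝ) ^ 16) := by rw [Real.log_pow]; norm_num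
      _ ≤ Real.log R := Real.log_le_log (by norm_num) hRR
  set l := Real.log R with hldef
  have hl0 : 0 < l := by linarith
  have hs : √l * √l = l := Real.mul_self_sqrt hl0.le
  have hs4 : 4 ≤ √l := by
    apply Real.le_sqrt_of_sq_le
    norm_num
    exact hl
  have hy4 : 4 ≤ ⌊√l⌋₊ := Nat.le_floor (by exact_mod_cast hs4)
  refine ⟨by omega, ?_⟩
  intro H Q hQ hQ4 hH1 hH2
  set y := ⌊√l⌋₊ with hy
  have hyR : (y : ℝ) ≤ √l := Nat.floor_le (by positivity)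
  have hyR2 : √l < y + 1 := Nat.lt_floor_add_one _
  have hyhalf : √l / 2 ≤ y := by linarith
  have hQR : (1 : ℝ) ≤ Q := by exact_mod_cast hQ
  -- log Q
  have hlogQ : Real.log Q ≤ 2 * √l := by
    calc Real.log Q ≤ Real.log (4 ^ y) := Real.log_le_log (by linarith) hQ4
      _ = y * Real.log 4 := Real.log_pow _ _
      _ ≤ y * 2 := by
          apply mul_le_mul_of_nonneg_left _ (by positivity)
          have : (4 : ℝ) = 2 ^ 2 := by norm_num
          rw [this, Real.log_pow]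
          have := Real.log_two_lt_d9
          push_cast
          linarith
      _ ≤ 2 * √l := by linarith
  -- log y
  have hlogl : 0 < Real.log l := Real.log_pos (by linarith)
  have hlogy : Real.log l / 4 ≤ Real.log y := by
    have h1 : Real.log (√l / 2) ≤ Real.log y := Real.log_le_log (by positivity) hyhalf
    have h2 : Real.log (√l / 2) = Real.log l / 2 - Real.log 2 := by
      rw [Real.log_div (by positivity) (by norm_num), Real.log_sqrt hl0.le]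
    have h3 : 4 * Real.log 2 ≤ Real.log l := by
      have : 4 * Real.log 2 = Real.log ((2 : ℝ) ^ 4) := by rw [Real.log_pow]; norm_num
      rw [this]
      exact Real.log_le_log (by norm_num) (by norm_num; exact hl)
    linarith
  have hH3 : H ≤ 4 * C₂ * (Real.log l ^ (1 / 16 : ℝ))⁻¹ := by
    refine le_trans hH2 ?_
    have h1 : Real.log (y : ℝ) ^ (-(1 / 16) : ℝ) ≤ (Real.log l / 4) ^ (-(1 / 16) : ℝ) :=
      Real.rpow_le_rpow_of_nonpos (by positivity) hlogy (by norm_num)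
    have h2 : (Real.log l / 4) ^ (-(1 / 16) : ℝ) =
        4 ^ (1 / 16 : ℝ) * (Real.log l ^ (1 / 16 : ℝ))⁻¹ := by
      rw [Real.rpow_neg (by positivity), Real.div_rpow hlogl.le (by norm_num), inv_div,
        div_eq_mul_inv]
    have h3 : (4 : ℝ) ^ (1 / 16 : ℝ) ≤ 4 := by
      calc (4 : ℝ) ^ (1 / 16 : ℝ) ≤ 4 ^ (1 : ℝ) :=
            Real.rpow_le_rpow_of_exponent_le (by norm_num) (by norm_num)
        _ = 4 := Real.rpow_one _
    have h4 : 0 < (Real.log l ^ (1 / 16 : ℝ))⁻¹ := by positivity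
    calc C₂ * Real.log (y : ℝ) ^ (-(1 / 16) : ℝ) ≤ C₂ * (4 ^ (1 / 16 : ℝ) * (Real.log l ^ (1 / 16 : ℝ))⁻¹) := by
          rw [← h2]; exact mul_le_mul_of_nonneg_left h1 hC₂.le
      _ ≤ C₂ * (4 * (Real.log l ^ (1 / 16 : ℝ))⁻¹) := by
          apply mul_le_mul_of_nonneg_left _ hC₂.le
          exact mul_le_mul_of_nonneg_right h3 h4.le
      _ = _ := by ring
  have hcore := core C₁ C₂ l H Q hC₁ hC₂ hl hQR hlogQ hH1 hH3
  have : (C₁ + 128 * C₂ + 60) / c * (c * (R * l ^ 2)) / Real.log l ^ (1 / 16 : ℝ) =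
      R * ((C₁ + 128 * C₂ + 60) * (l ^ 2 * (Real.log l ^ (1 / 16 : ℝ))⁻¹)) := by
    field_simp
  rw [this]
  calc C₁ * R + R * (6 * H * (1 + l) ^ 2 + 2 * (1 + l) ^ 2 / (Q : ℝ) +
        10 * (1 + l) * (1 + Real.log Q)) = R * (C₁ + (6 * H * (1 + l) ^ 2 + 2 * (1 + l) ^ 2 / Q + 10 * (1 + l) * (1 + Real.log Q))) := by ring
    _ ≤ _ := mul_le_mul_of_nonneg_left hcore hRpos.le

end Pool.Agent.DPT
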