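import Pool.Agent.DPT.Rho
import Pool.Agent.DPT.CardG

/-!
DPT-FixA. The sieve for fixed `a`.

PLAN. Let `F' = {p ∈ F : Good p a}`; these primes do not divide `a` (`Good` contains `(a : ZMod p) ≠ 0`). `P = ∏_{F'} p` is
coprime to `a`. `r ∈ sieved F a R` iff `SQ1 a r` and `r` is coprime to `P`. Put `M = a P`. The map
`r ↦ (r / M, (r % a, r % P))` is injective on `[1, R]` (Chinese remainder) and maps `sieved F a R` into
`range (R / M + 1) × ({SQ1 a} ∩ range a) × {coprime to P, < P}`, so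
`card ≤ (R / M + 1) · rho a · φ(P) ≤ rho a (R / a · φ(P)/P + φ(P))`, and `φ(P)/P = ∏_{F'} (1 - 1/p) = hh F a`
(`Nat.totient` is multiplicative; P is a product of distinct primes), `φ(P) ≤ P ≤ ∏_F p`.
`fix_triv` is the bound with `F` empty.
-/

set_option autoImplicit false

open Finset

namespace Pool.Agent.DPT

open Classical in
private theorem key_card {a P : ℕ} (ha : 0 < a) (hP : 0 < P) (hc : Nat.Coprime a P) (R : ℕ)
    (S : Finset ℕ) (hS : ∀ r ∈ S, r ≤ R ∧ SQ1 a r ∧ P.Coprime r) :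
    S.card ≤ (R / (a * P) + 1) * (rho a * P.totient) := by
  have h1 : S.card ≤ ((range (R / (a * P) + 1)) ×ˢ (((range a).filter (SQ1 a)) ×ˢ
      ((range P).filter fun x => P.Coprime x))).card := by
    apply Finset.card_le_card_of_injOn (fun r => (r / (a * P), (r % a, r % P)))
    · intro r hr
      obtain ⟨h1, h2, h3⟩ := hS r hr
      simp only [coe_product, Set.mem_prod, mem_coe, mem_range, mem_filter]
      refine ⟨?_, ⟨Nat.mod_lt _ ha, (sq1_mod a r).2 h2⟩, Nat.mod_lt _ hP, ?_⟩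
      · exact Nat.lt_succ_of_le (Nat.div_le_div_right h1)
      · rw [Nat.coprime_comm, Nat.Coprime, ← Nat.gcd_rec]
        exact h3
    · intro r _ r' _ h
      simp only [Prod.mk.injEq] at h
      obtain ⟨h1, h2, h3⟩ := h
      have h4 : r ≡ r' [MOD a * P] := (Nat.modEq_and_modEq_iff_modEq_mul hc).1 ⟨h2, h3⟩
      have h5 : r % (a * P) = r' % (a * P) := h4
      rw [← Nat.div_add_mod r (a * P), ← Nat.div_add_mod r' (a * P), h1, h5]
  refine h1.trans ?_
  rw [card_product, card_product, card_range]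
  exact le_of_eq rfl

theorem fix_a {F : Finset ℕ} (hF : ∀ p ∈ F, p.Prime) {a : ℕ} (ha : 0 < a) (R : ℕ) :
    ((sieved F a R).card : ℝ) ≤ rho a * ((R : ℝ) / a * hh F a + ∏ p ∈ F, (p : ℝ)) := by
  classical
  set F' := F.filter (fun p => Good p a) with hF'
  set P := ∏ p ∈ F', p with hPd
  have hp' : ∀ p ∈ F', p.Prime := fun p hp => hF p (mem_filter.1 hp).1
  have hP : 0 < P := Finset.prod_pos fun p hp => (hp' p hp).pos
  have hc : Nat.Coprime a P := by
    apply Nat.Coprime.prod_right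
    intro p hp
    rw [Nat.coprime_comm, (hp' p hp).coprime_iff_not_dvd]
    intro hd
    exact (mem_filter.1 hp).2.1 ((ZMod.natCast_eq_zero_iff a p).2 hd)
  have h1 := key_card ha hP hc R (sieved F a R) (by
    intro r hr
    simp only [sieved, mem_filter, mem_Icc] at hr
    refine ⟨hr.1.2, hr.2.1, ?_⟩
    apply Nat.Coprime.prod_left
    intro p hp
    rw [(hp' p hp).coprime_iff_not_dvd]
    intro hd
    exact hr.2.2 p (mem_filter.1 hp).1 ⟨hd, (mem_filter.1 hp).2⟩)
  have h2 : (P.totient : ℝ) = P * hh F a := by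
    have h3 : (P.totient : ℚ) = P * ∏ p ∈ F', (1 - (p : ℚ)⁻¹) := by
      rw [Nat.totient_eq_mul_prod_factors, Nat.primeFactors_prod hp']
    have h4 : hh F a = ∏ p ∈ F', (1 - (p : ℝ)⁻¹) := by
      rw [hh, hF', Finset.prod_filter]
      apply Finset.prod_congr rfl
      intro p _
      simp [wt]
    rw [h4]
    have h5 := congrArg (fun x : ℚ => (x : ℝ)) h3
    simpa using h5
  have h5 : (P.totient : ℝ) ≤ ∏ p ∈ F, (p : ℝ) := by
    have h6 : P.totient ≤ P := Nat.totient_le P
    have h7 : P ≤ ∏ p ∈ F, p := by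
      apply Finset.prod_le_prod_of_subset_of_one_le' (filter_subset _ _)
      intro p hp _
      exact (hF p hp).one_lt.le
    rw [← Nat.cast_prod]
    exact_mod_cast h6.trans h7
  have hPR : (0 : ℝ) < P := by exact_mod_cast hP
  have haR : (0 : ℝ) < a := by exact_mod_cast ha
  have h8 : ((R / (a * P) : ℕ) : ℝ) ≤ (R : ℝ) / (a * P) := by
    have := @Nat.cast_div_le ℝ _ _ _ R (a * P)
    simpa using this
  calc ((sieved F a R).card : ℝ) ≤ (((R / (a * P) + 1) * (rho a * P.totient) : ℕ) : ℝ) := by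
        exact_mod_cast h1
    _ = (((R / (a * P) : ℕ) : ℝ) + 1) * (rho a * P.totient) := by push_cast; ring
    _ ≤ ((R : ℝ) / (a * P) + 1) * (rho a * P.totient) := by gcongr
    _ = rho a * ((R : ℝ) / (a * P) * P.totient + P.totient) := by ring
    _ = rho a * ((R : ℝ) / a * hh F a + P.totient) := by rw [h2]; field_simp
    _ ≤ rho a * ((R : ℝ) / a * hh F a + ∏ p ∈ F, (p : ℝ)) := by gcongr

theorem fix_triv (F : Finset ℕ) {a : ℕ} (ha : 0 < a) (R : ℕ) :
    ((sieved F a R).card : ℝ) ≤ rho a * ((R : ℝ) / a + 1) := by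
  classical
  have h1 : (sieved F a R).card ≤ (sqs a R).card := by
    apply Finset.card_le_card
    intro r hr
    simp only [sieved, sqs, mem_filter, mem_Icc] at hr ⊢
    exact ⟨hr.1, hr.2.1⟩
  have h2 := h1.trans (count_sq1 ha R)
  calc ((sieved F a R).card : ℝ) ≤ ((rho a * (R / a + 1) : ℕ) : ℝ) := by exact_mod_cast h2
    _ = rho a * (((R / a : ℕ) : ℝ) + 1) := by push_cast; ring
    _ ≤ rho a * ((R : ℝ) / a + 1) := by
      gcongr
      exact Nat.cast_div_le

end Pool.Agent.DPT
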