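import Pool.Agent.DPT.Mert
import Pool.Agent.DPT.CardG

/-!
DPT-HB. The size of `HH (FF y)` and of `∏ FF y`: `HH (FF y) = ∏ (1 - gg p / p²) ≤ exp (-(1/4) ∑ 1/p + (3/4) ∑ 1/p²)` by `card_G`,
and `mert`; `∏_{FF y} p ≤ primorial y ≤ 4^y`.
-/

set_option autoImplicit false

open Finset

namespace Pool.Agent.DPT

private theorem sum_sq (y : ℕ) : ∑ n ∈ Icc 1 (y + 1), 1 / (n : ℝ) ^ 2 ≤ 2 - 1 / ((y : ℝ) + 1) := by
  induction y with
  | zero =>
    simp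
    norm_num
  | succ y ih =>
    rw [Finset.sum_Icc_succ_top (by omega)]
    have h0 : (0 : ℝ) ≤ (y : ℝ) := Nat.cast_nonneg y
    have h2 : 1 / (((y + 1 + 1 : ℕ) : ℝ)) ^ 2 ≤ 1 / ((y : ℝ) + 1) - 1 / (((y + 1 : ℕ) : ℝ) + 1) := by
      push_cast
      have h3 : 1 / ((y : ℝ) + 1) - 1 / ((y : ℝ) + 1 + 1) = 1 / (((y : ℝ) + 1) * ((y : ℝ) + 1 + 1)) := by
        field_simp
        ring
      rw [h3]
      apply one_div_le_one_div_of_le (by positivity)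
      nlinarith
    linarith

theorem HH_bound : ∃ C : ℝ, 0 < C ∧ ∀ y : ℕ, 3 ≤ y →
    HH (FF y) ≤ C * Real.log y ^ (-(1 / 16) : ℝ) := by
  obtain ⟨C0, hC0⟩ := mert
  refine ⟨Real.exp (C0 / 4 + 3 / 2), Real.exp_pos _, fun y hy => ?_⟩
  have hmem : ∀ p ∈ FF y, p.Prime ∧ p % 12 = 7 := fun p hp => (mem_filter.1 hp).2
  have h1 : HH (FF y) ≤ ∏ p ∈ FF y, Real.exp (-(1 / 4) * (1 / (p : ℝ)) + 3 / 4 * (1 / (p : ℝ) ^ 2)) := by
    refine prod_le_prod (fun p hp => ?_) (fun p hp => ?_)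
    · obtain ⟨h2, h3⟩ := hmem p hp
      have h4 := gg_le h2
      have h5 : (gg p : ℝ) + 1 ≤ p := by exact_mod_cast h4
      have hp0 : (1 : ℝ) ≤ p := by exact_mod_cast h2.one_lt.le
      have h6 : (gg p : ℝ) / (p : ℝ) ^ 2 ≤ 1 := by
        rw [div_le_one (by positivity)]
        nlinarith
      linarith
    · obtain ⟨h2, h3⟩ := hmem p hp
      have h4 := card_G h2 h3
      have h5 : (p : ℝ) ≤ 4 * gg p + 3 := by exact_mod_cast h4
      have hp0 : (0 : ℝ) < p := by exact_mod_cast h2.pos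
      have h6 : -((gg p : ℝ) / (p : ℝ) ^ 2) ≤ -(1 / 4) * (1 / (p : ℝ)) + 3 / 4 * (1 / (p : ℝ) ^ 2) := by
        have h7 : -(1 / 4) * (1 / (p : ℝ)) + 3 / 4 * (1 / (p : ℝ) ^ 2) = -(((p : ℝ) - 3) / 4 / (p : ℝ) ^ 2) := by
          field_simp
          ring
        rw [h7]
        apply neg_le_neg
        apply div_le_div_of_nonneg_right _ (by positivity)
        linarith
      have h8 := Real.add_one_le_exp (-((gg p : ℝ) / (p : ℝ) ^ 2))
      have h9 := Real.exp_le_exp.2 h6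
      linarith
  have h2 : ∑ p ∈ FF y, 1 / (p : ℝ) ^ 2 ≤ 2 := by
    have h3 : ∑ p ∈ FF y, 1 / (p : ℝ) ^ 2 ≤ ∑ n ∈ Icc 1 y, 1 / (n : ℝ) ^ 2 :=
      sum_le_sum_of_subset_of_nonneg (filter_subset _ _) fun _ _ _ => by positivity
    obtain ⟨z, rfl⟩ : ∃ z, y = z + 1 := ⟨y - 1, by omega⟩
    have h4 := sum_sq z
    have h5 : (0 : ℝ) ≤ 1 / ((z : ℝ) + 1) := by positivity
    linarith
  have hlog : 0 < Real.log y := by
    apply Real.log_pos
    have : (3 : ℝ) ≤ y := by exact_mod_cast hy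
    linarith
  rw [← Real.exp_sum, sum_add_distrib, ← mul_sum, ← mul_sum] at h1
  refine h1.trans ?_
  rw [Real.rpow_def_of_pos hlog, ← Real.exp_add]
  apply Real.exp_le_exp.2
  have h3 := hC0 y hy
  linarith

theorem prod_FF (y : ℕ) : ∏ p ∈ FF y, p ≤ 4 ^ y := by
  refine le_trans ?_ (primorial_le_four_pow y)
  unfold primorial
  refine prod_le_prod_of_subset_of_one_le' ?_ ?_
  · intro p hp
    obtain ⟨h1, h2, h3⟩ := mem_filter.1 hp
    rw [mem_filter, mem_range]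
    rw [mem_Icc] at h1
    exact ⟨by omega, h2⟩
  · intro p hp _
    exact (mem_filter.1 hp).2.one_lt.le

end Pool.Agent.DPT
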