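import Pool.Agent.DPT.Defs

/-!
DPT-Iden. For `p ≡ 7 mod 12` and `a⁴ + a'⁴ = 1` the classes `a`, `a'` are not both bad.
-/

set_option autoImplicit false

namespace Pool.Agent.DPT

private theorem di_neg_three {p : ℕ} [Fact p.Prime] (hp : p % 3 = 1) :
    IsSquare (-3 : ZMod p) := by
  have hcard : Nat.card (ZMod p)ˣ = p - 1 := by
    rw [Nat.card_eq_fintype_card, ZMod.card_units]
  have h3 : 3 ∣ Nat.card (ZMod p)ˣ := by rw [hcard]; omega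
  have : Fact (Nat.Prime 3) := ⟨Nat.prime_three⟩
  obtain ⟨x, hx⟩ := exists_prime_orderOf_dvd_card' 3 h3
  have hx3 : (x : ZMod p) ^ 3 = 1 := by
    have := pow_orderOf_eq_one x
    rw [hx] at this
    have h := congrArg Units.val this
    simpa using h
  have hx1 : (x : ZMod p) ≠ 1 := by
    intro h
    have : x = 1 := Units.ext h
    rw [this, orderOf_one] at hx
    norm_num at hx
  have hq : (x : ZMod p) ^ 2 + x + 1 = 0 := by
    have : ((x : ZMod p) - 1) * ((x : ZMod p) ^ 2 + x + 1) = 0 := by linear_combination hx3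
    exact (mul_eq_zero.1 this).resolve_left (sub_ne_zero.2 hx1)
  exact ⟨2 * x + 1, by linear_combination (-4) * hq⟩

private theorem di_bad {p : ℕ} [Fact p.Prime] {a : ZMod p} (ha : a ≠ 0) (h : Bad p a) :
    ∃ μ s : ZMod p, s ≠ 0 ∧ 1 + 2 * μ = s ^ 2 ∧ a ^ 4 * (1 + 2 * μ) = μ ^ 3 * (μ + 2) := by
  obtain ⟨u, v, d, h1, h2⟩ := h
  have hi : a⁻¹ ^ 2 ≠ 0 := pow_ne_zero 2 (inv_ne_zero ha)
  have hv : v ≠ 0 := by
    rintro rfl
    apply hi
    rw [h2]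
    ring
  have hd : d ≠ 0 := by
    rintro rfl
    apply hi
    rw [h2]
    ring
  have e1 : 1 + 2 * (u / v) = (a⁻¹ / (d * v ^ 2)) ^ 2 := by
    rw [div_pow, h2]
    field_simp
  refine ⟨u / v, a⁻¹ / (d * v ^ 2), div_ne_zero (inv_ne_zero ha) (mul_ne_zero hd (pow_ne_zero 2 hv)),
    e1, ?_⟩
  have e2 : a ^ 4 * a⁻¹ ^ 2 = a ^ 2 := by
    field_simp
  have e3 : a ^ 4 * (a⁻¹ / (d * v ^ 2)) ^ 2 = a ^ 2 / (d * v ^ 2) ^ 2 := by
    rw [div_pow, ← mul_div_assoc, e2]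
  rw [e1, e3, h1]
  field_simp

theorem not_both {p : ℕ} [Fact p.Prime] (h12 : p % 12 = 7) {a a' : ZMod p} (ha : a ≠ 0)
    (ha' : a' ≠ 0) (h : a ^ 4 + a' ^ 4 = 1) : ¬ (Bad p a ∧ Bad p a') := by
  rintro ⟨hb, hb'⟩
  obtain ⟨μ, s, hs, h1, h2⟩ := di_bad ha hb
  obtain ⟨ν, t, ht, h3, h4⟩ := di_bad ha' hb'
  have hno : ¬ IsSquare (-1 : ZMod p) := by
    rw [ZMod.exists_sq_eq_neg_one_iff]
    omega
  obtain ⟨κ, hκ⟩ : ∃ κ, κ = -1 - ν := ⟨_, rfl⟩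
  have k1 : 1 + 2 * κ = -t ^ 2 := by
    rw [hκ]
    linear_combination -h3
  have k2 : a ^ 4 * (1 + 2 * κ) = κ ^ 3 * (κ + 2) := by
    have e : a ^ 4 = 1 - a' ^ 4 := by linear_combination h
    rw [e, hκ]
    linear_combination h4
  have hne : μ - κ ≠ 0 := by
    intro h0
    apply hno
    refine ⟨s / t, ?_⟩
    have e : -t ^ 2 = s ^ 2 := by linear_combination h1 - k1 - 2 * h0
    field_simp
    linear_combination e
  have hR : (μ - κ) * ((μ + κ) ^ 3 + 2 * (μ + κ) ^ 2 + 2 * (μ * κ) * (μ + κ) ^ 2 +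
      2 * (μ * κ) * (μ + κ) - 2 * (μ * κ) - 2 * (μ * κ) ^ 2) = 0 := by
    linear_combination (1 + 2 * μ) * k2 - (1 + 2 * κ) * h2
  have hR0 := (mul_eq_zero.1 hR).resolve_left hne
  obtain ⟨m, hm⟩ : ∃ m, m = 2 * (μ * κ) + μ + κ := ⟨_, rfl⟩
  obtain ⟨x, hx⟩ : ∃ x, x = (μ - κ) * s * t := ⟨_, rfl⟩
  have hx0 : x ≠ 0 := by
    rw [hx]
    exact mul_ne_zero (mul_ne_zero hne hs) ht
  have hxm : x ^ 2 = 3 * m ^ 2 := by
    have e1 : (μ - κ) ^ 2 * (1 + 2 * μ) * (1 + 2 * κ) + 3 * m ^ 2 = 0 := by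
      rw [hm]
      linear_combination 2 * hR0
    rw [h1, k1] at e1
    rw [hx]
    linear_combination -e1
  obtain ⟨w, hw⟩ := di_neg_three (p := p) (by omega)
  apply hno
  refine ⟨w * m / x, ?_⟩
  field_simp
  linear_combination m ^ 2 * hw - hxm

end Pool.Agent.DPT
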