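import Pool.Agent.DPT.Loc
import Pool.Agent.DPT.Chain

/-!
DPT-Ins. The exceptional pairs are `NS` pairs or not excluded by the primes of `F`.
-/

set_option autoImplicit false

open Finset

namespace Pool.Agent.DPT

private theorem ins_pairs {R a b : ℕ} (h : (a, b) ∈ pairs R) :
    0 < a ∧ a < b ∧ a * b + 1 = Nat.sqrt (a * b + 1) ^ 2 ∧ Nat.sqrt (a * b + 1) ≤ R ∧
      a < Nat.sqrt (a * b + 1) := by
  classical
  unfold pairs at h
  rw [mem_filter, mem_product, mem_Icc, mem_Icc] at h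
  obtain ⟨⟨⟨ha, _⟩, _⟩, hab, hsq, hR⟩ := h
  simp only at ha hab hsq hR
  obtain ⟨s, hs⟩ := hsq
  have e : Nat.sqrt (a * b + 1) = s := by rw [hs]; exact Nat.sqrt_eq s
  rw [e]
  have e2 : a * b + 1 = s ^ 2 := by rw [hs]; ring
  have h1 : s ≤ R := by
    rw [e2] at hR
    exact (Nat.pow_le_pow_iff_left two_ne_zero).1 hR
  refine ⟨ha, hab, e2, h1, ?_⟩
  by_contra h2
  have h3 : s ≤ a := not_lt.1 h2
  nlinarith

theorem exc_card {F : Finset ℕ} (hF : ∀ p ∈ F, p.Prime ∧ p % 12 = 7) (R : ℕ) :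
    (exceptional R).card ≤ (nsPairs R).card + (sieved2 F R).card := by
  classical
  have h1 : (exceptional R).card ≤ (nsPairs R).card + (exceptional R \ nsPairs R).card := by
    have h := card_le_card (s := exceptional R) (t := nsPairs R ∪ (exceptional R \ nsPairs R))
      (fun x hx => by
        rw [mem_union, mem_sdiff]
        by_cases h : x ∈ nsPairs R
        · exact Or.inl h
        · exact Or.inr ⟨hx, h⟩)
    exact h.trans (card_union_le _ _)
  refine h1.trans (Nat.add_le_add_left ?_ _)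
  refine card_le_card_of_injOn (fun q : ℕ × ℕ => (q.1, Nat.sqrt (q.1 * q.2 + 1))) ?_ ?_
  · rintro ⟨a, b⟩ hq
    have hq1 : (a, b) ∈ exceptional R \ nsPairs R := hq
    rw [mem_sdiff] at hq1
    obtain ⟨hex, hns⟩ := hq1
    have hex2 := hex
    unfold exceptional at hex2
    rw [mem_filter] at hex2
    obtain ⟨hp, c, hc, hc1, hc2, ht⟩ := hex2
    simp only at hc1 hc2 ht
    obtain ⟨ha, hab, hr, hrR, har⟩ := ins_pairs hp
    have hns2 : ¬ NS a b (Nat.sqrt (a * b + 1)) := by
      intro h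
      apply hns
      unfold nsPairs
      rw [mem_filter]
      exact ⟨hp, h⟩
    show (a, Nat.sqrt (a * b + 1)) ∈ sieved2 F R
    unfold sieved2
    rw [mem_filter, mem_product, mem_Icc, mem_Icc]
    refine ⟨⟨⟨ha, har.le.trans hrR⟩, by omega, hrR⟩, ?_, ?_⟩
    · show (a : ℤ) ∣ ((Nat.sqrt (a * b + 1) : ℕ) : ℤ) ^ 2 - 1
      refine ⟨b, ?_⟩
      have h5 : (a : ℤ) * b + 1 = ((Nat.sqrt (a * b + 1) : ℕ) : ℤ) ^ 2 := by exact_mod_cast hr
      rw [← h5]
      ring
    · rintro p hpF ⟨hpr, hg⟩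
      obtain ⟨hpp, h12⟩ := hF p hpF
      exact loc hpp h12 hr hpr hg (chain ha hab hr hns2 hc hc1 hc2) ht
  · rintro ⟨a, b⟩ hq ⟨a', b'⟩ hq' heq
    have hq1 : (a, b) ∈ exceptional R \ nsPairs R := hq
    have hq1' : (a', b') ∈ exceptional R \ nsPairs R := hq'
    rw [mem_sdiff] at hq1 hq1'
    have hp : (a, b) ∈ pairs R := by
      have := hq1.1
      unfold exceptional at this
      exact (mem_filter.1 this).1
    have hp' : (a', b') ∈ pairs R := by
      have := hq1'.1
      unfold exceptional at this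
      exact (mem_filter.1 this).1
    obtain ⟨ha, _, hr, _, _⟩ := ins_pairs hp
    obtain ⟨_, _, hr', _, _⟩ := ins_pairs hp'
    simp only [Prod.mk.injEq] at heq
    obtain ⟨e1, e2⟩ := heq
    subst e1
    rw [e2] at hr
    have h3 : a * b + 1 = a * b' + 1 := hr.trans hr'.symm
    have h4 : a * b = a * b' := by omega
    have h5 : b = b' := Nat.eq_of_mul_eq_mul_left ha h4
    rw [h5]

end Pool.Agent.DPT
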