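import Pool.Agent.DPT.Defs
import Pool.Agent.Helper51.Tors.FromTorsion

/-!
DPT-Loc. The local obstruction at a prime `p ≡ 7 mod 12` dividing `r = √(ab+1)`.

PLAN. `Helper51.Tors.Data a b c u v w d` says `u + v + w = 0`, `a(c-b) = d²u³(v-w)`,
`b(a-c) = d²v³(w-u)`, `c(b-a) = d²w³(u-v)` (`data_of_torsion` gives it from the torsion group).
* `bad_of_data`: in `ZMod p` we have `ab = -1`, `c = a + b`, so `a(c-b) = a²`, `b(a-c) = -b²` and
  `b = -a⁻¹`; `v - w = u + 2v`, `w - u = -(v + 2u)`.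
* `not_dvd`: `Data.isSquare` (Helper51/Tors/Final.lean: for `p % 3 = 1` and `p ∣ a` the product `b c` is
  a square modulo `p`), applied to `h.rotate.rotate` (Helper51/Tors/NT.lean) gives that `ab = -1` is a
  square modulo `p`, but `p % 4 = 3` (`ZMod.exists_sq_eq_neg_one_iff`). See the proof of
  Helper51/Tors/ResidueCondition.lean.
* `loc`: `p ∣ r` so `p ∣ ab + 1`; reduce `r ∣ c` or `r ∣ c - (a+b)` modulo `p`.
-/

set_option autoImplicit false

namespace Pool.Agent.DPT

open Pool.Agent.Helper51.Tors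

theorem bad_of_data {p : ℕ} [Fact p.Prime] {a b c u v w d : ℤ} (h : Data a b c u v w d)
    (hab : (p : ℤ) ∣ a * b + 1) (hc : (p : ℤ) ∣ c - (a + b)) : Bad p (a : ZMod p) := by
  have hw : w = -u - v := by linear_combination h.hsum
  have h1 := h.h1
  have h2 := h.h2
  rw [hw] at h1 h2
  have e0 := (ZMod.intCast_zmod_eq_zero_iff_dvd _ p).2 hab
  have ec := (ZMod.intCast_zmod_eq_zero_iff_dvd _ p).2 hc
  have e1 := congrArg (Int.cast : ℤ → ZMod p) h1
  have e2 := congrArg (Int.cast : ℤ → ZMod p) h2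
  push_cast at e0 ec e1 e2
  have hc' : (c : ZMod p) = a + b := by linear_combination ec
  have ha0 : (a : ZMod p) ≠ 0 := by
    intro h0
    rw [h0, zero_mul, zero_add] at e0
    exact one_ne_zero e0
  have hb : (a : ZMod p)⁻¹ = -b := by
    apply inv_eq_of_mul_eq_one_right
    linear_combination -e0
  refine ⟨u, v, d, ?_, ?_⟩
  · rw [hc'] at e1
    linear_combination e1
  · rw [hc'] at e2
    rw [hb]
    linear_combination -e2

theorem not_dvd {p : ℕ} [Fact p.Prime] (h12 : p % 12 = 7) {a b c u v w d : ℤ}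
    (h : Data a b c u v w d) (hab : (p : ℤ) ∣ a * b + 1) : ¬ (p : ℤ) ∣ c := by
  intro hpc
  have h3 : p % 3 = 1 := by omega
  have h4 := h.rotate.rotate.isSquare h3 hpc
  have e0 := (ZMod.intCast_zmod_eq_zero_iff_dvd _ p).2 hab
  push_cast at e0
  have e1 : (a : ZMod p) * b = -1 := by linear_combination e0
  rw [e1] at h4
  have h5 := ZMod.exists_sq_eq_neg_one_iff.1 h4
  omega

theorem loc {p a b r c : ℕ} (hp : p.Prime) (h12 : p % 12 = 7) (hr : a * b + 1 = r ^ 2)
    (hpr : p ∣ r) (hg : Good p a) (hc : (r : ℤ) ∣ c ∨ (r : ℤ) ∣ (c : ℤ) - (a + b)) :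
    ¬ HasTorsion26 a b c := by
  intro ht
  have : Fact p.Prime := ⟨hp⟩
  obtain ⟨u, v, w, d, h⟩ := data_of_torsion a b c ht
  have hpr' : (p : ℤ) ∣ r := by exact_mod_cast hpr
  have hab : (p : ℤ) ∣ (a : ℤ) * b + 1 := by
    have h1 : (a : ℤ) * b + 1 = (r : ℤ) ^ 2 := by exact_mod_cast hr
    rw [h1]
    exact dvd_pow hpr' two_ne_zero
  rcases hc with hc | hc
  · exact not_dvd h12 h hab (hpr'.trans hc)
  · have h1 := bad_of_data h hab (hpr'.trans hc)
    rw [Int.cast_natCast] at h1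
    exact hg.2 h1

end Pool.Agent.DPT
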