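import Pool.Agent.DPT.Defs

/-!
DPT-LowA. Many Diophantine pairs.

PLAN. Let `d, e` be odd, coprime, `4de ≤ R`. There are at least `⌊R/(de)⌋ - 1 ≥ R/(2de)` integers `r` with `de < r ≤ R`,
`r ≡ 1 mod d`, `r ≡ -1 mod e` (one in each block of `de` consecutive integers; `⌊x⌋ - 1 ≥ x - 2 ≥ x/2` for `x ≥ 4`). For
such an `r`: `a = de` divides `r² - 1`, `a < r`, `b = (r² - 1)/a > a` (since `ab = r² - 1 ≥ a² + 2a`), `(a, b) ∈ pairs R`.
The map `(d, e, r) ↦ (a, b)` is injective: `r² = ab + 1`, `d = gcd(a, r - 1)`, `e = gcd(a, r + 1)` (`gcd(e, r - 1)`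
divides `gcd(r + 1, r - 1)`, so `2`, and `e` is odd).
-/

set_option autoImplicit false

open Finset

namespace Pool.Agent.DPT

private theorem la_gcd {d e r : ℕ} (he : e % 2 = 1) (hd : d ∣ r - 1) (h1 : 1 ≤ r)
    (her : e ∣ r + 1) : Nat.gcd (d * e) (r - 1) = d := by
  have hc : Nat.Coprime e (r - 1) := by
    have h2 : Nat.gcd e (r - 1) ∣ 2 := by
      have h3 : Nat.gcd e (r - 1) ∣ r + 1 := (Nat.gcd_dvd_left _ _).trans her
      have h4 : Nat.gcd e (r - 1) ∣ r - 1 := Nat.gcd_dvd_right _ _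
      have h5 : r + 1 = (r - 1) + 2 := by omega
      rw [h5] at h3
      exact (Nat.dvd_add_right h4).1 h3
    have h6 : Nat.gcd e (r - 1) ∣ e := Nat.gcd_dvd_left _ _
    rcases (Nat.dvd_prime Nat.prime_two).1 h2 with h | h
    · exact h
    · rw [h] at h6
      omega
  rw [Nat.Coprime.gcd_mul_right_cancel d hc]
  exact Nat.gcd_eq_left hd

private theorem la_dvd {d e r : ℕ} (hd : d ∣ r - 1) (h1 : 1 ≤ r) (her : e ∣ r + 1) :
    d * e ∣ r ^ 2 - 1 := by
  have h2 : r ^ 2 - 1 = (r - 1) * (r + 1) := by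
    obtain ⟨k, rfl⟩ := Nat.exists_eq_add_of_le h1
    have h3 : 1 + k - 1 = k := by omega
    rw [h3]
    have h4 : (1 + k) ^ 2 = k * (1 + k + 1) + 1 := by ring
    rw [h4]
    omega
  rw [h2]
  exact Nat.mul_dvd_mul hd her

/-- the residues -/
private def laT (R : ℕ) (q : ℕ × ℕ) : Finset ℕ :=
  (Icc 1 R).filter fun r => q.1 * q.2 < r ∧ q.1 ∣ r - 1 ∧ q.2 ∣ r + 1

private theorem la_card {R d e : ℕ} (hd0 : 0 < d) (he0 : 0 < e) (hc : Nat.Coprime d e) :
    R / (d * e) - 1 ≤ (laT R (d, e)).card := by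
  obtain ⟨c, hc1, hc2⟩ := Nat.chineseRemainder hc 1 (e - 1)
  have hde : 0 < d * e := Nat.mul_pos hd0 he0
  set m := c + 1 * (d * e) with hm
  have hcd : d ∣ (m - 1) := by
    have h1 : 1 ≤ m := by omega
    have h2 : 1 ≡ m [MOD d] := by
      have h3 : c + 1 * (d * e) ≡ c [MOD d] := by
        have h4 : 1 * (d * e) ≡ 0 [MOD d] := by
          rw [one_mul]
          exact (Nat.modEq_zero_iff_dvd).2 (Dvd.intro _ rfl)
        simpa using (Nat.ModEq.refl c).add h4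
      exact (h3.trans hc1).symm
    exact (Nat.modEq_iff_dvd' h1).1 h2
  have hce : e ∣ m + 1 := by
    have h3 : m + 1 ≡ 0 [MOD e] := by
      have h4 : m ≡ e - 1 [MOD e] := by
        have h5 : c + 1 * (d * e) ≡ c [MOD e] := by
          have h4 : 1 * (d * e) ≡ 0 [MOD e] := by
            rw [one_mul]
            exact (Nat.modEq_zero_iff_dvd).2 (Dvd.intro_left _ rfl)
          simpa using (Nat.ModEq.refl c).add h4
        exact h5.trans hc2
      have h6 := h4.add_right 1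
      have h7 : e - 1 + 1 = e := by omega
      rw [h7] at h6
      exact h6.trans ((Nat.modEq_zero_iff_dvd).2 (dvd_refl e))
    exact (Nat.modEq_zero_iff_dvd).1 h3
  -- a representative between `1` and `d * e`
  obtain ⟨c', h1c, h2c, h3c, h4c⟩ : ∃ c', 1 ≤ c' ∧ c' ≤ d * e ∧ d ∣ c' - 1 ∧ e ∣ c' + 1 := by
    have hm1 : 1 ≤ m := by omega
    refine ⟨(m - 1) % (d * e) + 1, by omega, ?_, ?_, ?_⟩
    · have := Nat.mod_lt (m - 1) hde
      omega
    · rw [Nat.add_sub_cancel]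
      exact (Nat.dvd_mod_iff (Dvd.intro _ rfl)).2 hcd
    · have h5 : (m - 1) % (d * e) + 1 + 1 ≡ m + 1 [MOD e] := by
        have h6 : (m - 1) % (d * e) ≡ m - 1 [MOD e] :=
          (Nat.mod_modEq (m - 1) (d * e)).of_mul_left d
        have h7 := (h6.add_right 1).add_right 1
        have h8 : m - 1 + 1 = m := by omega
        rwa [h8] at h7
      exact (Nat.modEq_zero_iff_dvd).1 (h5.trans ((Nat.modEq_zero_iff_dvd).2 hce))
  have hcard : R / (d * e) - 1 = (Icc 1 (R / (d * e) - 1)).card := by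
    rw [Nat.card_Icc]
    omega
  rw [hcard]
  refine Finset.card_le_card_of_injOn (fun k => c' + k * (d * e)) ?_ ?_
  · intro k hk
    have hk' : 1 ≤ k ∧ k ≤ R / (d * e) - 1 := by simpa using hk
    have hkR : (k + 1) * (d * e) ≤ R := by
      have h5 : k + 1 ≤ R / (d * e) := by omega
      exact (Nat.le_div_iff_mul_le hde).1 h5
    have hkd : d * e ≤ k * (d * e) := Nat.le_mul_of_pos_left _ hk'.1
    have hexp : (k + 1) * (d * e) = k * (d * e) + d * e := by ring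
    show c' + k * (d * e) ∈ laT R (d, e)
    unfold laT
    rw [mem_filter, mem_Icc]
    refine ⟨⟨by omega, by omega⟩, ?_, ?_, ?_⟩
    · show d * e < c' + k * (d * e)
      omega
    · show d ∣ c' + k * (d * e) - 1
      have h6 : c' + k * (d * e) - 1 = (c' - 1) + k * (d * e) := by omega
      rw [h6]
      exact Nat.dvd_add h3c (Dvd.dvd.mul_left (Dvd.intro _ rfl) k)
    · show e ∣ c' + k * (d * e) + 1
      have h6 : c' + k * (d * e) + 1 = (c' + 1) + k * (d * e) := by omega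
      rw [h6]
      exact Nat.dvd_add h4c (Dvd.dvd.mul_left (Dvd.intro_left _ rfl) k)
  · intro k _ k' _ h
    have h5 : c' + k * (d * e) = c' + k' * (d * e) := h
    have h6 : k * (d * e) = k' * (d * e) := by omega
    exact Nat.eq_of_mul_eq_mul_right hde h6

private theorem la_real {R a : ℕ} (ha : 0 < a) (h4 : 4 * a ≤ R) :
    (R : ℝ) / (2 * a) ≤ ((R / a - 1 : ℕ) : ℝ) := by
  have ha' : (0 : ℝ) < a := by exact_mod_cast ha
  have h1 : (R : ℝ) / a < ((R / a : ℕ) : ℝ) + 1 := by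
    rw [div_lt_iff₀ ha']
    have h2 := Nat.lt_div_mul_add (a := R) ha
    have h3 : (R : ℝ) < ((R / a * a + a : ℕ) : ℝ) := by exact_mod_cast h2
    push_cast at h3
    linarith
  have h5 : 1 ≤ R / a := by
    rw [Nat.le_div_iff_mul_le ha]
    omega
  have h6 : (4 : ℝ) ≤ (R : ℝ) / a := by
    rw [le_div_iff₀ ha']
    exact_mod_cast h4
  rw [Nat.cast_sub h5]
  have h7 : (R : ℝ) / (2 * a) = (R : ℝ) / a / 2 := by
    field_simp
  rw [h7]
  push_cast
  linarith

private theorem la_mem {R d e r : ℕ} (hd0 : 0 < d) (he0 : 0 < e) (hr : r ∈ laT R (d, e)) :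
    (d * e, (r ^ 2 - 1) / (d * e)) ∈ pairs R ∧ (d * e) * ((r ^ 2 - 1) / (d * e)) + 1 = r ^ 2 := by
  unfold laT at hr
  rw [mem_filter, mem_Icc] at hr
  obtain ⟨⟨h1, h2⟩, h3, h4, h5⟩ := hr
  change d * e < r at h3
  change d ∣ r - 1 at h4
  change e ∣ r + 1 at h5
  have hde : 0 < d * e := Nat.mul_pos hd0 he0
  have hdvd := la_dvd h4 h1 h5
  have hr2 : 1 ≤ r ^ 2 := Nat.one_le_pow _ _ h1
  have heq : (d * e) * ((r ^ 2 - 1) / (d * e)) + 1 = r ^ 2 := by
    rw [Nat.mul_div_cancel' hdvd]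
    omega
  refine ⟨?_, heq⟩
  generalize d * e = a at *
  generalize (r ^ 2 - 1) / a = b at *
  have hR2 : r ^ 2 ≤ R ^ 2 := Nat.pow_le_pow_left h2 2
  have hab : a < b := by
    by_contra hle
    have h6 : b ≤ a := by omega
    have h7 : a * b ≤ a * a := Nat.mul_le_mul_left a h6
    have h8 : (a + 1) ^ 2 ≤ r ^ 2 := Nat.pow_le_pow_left h3 2
    nlinarith
  have hbR : b ≤ R ^ 2 := by
    have h6 : b ≤ a * b := Nat.le_mul_of_pos_left b hde
    omega
  unfold pairs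
  rw [mem_filter, mem_product, mem_Icc, mem_Icc]
  refine ⟨⟨⟨hde, by omega⟩, by omega, hbR⟩, hab, ⟨r, ?_⟩, ?_⟩
  · show a * b + 1 = r * r
    rw [heq]
    ring
  · show a * b + 1 ≤ R ^ 2
    omega

theorem low_a (R : ℕ) :
    ∑ q ∈ ((Icc 1 R) ×ˢ (Icc 1 R)).filter (fun q => q.1 % 2 = 1 ∧ q.2 % 2 = 1 ∧
      Nat.Coprime q.1 q.2 ∧ 4 * (q.1 * q.2) ≤ R), (R : ℝ) / (2 * (q.1 * q.2)) ≤
      (pairs R).card := by
  classical
  set S := ((Icc 1 R) ×ˢ (Icc 1 R)).filter (fun q => q.1 % 2 = 1 ∧ q.2 % 2 = 1 ∧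
      Nat.Coprime q.1 q.2 ∧ 4 * (q.1 * q.2) ≤ R) with hS
  have hpos : ∀ q ∈ S, 0 < q.1 ∧ 0 < q.2 ∧ q.1 % 2 = 1 ∧ q.2 % 2 = 1 ∧ Nat.Coprime q.1 q.2 ∧
      4 * (q.1 * q.2) ≤ R := by
    intro q hq
    rw [hS, mem_filter, mem_product, mem_Icc, mem_Icc] at hq
    exact ⟨hq.1.1.1, hq.1.2.1, hq.2⟩
  have hsum : ∑ q ∈ S, (R : ℝ) / (2 * (q.1 * q.2)) ≤ ((S.sigma (laT R)).card : ℝ) := by
    rw [card_sigma]
    push_cast
    refine sum_le_sum fun q hq => ?_
    obtain ⟨h1, h2, h3, h4, h5, h6⟩ := hpos q hq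
    have h7 := la_real (Nat.mul_pos h1 h2) h6
    have h8 : ((R / (q.1 * q.2) - 1 : ℕ) : ℝ) ≤ ((laT R q).card : ℝ) := by
      exact_mod_cast la_card (R := R) h1 h2 h5
    push_cast at h7
    linarith
  refine hsum.trans ?_
  have hcard : (S.sigma (laT R)).card ≤ (pairs R).card := by
    refine Finset.card_le_card_of_injOn
      (fun x => (x.1.1 * x.1.2, (x.2 ^ 2 - 1) / (x.1.1 * x.1.2))) ?_ ?_
    · rintro ⟨q, r⟩ hx
      have hx' : q ∈ S ∧ r ∈ laT R q := by simpa using hx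
      obtain ⟨h1, h2, -⟩ := hpos q hx'.1
      exact (la_mem h1 h2 hx'.2).1
    · rintro ⟨⟨d, e⟩, r⟩ hx ⟨⟨d', e'⟩, r'⟩ hx' h
      have hx1 : (d, e) ∈ S ∧ r ∈ laT R (d, e) := by simpa using hx
      have hx2 : (d', e') ∈ S ∧ r' ∈ laT R (d', e') := by simpa using hx'
      obtain ⟨h1, h2, h3, h4, -⟩ := hpos _ hx1.1
      obtain ⟨h1', h2', h3', h4', -⟩ := hpos _ hx2.1
      have hb := (la_mem h1 h2 hx1.2).2
      have hb' := (la_mem h1' h2' hx2.2).2
      have he1 : d * e = d' * e' := congrArg Prod.fst h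
      have he2 : (r ^ 2 - 1) / (d * e) = (r' ^ 2 - 1) / (d' * e') := congrArg Prod.snd h
      have hr2 : r ^ 2 = r' ^ 2 := by
        rw [← hb, ← hb', he2, he1]
      have hr : r = r' := Nat.pow_left_injective (n := 2) (by norm_num) hr2
      subst hr
      have g1 : Nat.gcd (d * e) (r - 1) = d := by
        have h9 := hx1.2
        unfold laT at h9
        rw [mem_filter, mem_Icc] at h9
        exact la_gcd h4 h9.2.2.1 h9.1.1 h9.2.2.2
      have g2 : Nat.gcd (d' * e') (r - 1) = d' := by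
        have h9 := hx2.2
        unfold laT at h9
        rw [mem_filter, mem_Icc] at h9
        exact la_gcd h4' h9.2.2.1 h9.1.1 h9.2.2.2
      have hd : d = d' := by
        rw [← g1, ← g2, he1]
      subst hd
      have he : e = e' := Nat.eq_of_mul_eq_mul_left h1 he1
      subst he
      rfl
  exact_mod_cast hcard

end Pool.Agent.DPT
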