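import Mathlib

/-!
DPT-LowB. The sum over the coprime odd pairs.

PLAN. Let `z = Nat.sqrt (R / 4)`, so all odd coprime `d, e ≤ z` occur. `S = ∑_{d ≤ z odd} 1/d ≥ (1/2) log z` (compare with
`∑ 1/(2k-1) ≥ ∑ 1/(2k)`). Sorting the pairs `(d, e)` of odd numbers `≤ z` by `g = gcd(d, e)` (odd):
`S² ≤ ∑_{g} 1/g² ∑_{coprime odd d', e' ≤ z} 1/(d'e') ≤ 2 ∑_{coprime odd}`. So the sum is at least `S²/2 ≥ (log z)²/8`, and
`log z ≥ (1/4) log R` for `R` large.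
-/

set_option autoImplicit false

open Finset

namespace Pool.Agent.DPT

private theorem lb_sq (n : ℕ) : ∑ g ∈ Icc 1 (n + 1), 1 / (g : ℝ) ^ 2 ≤ 2 - 1 / ((n : ℝ) + 1) := by
  induction n with
  | zero => norm_num
  | succ n ih =>
    rw [sum_Icc_succ_top (by omega)]
    have h1 : (1 : ℝ) / (((n + 1 + 1 : ℕ) : ℝ)) ^ 2 ≤ 1 / ((n : ℝ) + 1) - 1 / ((n : ℝ) + 1 + 1) := by
      have hn : (0 : ℝ) ≤ n := Nat.cast_nonneg n
      push_cast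
      rw [div_sub_div _ _ (by positivity) (by positivity), div_le_div_iff₀ (by positivity) (by positivity)]
      nlinarith
    push_cast at *
    linarith

private theorem lb_sq' (z : ℕ) : ∑ g ∈ Icc 1 z, 1 / (g : ℝ) ^ 2 ≤ 2 := by
  rcases Nat.eq_zero_or_pos z with h | h
  · subst h
    simp
  · obtain ⟨n, rfl⟩ : ∃ n, z = n + 1 := ⟨z - 1, by omega⟩
    have := lb_sq n
    have h1 : (0 : ℝ) ≤ 1 / ((n : ℝ) + 1) := by positivity
    linarith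

private theorem lb_odd (z : ℕ) :
    Real.log ((z : ℝ) + 1) / 2 ≤ ∑ d ∈ (Icc 1 z).filter (fun d => d % 2 = 1), 1 / (d : ℝ) := by
  have h1 : Real.log ((z : ℝ) + 1) ≤ ∑ d ∈ Icc 1 z, 1 / (d : ℝ) := by
    have h := log_add_one_le_harmonic z
    have e : ((harmonic z : ℚ) : ℝ) = ∑ d ∈ Icc 1 z, 1 / (d : ℝ) := by
      rw [harmonic_eq_sum_Icc]
      push_cast
      refine sum_congr rfl fun d _ => ?_
      rw [one_div]
    rw [e] at h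
    push_cast at h
    exact h
  have h2 : ∑ d ∈ Icc 1 z, 1 / (d : ℝ) = ∑ d ∈ (Icc 1 z).filter (fun d => d % 2 = 1), 1 / (d : ℝ) +
      ∑ d ∈ (Icc 1 z).filter (fun d => ¬ d % 2 = 1), 1 / (d : ℝ) :=
    (sum_filter_add_sum_filter_not _ _ _).symm
  have h3 : ∑ d ∈ (Icc 1 z).filter (fun d => ¬ d % 2 = 1), 1 / (d : ℝ) ≤
      ∑ d ∈ (Icc 1 z).filter (fun d => d % 2 = 1), 1 / (d : ℝ) := by
    have hinj : Set.InjOn (fun d : ℕ => d - 1) ((Icc 1 z).filter (fun d => ¬ d % 2 = 1) : Finset ℕ) := by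
      intro x hx y hy hxy
      have hx' := mem_Icc.mp (mem_filter.mp hx).1
      have hy' := mem_Icc.mp (mem_filter.mp hy).1
      simp only at hxy
      omega
    calc ∑ d ∈ (Icc 1 z).filter (fun d => ¬ d % 2 = 1), 1 / (d : ℝ)
        ≤ ∑ d ∈ (Icc 1 z).filter (fun d => ¬ d % 2 = 1), 1 / (((d - 1 : ℕ)) : ℝ) := by
          refine sum_le_sum fun d hd => ?_
          have hd' := mem_filter.mp hd
          have hd2 := mem_Icc.mp hd'.1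
          have h4 : 1 ≤ d - 1 := by omega
          have h5 : (0 : ℝ) < ((d - 1 : ℕ) : ℝ) := by exact_mod_cast h4
          apply one_div_le_one_div_of_le h5
          exact_mod_cast Nat.sub_le _ _
      _ = ∑ x ∈ ((Icc 1 z).filter (fun d => ¬ d % 2 = 1)).image (fun d : ℕ => d - 1), 1 / (x : ℝ) := by
          rw [sum_image hinj]
      _ ≤ ∑ d ∈ (Icc 1 z).filter (fun d => d % 2 = 1), 1 / (d : ℝ) := by
          refine sum_le_sum_of_subset_of_nonneg ?_ fun _ _ _ => by positivity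
          intro x hx
          obtain ⟨d, hd, rfl⟩ := mem_image.mp hx
          have hd' := mem_filter.mp hd
          have hd2 := mem_Icc.mp hd'.1
          rw [mem_filter, mem_Icc]
          omega
  linarith

private theorem lb_pairs (z : ℕ) :
    (∑ d ∈ (Icc 1 z).filter (fun d => d % 2 = 1), 1 / (d : ℝ)) ^ 2 ≤
      2 * ∑ q ∈ ((Icc 1 z) ×ˢ (Icc 1 z)).filter (fun q => q.1 % 2 = 1 ∧ q.2 % 2 = 1 ∧
        Nat.Coprime q.1 q.2), 1 / ((q.1 : ℝ) * q.2) := by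
  classical
  set O := (Icc 1 z).filter (fun d => d % 2 = 1) with hO
  set Cc := ((Icc 1 z) ×ˢ (Icc 1 z)).filter (fun q => q.1 % 2 = 1 ∧ q.2 % 2 = 1 ∧
        Nat.Coprime q.1 q.2) with hCc
  have hsq : (∑ d ∈ O, 1 / (d : ℝ)) ^ 2 = ∑ q ∈ O ×ˢ O, 1 / ((q.1 : ℝ) * q.2) := by
    rw [sq, sum_mul_sum, ← sum_product']
    refine sum_congr rfl fun q _ => ?_
    rw [one_div_mul_one_div]
  have hmem : ∀ q ∈ O ×ˢ O, 1 ≤ q.1 ∧ q.1 ≤ z ∧ q.1 % 2 = 1 ∧ 1 ≤ q.2 ∧ q.2 ≤ z ∧ q.2 % 2 = 1 := by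
    intro q hq
    rw [mem_product, hO, mem_filter, mem_filter, mem_Icc, mem_Icc] at hq
    omega
  have hg : ∀ q ∈ O ×ˢ O, 0 < Nat.gcd q.1 q.2 := fun q hq =>
    Nat.gcd_pos_of_pos_left _ (hmem q hq).1
  have hF : ∀ q ∈ O ×ˢ O, 1 / ((q.1 : ℝ) * q.2) =
      (fun y : ℕ × (ℕ × ℕ) => 1 / (y.1 : ℝ) ^ 2 * (1 / ((y.2.1 : ℝ) * y.2.2)))
        ((Nat.gcd q.1 q.2, (q.1 / Nat.gcd q.1 q.2, q.2 / Nat.gcd q.1 q.2))) := by
    intro q hq
    simp only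
    have h0 := hg q hq
    have h1 : ((q.1 / Nat.gcd q.1 q.2 : ℕ) : ℝ) = (q.1 : ℝ) / (Nat.gcd q.1 q.2 : ℝ) :=
      Nat.cast_div (Nat.gcd_dvd_left _ _) (by exact_mod_cast h0.ne')
    have h2 : ((q.2 / Nat.gcd q.1 q.2 : ℕ) : ℝ) = (q.2 : ℝ) / (Nat.gcd q.1 q.2 : ℝ) :=
      Nat.cast_div (Nat.gcd_dvd_right _ _) (by exact_mod_cast h0.ne')
    rw [h1, h2]
    have h3 : (Nat.gcd q.1 q.2 : ℝ) ≠ 0 := by exact_mod_cast h0.ne'
    field_simp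
  have hinj : Set.InjOn (fun q : ℕ × ℕ => ((Nat.gcd q.1 q.2, (q.1 / Nat.gcd q.1 q.2, q.2 / Nat.gcd q.1 q.2)) :
      ℕ × (ℕ × ℕ))) (O ×ˢ O : Finset (ℕ × ℕ)) := by
    intro q _ r _ hqr
    simp only [Prod.mk.injEq] at hqr
    obtain ⟨e1, e2, e3⟩ := hqr
    have a1 := Nat.div_mul_cancel (Nat.gcd_dvd_left q.1 q.2)
    have a2 := Nat.div_mul_cancel (Nat.gcd_dvd_right q.1 q.2)
    have b1 := Nat.div_mul_cancel (Nat.gcd_dvd_left r.1 r.2)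
    have b2 := Nat.div_mul_cancel (Nat.gcd_dvd_right r.1 r.2)
    refine Prod.ext ?_ ?_
    · rw [← a1, ← b1, e2, e1]
    · rw [← a2, ← b2, e3, e1]
  rw [hsq, sum_congr rfl hF, ← sum_image (f := fun y : ℕ × (ℕ × ℕ) =>
    1 / (y.1 : ℝ) ^ 2 * (1 / ((y.2.1 : ℝ) * y.2.2))) hinj]
  calc ∑ y ∈ (O ×ˢ O).image (fun q : ℕ × ℕ => ((Nat.gcd q.1 q.2, (q.1 / Nat.gcd q.1 q.2,
        q.2 / Nat.gcd q.1 q.2)) : ℕ × (ℕ × ℕ))), 1 / (y.1 : ℝ) ^ 2 * (1 / ((y.2.1 : ℝ) * y.2.2))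
      ≤ ∑ y ∈ (Icc 1 z) ×ˢ Cc, 1 / (y.1 : ℝ) ^ 2 * (1 / ((y.2.1 : ℝ) * y.2.2)) := by
        refine sum_le_sum_of_subset_of_nonneg ?_ fun _ _ _ => by positivity
        intro y hy
        obtain ⟨q, hq, rfl⟩ := mem_image.mp hy
        obtain ⟨c1, c2, c3, c4, c5, c6⟩ := hmem q hq
        have h0 := hg q hq
        have d1 := Nat.gcd_dvd_left q.1 q.2
        have d2 := Nat.gcd_dvd_right q.1 q.2
        have k1 : q.1 / Nat.gcd q.1 q.2 ∣ q.1 := Nat.div_dvd_of_dvd d1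
        have k2 : q.2 / Nat.gcd q.1 q.2 ∣ q.2 := Nat.div_dvd_of_dvd d2
        rw [mem_product, hCc, mem_filter, mem_product, mem_Icc, mem_Icc, mem_Icc]
        refine ⟨⟨h0, (Nat.le_of_dvd (by omega) d1).trans c2⟩, ⟨⟨?_, ?_⟩, ?_, ?_⟩, ?_, ?_, ?_⟩
        · exact Nat.div_pos (Nat.le_of_dvd (by omega) d1) h0
        · exact (Nat.div_le_self _ _).trans c2
        · exact Nat.div_pos (Nat.le_of_dvd (by omega) d2) h0
        · exact (Nat.div_le_self _ _).trans c5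
        · exact Nat.odd_iff.mp (Odd.of_dvd_nat (Nat.odd_iff.mpr c3) k1)
        · exact Nat.odd_iff.mp (Odd.of_dvd_nat (Nat.odd_iff.mpr c6) k2)
        · exact Nat.coprime_div_gcd_div_gcd h0
    _ = (∑ g ∈ Icc 1 z, 1 / (g : ℝ) ^ 2) * ∑ q ∈ Cc, 1 / ((q.1 : ℝ) * q.2) := by
        rw [sum_mul_sum, ← sum_product']
    _ ≤ 2 * ∑ q ∈ Cc, 1 / ((q.1 : ℝ) * q.2) :=
        mul_le_mul_of_nonneg_right (lb_sq' z) (sum_nonneg fun _ _ => by positivity)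

theorem low_b : ∃ c : ℝ, 0 < c ∧ ∃ R₀ : ℕ, ∀ R : ℕ, R₀ ≤ R →
    c * Real.log R ^ 2 ≤
      ∑ q ∈ ((Icc 1 R) ×ˢ (Icc 1 R)).filter (fun q => q.1 % 2 = 1 ∧ q.2 % 2 = 1 ∧
        Nat.Coprime q.1 q.2 ∧ 4 * (q.1 * q.2) ≤ R), 1 / ((q.1 : ℝ) * q.2) := by
  refine ⟨1 / 128, by norm_num, 16, fun R hR => ?_⟩
  set z := Nat.sqrt (R / 4) with hz
  have hR' : (16 : ℝ) ≤ R := by exact_mod_cast hR
  have hz1 : z * z ≤ R / 4 := Nat.sqrt_le _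
  have hz2 : R / 4 < (z + 1) * (z + 1) := Nat.lt_succ_sqrt _
  have hz3 : (R : ℝ) / 4 ≤ ((z : ℝ) + 1) ^ 2 := by
    have h1 : R < 4 * ((z + 1) * (z + 1)) := by omega
    have h2 : (R : ℝ) < 4 * (((z : ℝ) + 1) * ((z : ℝ) + 1)) := by exact_mod_cast h1
    nlinarith
  have hlog : Real.log R / 4 ≤ Real.log ((z : ℝ) + 1) := by
    have h1 : Real.log (R / 4) ≤ Real.log (((z : ℝ) + 1) ^ 2) :=
      Real.log_le_log (by linarith) hz3
    rw [Real.log_div (by linarith) (by norm_num), Real.log_pow] at h1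
    have h2 : Real.log 16 ≤ Real.log R := Real.log_le_log (by norm_num) hR'
    have h3 : Real.log 16 = 2 * Real.log 4 := by
      rw [show (16 : ℝ) = 4 ^ 2 by norm_num, Real.log_pow]
      norm_num
    push_cast at h1
    linarith
  have hlR : 0 ≤ Real.log R := Real.log_nonneg (by linarith)
  have h1 := lb_odd z
  have h2 := lb_pairs z
  have h3 : ∑ q ∈ ((Icc 1 z) ×ˢ (Icc 1 z)).filter (fun q => q.1 % 2 = 1 ∧ q.2 % 2 = 1 ∧
        Nat.Coprime q.1 q.2), 1 / ((q.1 : ℝ) * q.2) ≤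
      ∑ q ∈ ((Icc 1 R) ×ˢ (Icc 1 R)).filter (fun q => q.1 % 2 = 1 ∧ q.2 % 2 = 1 ∧
        Nat.Coprime q.1 q.2 ∧ 4 * (q.1 * q.2) ≤ R), 1 / ((q.1 : ℝ) * q.2) := by
    refine sum_le_sum_of_subset_of_nonneg ?_ fun _ _ _ => by positivity
    intro q hq
    rw [mem_filter, mem_product, mem_Icc, mem_Icc] at hq ⊢
    obtain ⟨⟨⟨a1, a2⟩, a3, a4⟩, a5, a6, a7⟩ := hq
    have hmul : q.1 * q.2 ≤ z * z := Nat.mul_le_mul a2 a4
    have hzR : z ≤ R := by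
      have : z ≤ z * z := Nat.le_mul_self z
      omega
    exact ⟨⟨⟨a1, a2.trans hzR⟩, a3, a4.trans hzR⟩, a5, a6, a7, by omega⟩
  have h4 : Real.log R / 8 ≤ ∑ d ∈ (Icc 1 z).filter (fun d => d % 2 = 1), 1 / (d : ℝ) := by linarith
  have h5 : (Real.log R / 8) ^ 2 ≤ (∑ d ∈ (Icc 1 z).filter (fun d => d % 2 = 1), 1 / (d : ℝ)) ^ 2 :=
    pow_le_pow_left₀ (by positivity) h4 2
  nlinarith

end Pool.Agent.DPT
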