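import Mathlib

/-!
DPT-Quad. A triple `{a, c, b}` with largest element `b` which is not regular comes from a smaller triple `{a, c, e}`.

PLAN. `ac + 1 = w²`, `ab + 1 = r²`, `bc + 1 = t²`; `e := a + c + b + 2abc - 2wrt` (an integer), `f := a + c + b + 2abc + 2wrt`.
`a e + 1 = (w r - a t)²`, `c e + 1 = (w t - c r)²`, `b e + 1 = (r t - b w)²`, `a + c - b - e = 2 w (r t - b w)`, and
`e f = (b - a - c)² - 4ac - 4 = (c - a - b)² - 4ab - 4`. `e ≥ 0`: otherwise `a e + 1 ≥ 0`, `c e + 1 ≥ 0` force `e = -1`,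
`a = c = 1`, but then `ac + 1 = 2` is not a square. `e ≠ 0`: else `(c - a - b)² = 4 r²`, so `c = a + b - 2r`
(excluded) or `c = a + b + 2r > b`. `4 a c e ≤ b`: `f ≥ 4abc` (`w r t ≥ abc`) and `e f ≤ b²` (`|b - a - c| < b`).
-/

set_option autoImplicit false

namespace Pool.Agent.DPT

private theorem quad_sq {m : ℕ} {z : ℤ} (h : (m : ℤ) = z ^ 2) : IsSquare m := by
  refine ⟨z.natAbs, ?_⟩
  have h1 : ((z.natAbs * z.natAbs : ℕ) : ℤ) = z ^ 2 := by
    rw [Nat.cast_mul, sq, Int.natAbs_mul_self']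
  have h2 : (m : ℤ) = ((z.natAbs * z.natAbs : ℕ) : ℤ) := by rw [h1, h]
  exact_mod_cast h2

private theorem quad_two {w : ℤ} (h : w ^ 2 = 2) : False := by
  have h1 : w.natAbs ^ 2 = 2 := by
    have h2 : ((w.natAbs ^ 2 : ℕ) : ℤ) = 2 := by
      rw [Nat.cast_pow, Int.natAbs_pow_two, h]
    exact_mod_cast h2
  have h3 : w.natAbs < 2 := by
    by_contra hc
    have h4 : 2 ≤ w.natAbs := by omega
    have h5 : 2 ^ 2 ≤ w.natAbs ^ 2 := Nat.pow_le_pow_left h4 2
    omega
  interval_cases w.natAbs <;> omega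

private theorem quad_int {a b c r w t : ℤ} (ha : 0 < a) (hc : 0 < c) (hab : a < b) (hcb : c < b)
    (hr0 : 0 ≤ r) (hw0 : 0 ≤ w) (ht0 : 0 ≤ t)
    (hr : a * b + 1 = r ^ 2) (hw : a * c + 1 = w ^ 2) (ht : b * c + 1 = t ^ 2)
    (hne : c + 2 * r ≠ a + b) :
    ∃ e : ℤ, 0 < e ∧ a * e + 1 = (w * r - a * t) ^ 2 ∧ c * e + 1 = (w * t - c * r) ^ 2 ∧
      4 * a * c * e ≤ b ∧ (a + c - b - e) ^ 2 = 4 * (a * c + 1) * (b * e + 1) := by
  have hb : 0 < b := ha.trans hab
  obtain ⟨e, he⟩ : ∃ e, e = a + c + b + 2 * a * b * c - 2 * (w * r * t) := ⟨_, rfl⟩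
  obtain ⟨f, hf⟩ : ∃ f, f = a + c + b + 2 * a * b * c + 2 * (w * r * t) := ⟨_, rfl⟩
  have h1 : a * e + 1 = (w * r - a * t) ^ 2 := by
    have h : (w * r - a * t) ^ 2 = w ^ 2 * r ^ 2 - 2 * a * (w * r * t) + a ^ 2 * t ^ 2 := by ring
    rw [h, ← hr, ← hw, ← ht, he]
    ring
  have h2 : c * e + 1 = (w * t - c * r) ^ 2 := by
    have h : (w * t - c * r) ^ 2 = w ^ 2 * t ^ 2 - 2 * c * (w * r * t) + c ^ 2 * r ^ 2 := by ring
    rw [h, ← hr, ← hw, ← ht, he]
    ring
  have h3 : b * e + 1 = (r * t - b * w) ^ 2 := by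
    have h : (r * t - b * w) ^ 2 = r ^ 2 * t ^ 2 - 2 * b * (w * r * t) + b ^ 2 * w ^ 2 := by ring
    rw [h, ← hr, ← hw, ← ht, he]
    ring
  have h4 : (a + c - b - e) ^ 2 = 4 * (a * c + 1) * (b * e + 1) := by
    have h : a + c - b - e = 2 * (w * (r * t - b * w)) := by
      have h' : 2 * (w * (r * t - b * w)) = 2 * (w * r * t) - 2 * b * w ^ 2 := by ring
      rw [h', ← hw, he]
      ring
    rw [h, h3, hw]
    ring
  have hP : (w * r * t) ^ 2 = (a * c + 1) * (a * b + 1) * (b * c + 1) := by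
    rw [hr, hw, ht]
    ring
  have h5 : e * f = (c - a - b) ^ 2 - 4 * r ^ 2 := by
    have h : e * f = (a + c + b + 2 * a * b * c) ^ 2 - 4 * (w * r * t) ^ 2 := by
      rw [he, hf]
      ring
    rw [h, hP, ← hr]
    ring
  have h6 : e * f = (b - a - c) ^ 2 - 4 * (a * c) - 4 := by
    rw [h5, ← hr]
    ring
  have hwrt : 0 ≤ w * r * t := mul_nonneg (mul_nonneg hw0 hr0) ht0
  have habc : 0 < a * b * c := mul_pos (mul_pos ha hb) hc
  have h7 : a * b * c ≤ w * r * t := by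
    refine le_of_sq_le_sq ?_ hwrt
    rw [hP]
    have h : (a * c + 1) * (a * b + 1) * (b * c + 1) - (a * b * c) ^ 2 =
      a * c * (a * b) + (a * c) * (b * c) + (a * b) * (b * c) + a * c + a * b + b * c + 1 := by ring
    have hac : 0 < a * c := mul_pos ha hc
    have hab' : 0 < a * b := mul_pos ha hb
    have hbc : 0 < b * c := mul_pos hb hc
    have h' : 0 < a * c * (a * b) + (a * c) * (b * c) + (a * b) * (b * c) + a * c + a * b + b * c + 1 := by
      positivity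
    linarith
  have h8 : 4 * (a * b * c) ≤ f := by
    rw [hf]
    have h : 2 * a * b * c = 2 * (a * b * c) := by ring
    rw [h]
    linarith
  -- `e` is nonnegative
  have h9 : 0 ≤ e := by
    by_contra hneg
    have he1 : e ≤ -1 := by linarith [Int.not_le.1 hneg, Int.add_one_le_iff.2 (Int.not_le.1 hneg)]
    have hae : 0 ≤ a * e + 1 := by rw [h1]; exact sq_nonneg _
    have hce : 0 ≤ c * e + 1 := by rw [h2]; exact sq_nonneg _
    have ha1 : a = 1 := by
      by_contra hne1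
      have : 2 ≤ a := by omega
      nlinarith
    have hc1 : c = 1 := by
      by_contra hne1
      have : 2 ≤ c := by omega
      nlinarith
    rw [ha1, hc1] at hw
    exact quad_two (w := w) (by linarith)
  have h10 : e ≠ 0 := by
    intro h0
    rw [h0, zero_mul] at h5
    have h : (c - a - b - 2 * r) * (c - a - b + 2 * r) = 0 := by
      have h' : (c - a - b - 2 * r) * (c - a - b + 2 * r) = (c - a - b) ^ 2 - 4 * r ^ 2 := by ring
      rw [h', ← h5]
    rcases mul_eq_zero.1 h with h | h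
    · linarith
    · exact hne (by linarith)
  have h11 : 0 < e := lt_of_le_of_ne h9 h10.symm
  refine ⟨e, h11, h1, h2, ?_, h4⟩
  have h12 : e * f ≤ b ^ 2 := by
    rw [h6]
    have hac : 0 < a * c := mul_pos ha hc
    have h : b ^ 2 - (b - a - c) ^ 2 = (a + c) * (2 * b - (a + c)) := by ring
    have h' : 0 ≤ (a + c) * (2 * b - (a + c)) := mul_nonneg (by linarith) (by linarith)
    linarith
  have h13 : e * (4 * (a * b * c)) ≤ b ^ 2 := (mul_le_mul_of_nonneg_left h8 h9).trans h12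
  have h14 : b * (4 * a * c * e) ≤ b * b := by
    have h : b * (4 * a * c * e) = e * (4 * (a * b * c)) := by ring
    rw [h, ← sq]
    exact h13
  exact le_of_mul_le_mul_left h14 hb

theorem quad {a b c r : ℕ} (ha : 0 < a) (hc : 0 < c) (hab : a < b) (hcb : c < b)
    (hr : a * b + 1 = r ^ 2) (hac : IsSquare (a * c + 1)) (hbc : IsSquare (b * c + 1))
    (hne : c + 2 * r ≠ a + b) :
    ∃ e : ℕ, 0 < e ∧ IsSquare (a * e + 1) ∧ IsSquare (c * e + 1) ∧ 4 * a * c * e ≤ b ∧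
      ((a : ℤ) + c - b - e) ^ 2 = 4 * (a * c + 1) * (b * e + 1) := by
  obtain ⟨w, hw⟩ := hac
  obtain ⟨t, ht⟩ := hbc
  obtain ⟨e, h0, h1, h2, h3, h4⟩ := quad_int (a := a) (b := b) (c := c) (r := r) (w := w) (t := t)
    (by exact_mod_cast ha) (by exact_mod_cast hc) (by exact_mod_cast hab) (by exact_mod_cast hcb)
    (Int.natCast_nonneg _) (Int.natCast_nonneg _) (Int.natCast_nonneg _) (by exact_mod_cast hr)
    (by rw [sq]; exact_mod_cast hw) (by rw [sq]; exact_mod_cast ht) (by exact_mod_cast hne)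
  obtain ⟨m, rfl⟩ := Int.eq_ofNat_of_zero_le h0.le
  refine ⟨m, by exact_mod_cast h0, quad_sq (z := (w : ℤ) * r - a * t) ?_,
    quad_sq (z := (w : ℤ) * t - c * r) ?_, by exact_mod_cast h3, h4⟩
  · push_cast
    exact h1
  · push_cast
    exact h2

end Pool.Agent.DPT
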