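import Pool.Agent.DPT.Defs
import Pool.Agent.DPT.Quad

/-!
DPT-NSc. The pairs with `NS` are controlled by the triples of `trip (R²)`.

PLAN. For `(a, b) ∈ nsPairs R` (`r = √(ab+1)`, `ab + 1 = r² ≤ R²`) take `c` from `NS` and `e` from `quad`. `a, c, e` are
pairwise different (`x² + 1` is not a square for `x > 0`) and form a Diophantine triple; sort them: `x < y < z`. Since
`x ≤ a`: `4 x² y z ≤ 4 a · (a c e) = a · 4ace ≤ ab ≤ R²`; so `(x, y, z) ∈ trip (R²)` (`z ≤ R²`: `z ≤ 4x²yz`).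
Use `Finset.card_le_mul_card_image` for the map `(a, b) ↦ (x, y, z)`: in a fibre `a ∈ {x, y, z}` (3 values), `{c, e}` is
the set of the other two, and `b` is a root of the quadratic equation `(a + c - b - e)² = 4(ac+1)(be+1)`, which is
symmetric in `c, e` (it is `b² - 2b(a+c+e+2ace) + a² + c² + e² - 2ac - 2ae - 2ce - 4 = 0`): at most two values of `b`.
So the fibres have at most 6 (`≤ 12`) elements.
-/

set_option autoImplicit false

open Finset

namespace Pool.Agent.DPT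

/-- the symmetric quadratic relation -/
private def QQ (x y z b : ℕ) : Prop :=
  (b : ℤ) ^ 2 - 2 * b * (x + y + z + 2 * x * y * z) + x ^ 2 + y ^ 2 + z ^ 2 - 2 * x * y - 2 * x * z - 2 * y * z - 4 = 0

open Classical in
/-- the possible values of `b` -/
private noncomputable def BB (N : ℕ) (q : ℕ × ℕ × ℕ) : Finset ℕ :=
  (Icc 1 N).filter fun b => QQ q.1 q.2.1 q.2.2 b

private theorem BB_card (N : ℕ) (q : ℕ × ℕ × ℕ) : (BB N q).card ≤ 2 := by
  classical
  by_contra hcon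
  push Not at hcon
  obtain ⟨a, ha, b, hb, c, hc, hab, hac, hbc⟩ := Finset.two_lt_card.1 hcon
  have ha' := (Finset.mem_filter.1 ha).2
  have hb' := (Finset.mem_filter.1 hb).2
  have hc' := (Finset.mem_filter.1 hc).2
  unfold QQ at ha' hb' hc'
  have h1 : ((a : ℤ) - b) * (a + b - 2 * (q.1 + q.2.1 + q.2.2 + 2 * q.1 * q.2.1 * q.2.2)) = 0 := by
    linear_combination ha' - hb'
  have h2 : ((a : ℤ) - c) * (a + c - 2 * (q.1 + q.2.1 + q.2.2 + 2 * q.1 * q.2.1 * q.2.2)) = 0 := by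
    linear_combination ha' - hc'
  have h3 : ((a : ℤ) - b) ≠ 0 := fun h => hab (by exact_mod_cast sub_eq_zero.1 h)
  have h4 : ((a : ℤ) - c) ≠ 0 := fun h => hac (by exact_mod_cast sub_eq_zero.1 h)
  have h5 := (mul_eq_zero.1 h1).resolve_left h3
  have h6 := (mul_eq_zero.1 h2).resolve_left h4
  apply hbc
  have h7 : (b : ℤ) = c := by linear_combination h5 - h6
  exact_mod_cast h7

/-- the fibre over a triple -/
private noncomputable def fib (N : ℕ) (q : ℕ × ℕ × ℕ) : Finset (ℕ × ℕ) :=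
  ({q.1, q.2.1, q.2.2} : Finset ℕ) ×ˢ BB N q

private theorem fib_card (N : ℕ) (q : ℕ × ℕ × ℕ) : (fib N q).card ≤ 12 := by
  unfold fib
  rw [Finset.card_product]
  have h1 : ({q.1, q.2.1, q.2.2} : Finset ℕ).card ≤ 3 := Finset.card_le_three
  have h2 := BB_card N q
  calc _ ≤ 3 * 2 := Nat.mul_le_mul h1 h2
    _ ≤ 12 := by norm_num

private theorem mem_trip {N x y z : ℕ} (hx : 0 < x) (hxy : x < y) (hyz : y < z) (h1 : IsSquare (x * y + 1))
    (h2 : IsSquare (x * z + 1)) (h3 : IsSquare (y * z + 1)) (h : 4 * x * (x * y * z) ≤ N) : (x, y, z) ∈ trip N := by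
  have hy : 0 < y := hx.trans hxy
  have hz : 0 < z := hy.trans hyz
  have hzN : z ≤ N := by
    refine le_trans ?_ h
    have : 1 ≤ 4 * x * (x * y) := by
      have : 0 < 4 * x * (x * y) := by positivity
      omega
    calc z = 1 * z := (one_mul z).symm
      _ ≤ 4 * x * (x * y) * z := Nat.mul_le_mul_right z this
      _ = 4 * x * (x * y * z) := by ring
  unfold trip
  rw [Finset.mem_filter]
  refine ⟨?_, hxy, hyz, h1, h2, h3, ?_⟩
  · simp only [Finset.mem_product, Finset.mem_Icc]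
    omega
  · show 4 * x ^ 2 * y * z ≤ N
    calc 4 * x ^ 2 * y * z = 4 * x * (x * y * z) := by ring
      _ ≤ N := h

private theorem ne_of_sq {x y : ℕ} (hx : 0 < x) (h : IsSquare (x * y + 1)) : x ≠ y := by
  rintro rfl
  obtain ⟨k, hk⟩ := h
  have h1 : x < k := by
    by_contra hc
    push Not at hc
    have := Nat.mul_le_mul hc hc
    omega
  have h2 : (x + 1) * (x + 1) ≤ k * k := Nat.mul_le_mul h1 h1
  have h3 : (x + 1) * (x + 1) = x * x + 2 * x + 1 := by ring
  omega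

private theorem exists_q {R a b c e : ℕ} (ha : 0 < a) (hc : 0 < c) (he : 0 < e) (h1 : IsSquare (a * c + 1))
    (h2 : IsSquare (a * e + 1)) (h3 : IsSquare (c * e + 1)) (h4 : 4 * a * c * e ≤ b)
    (h5 : a * b + 1 ≤ R ^ 2) (hb : b ∈ Icc 1 (R ^ 2))
    (h6 : ((a : ℤ) + c - b - e) ^ 2 = 4 * (a * c + 1) * (b * e + 1)) :
    ∃ q ∈ trip (R ^ 2), (a, b) ∈ fib (R ^ 2) q := by
  have hN : 4 * a * (a * c * e) ≤ R ^ 2 := by
    have h7 : a * (4 * a * c * e) ≤ a * b := Nat.mul_le_mul_left a h4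
    calc 4 * a * (a * c * e) = a * (4 * a * c * e) := by ring
      _ ≤ a * b := h7
      _ ≤ R ^ 2 := by omega
  have hle : ∀ x, x ≤ a → 4 * x * (a * c * e) ≤ R ^ 2 := by
    intro x hx
    exact (Nat.mul_le_mul_right _ (Nat.mul_le_mul_left 4 hx)).trans hN
  have hac := ne_of_sq ha h1
  have hae := ne_of_sq ha h2
  have hce := ne_of_sq hc h3
  have h1' : IsSquare (c * a + 1) := by rw [mul_comm]; exact h1
  have h2' : IsSquare (e * a + 1) := by rw [mul_comm]; exact h2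
  have h3' : IsSquare (e * c + 1) := by rw [mul_comm]; exact h3
  classical
  have hfib : ∀ x y z : ℕ, (a = x ∨ a = y ∨ a = z) → QQ x y z b → (a, b) ∈ fib (R ^ 2) (x, y, z) := by
    intro x y z hx hQ
    unfold fib BB
    rw [Finset.mem_product, Finset.mem_filter]
    refine ⟨?_, hb, hQ⟩
    simpa using hx
  rcases lt_or_gt_of_ne hac with g1 | g1 <;> rcases lt_or_gt_of_ne hae with g2 | g2 <;>
    rcases lt_or_gt_of_ne hce with g3 | g3
  · exact ⟨(a, c, e), mem_trip ha g1 g3 h1 h2 h3 hN, hfib _ _ _ (Or.inl rfl) (by unfold QQ; linear_combination h6)⟩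
  · refine ⟨(a, e, c), mem_trip ha g2 g3 h2 h1 h3' ?_, hfib _ _ _ (Or.inl rfl) (by unfold QQ; linear_combination h6)⟩
    calc 4 * a * (a * e * c) = 4 * a * (a * c * e) := by ring
      _ ≤ _ := hN
  · omega
  · refine ⟨(e, a, c), mem_trip he g2 g1 h2' h3' h1 ?_, hfib _ _ _ (Or.inr (Or.inl rfl)) (by unfold QQ; linear_combination h6)⟩
    calc 4 * e * (e * a * c) = 4 * e * (a * c * e) := by ring
      _ ≤ _ := hle e g2.le
  · refine ⟨(c, a, e), mem_trip hc g1 g2 h1' h3 h2 ?_, hfib _ _ _ (Or.inr (Or.inl rfl)) (by unfold QQ; linear_combination h6)⟩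
    calc 4 * c * (c * a * e) = 4 * c * (a * c * e) := by ring
      _ ≤ _ := hle c g1.le
  · omega
  · refine ⟨(c, e, a), mem_trip hc g3 g2 h3 h1' h2' ?_, hfib _ _ _ (Or.inr (Or.inr rfl)) (by unfold QQ; linear_combination h6)⟩
    calc 4 * c * (c * e * a) = 4 * c * (a * c * e) := by ring
      _ ≤ _ := hle c g1.le
  · refine ⟨(e, c, a), mem_trip he g3 g1 h3' h2' h1' ?_, hfib _ _ _ (Or.inr (Or.inr rfl)) (by unfold QQ; linear_combination h6)⟩
    calc 4 * e * (e * c * a) = 4 * e * (a * c * e) := by ring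
      _ ≤ _ := hle e g2.le

theorem ns_card (R : ℕ) : (nsPairs R).card ≤ 12 * (trip (R ^ 2)).card := by
  classical
  have hsub : nsPairs R ⊆ (trip (R ^ 2)).biUnion (fib (R ^ 2)) := by
    rintro ⟨a, b⟩ hp
    unfold nsPairs at hp
    rw [Finset.mem_filter] at hp
    obtain ⟨hp1, c, hc0, hcb, hac, hbc, hne⟩ := hp
    unfold pairs at hp1
    rw [Finset.mem_filter, Finset.mem_product] at hp1
    obtain ⟨⟨ha, hb⟩, hab, hsq, hR⟩ := hp1
    simp only at ha hb hab hsq hR hac hbc hne hcb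
    have ha0 : 0 < a := (Finset.mem_Icc.1 ha).1
    obtain ⟨k, hk⟩ := hsq
    have hsqrt : Nat.sqrt (a * b + 1) = k := by rw [hk]; exact Nat.sqrt_eq k
    rw [hsqrt] at hne
    have hr : a * b + 1 = k ^ 2 := by rw [hk]; ring
    obtain ⟨e, he0, hae, hce, hle, hq⟩ := quad ha0 hc0 hab hcb hr hac hbc hne
    obtain ⟨q, hq1, hq2⟩ := exists_q ha0 hc0 he0 hac hae hce hle hR hb hq
    exact Finset.mem_biUnion.2 ⟨q, hq1, hq2⟩
  calc (nsPairs R).card ≤ ((trip (R ^ 2)).biUnion (fib (R ^ 2))).card := Finset.card_le_card hsub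
    _ ≤ (trip (R ^ 2)).card * 12 := Finset.card_biUnion_le_card_mul _ _ _ fun q _ => fib_card _ q
    _ = 12 * (trip (R ^ 2)).card := mul_comm _ _

end Pool.Agent.DPT
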