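import Pool.Agent.DPT.Defs
import Pool.Agent.Helper51.Tors.FromTorsion

/-!
DPT-Seven. If `7 ∣ r`, `ab + 1 = r²` and `a` is not `±1` modulo `7`, then no `c` (of whatever kind) gives
torsion `ℤ/2 × ℤ/6`.

PLAN. `data_of_torsion` gives integers `u v w d` with `Data a b c u v w d` and `IsCoprime u v`. Reduce everything
modulo `7`: `ab = -1`, `ac + 1` and `bc + 1` are squares in `ZMod 7`, `(u, v) ≠ (0, 0)`, and the three
identities of `Data`. The statement about `ZMod 7` (for all `a b c s t u v d : ZMod 7`; better: for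
all `a ∉ {0, 1, 6}`, `b = -a⁻¹`, and `c` one gets `c = 0` or `c = a + b` from the two squares alone) is a
finite check by `decide` (split it into two or three small statements so that `decide` is fast: 1. the
possible `c`; 2. for these `(a, b, c)` no `(u, v, d)` with `(u, v) ≠ (0, 0)`).
-/

set_option autoImplicit false

namespace Pool.Agent.DPT

open Pool.Agent.Helper51.Tors

private theorem sv_ab : ∀ a b : ZMod 7, a * b + 1 = 0 → a ≠ 1 → a ≠ 6 →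
    (a = 2 ∧ b = 3) ∨ (a = 3 ∧ b = 2) ∨ (a = 4 ∧ b = 5) ∨ (a = 5 ∧ b = 4) := by
  decide

private theorem sv_c1 : ∀ c : ZMod 7, (∃ s, 2 * c + 1 = s * s) → (∃ t, 3 * c + 1 = t * t) →
    c = 0 ∨ c = 5 := by
  decide

private theorem sv_c2 : ∀ c : ZMod 7, (∃ s, 4 * c + 1 = s * s) → (∃ t, 5 * c + 1 = t * t) →
    c = 0 ∨ c = 2 := by
  decide

private theorem sv_1 : ∀ u v d : ZMod 7, 2 * (0 - 3) = d ^ 2 * (u ^ 3 * (v - -(u + v))) →
    3 * (2 - 0) = d ^ 2 * (v ^ 3 * (-(u + v) - u)) → False := by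
  decide

private theorem sv_2 : ∀ u v d : ZMod 7, 3 * (0 - 2) = d ^ 2 * (u ^ 3 * (v - -(u + v))) →
    2 * (3 - 0) = d ^ 2 * (v ^ 3 * (-(u + v) - u)) → False := by
  decide

private theorem sv_3 : ∀ u v d : ZMod 7, 2 * (5 - 3) = d ^ 2 * (u ^ 3 * (v - -(u + v))) →
    3 * (2 - 5) = d ^ 2 * (v ^ 3 * (-(u + v) - u)) → False := by
  decide

private theorem sv_4 : ∀ u v d : ZMod 7, 3 * (5 - 2) = d ^ 2 * (u ^ 3 * (v - -(u + v))) →
    2 * (3 - 5) = d ^ 2 * (v ^ 3 * (-(u + v) - u)) → False := by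
  decide

private theorem sv_5 : ∀ u v d : ZMod 7, 4 * (0 - 5) = d ^ 2 * (u ^ 3 * (v - -(u + v))) →
    5 * (4 - 0) = d ^ 2 * (v ^ 3 * (-(u + v) - u)) → False := by
  decide

private theorem sv_6 : ∀ u v d : ZMod 7, 5 * (0 - 4) = d ^ 2 * (u ^ 3 * (v - -(u + v))) →
    4 * (5 - 0) = d ^ 2 * (v ^ 3 * (-(u + v) - u)) → False := by
  decide

private theorem sv_7 : ∀ u v d : ZMod 7, 4 * (2 - 5) = d ^ 2 * (u ^ 3 * (v - -(u + v))) →
    5 * (4 - 2) = d ^ 2 * (v ^ 3 * (-(u + v) - u)) → False := by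
  decide

private theorem sv_8 : ∀ u v d : ZMod 7, 5 * (2 - 4) = d ^ 2 * (u ^ 3 * (v - -(u + v))) →
    4 * (5 - 2) = d ^ 2 * (v ^ 3 * (-(u + v) - u)) → False := by
  decide

private theorem sv_all {a b c u v d : ZMod 7} (hab : a * b + 1 = 0) (h1 : a ≠ 1) (h6 : a ≠ 6)
    (hs : ∃ s, a * c + 1 = s * s) (ht : ∃ t, b * c + 1 = t * t)
    (g1 : a * (c - b) = d ^ 2 * (u ^ 3 * (v - -(u + v))))
    (g2 : b * (a - c) = d ^ 2 * (v ^ 3 * (-(u + v) - u))) : False := by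
  rcases sv_ab a b hab h1 h6 with ⟨rfl, rfl⟩ | ⟨rfl, rfl⟩ | ⟨rfl, rfl⟩ | ⟨rfl, rfl⟩
  · rcases sv_c1 c hs ht with rfl | rfl
    · exact sv_1 u v d g1 g2
    · exact sv_3 u v d g1 g2
  · rcases sv_c1 c ht hs with rfl | rfl
    · exact sv_2 u v d g1 g2
    · exact sv_4 u v d g1 g2
  · rcases sv_c2 c hs ht with rfl | rfl
    · exact sv_5 u v d g1 g2
    · exact sv_7 u v d g1 g2
  · rcases sv_c2 c ht hs with rfl | rfl
    · exact sv_6 u v d g1 g2
    · exact sv_8 u v d g1 g2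

theorem seven {a b c r : ℕ} (hr : a * b + 1 = r ^ 2) (h7 : 7 ∣ r) (h1 : a % 7 ≠ 1) (h6 : a % 7 ≠ 6)
    (hac : IsSquare (a * c + 1)) (hbc : IsSquare (b * c + 1)) : ¬ HasTorsion26 a b c := by
  intro h
  obtain ⟨u, v, w, d, hD⟩ := data_of_torsion a b c h
  have hr0 : ((r : ℕ) : ZMod 7) = 0 := (ZMod.natCast_eq_zero_iff r 7).2 h7
  have hab : (a : ZMod 7) * (b : ZMod 7) + 1 = 0 := by
    have h2 := congrArg (Nat.cast : ℕ → ZMod 7) hr
    push_cast at h2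
    rw [h2, hr0]
    rfl
  have ha1 : (a : ZMod 7) ≠ 1 := by
    intro h2
    have h3 : (a : ZMod 7) = ((1 : ℕ) : ZMod 7) := by rw [h2]; rfl
    rw [ZMod.natCast_eq_natCast_iff'] at h3
    exact h1 h3
  have ha6 : (a : ZMod 7) ≠ 6 := by
    intro h2
    have h3 : (a : ZMod 7) = ((6 : ℕ) : ZMod 7) := by rw [h2]; rfl
    rw [ZMod.natCast_eq_natCast_iff'] at h3
    exact h6 h3
  have hs : ∃ s : ZMod 7, (a : ZMod 7) * (c : ZMod 7) + 1 = s * s := by
    obtain ⟨s, hs⟩ := hac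
    have h2 := congrArg (Nat.cast : ℕ → ZMod 7) hs
    push_cast at h2
    exact ⟨(s : ZMod 7), h2⟩
  have ht : ∃ t : ZMod 7, (b : ZMod 7) * (c : ZMod 7) + 1 = t * t := by
    obtain ⟨s, hs⟩ := hbc
    have h2 := congrArg (Nat.cast : ℕ → ZMod 7) hs
    push_cast at h2
    exact ⟨(s : ZMod 7), h2⟩
  have hw : w = -(u + v) := by linarith [hD.hsum]
  have g1 := congrArg (Int.cast : ℤ → ZMod 7) hD.h1
  have g2 := congrArg (Int.cast : ℤ → ZMod 7) hD.h2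
  rw [hw] at g1 g2
  push_cast at g1 g2
  exact sv_all (u := (u : ZMod 7)) (v := (v : ZMod 7)) (d := (d : ZMod 7)) hab ha1 ha6 hs ht g1 g2

end Pool.Agent.DPT
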