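import Mathlib

/-!
DPT-Per. Sums of a periodic function against `1/e`: the first block contributes at most
`∑_{e ≤ Q} 1/e ≤ 1 + log Q`, the block `jQ < e ≤ (j+1)Q`, `j ≥ 1`, at most `(∑_{range Q} f) / (jQ)`.
-/

set_option autoImplicit false

open Finset

namespace Pool.Agent.DPT

private theorem icc_eq (g : ℕ → ℝ) (n : ℕ) : ∑ e ∈ Icc 1 n, g e = ∑ i ∈ range n, g (i + 1) := by
  induction n with
  | zero => simp
  | succ n ih => rw [Finset.sum_Icc_succ_top (by omega), ih, Finset.sum_range_succ]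

private theorem harm_le (n : ℕ) : ∑ i ∈ range n, (1 : ℝ) / ((i : ℝ) + 1) ≤ 1 + Real.log n := by
  have h := harmonic_le_one_add_log n
  have h2 : ((harmonic n : ℚ) : ℝ) = ∑ i ∈ range n, (1 : ℝ) / ((i : ℝ) + 1) := by
    unfold harmonic
    push_cast
    exact Finset.sum_congr rfl fun i _ => by rw [one_div]
  rw [← h2]
  exact h

private theorem shift_one {Q : ℕ} {f : ℕ → ℝ} (hper : ∀ n, f (n + Q) = f n) :
    ∑ i ∈ range Q, f (i + 1) = ∑ i ∈ range Q, f i := by
  have h1 := Finset.sum_range_succ' f Q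
  have h2 := Finset.sum_range_succ f Q
  have h3 := hper 0
  rw [zero_add] at h3
  linarith

private theorem per_mul {Q : ℕ} {f : ℕ → ℝ} (hper : ∀ n, f (n + Q) = f n) (k n : ℕ) :
    f (n + Q * k) = f n := by
  induction k with
  | zero => rw [mul_zero, add_zero]
  | succ k ih => rw [mul_add, mul_one, ← add_assoc, hper, ih]

private theorem blocks {Q : ℕ} (hQ : 0 < Q) {f : ℕ → ℝ} (h0 : ∀ n, 0 ≤ f n) (h1 : ∀ n, f n ≤ 1)
    (hper : ∀ n, f (n + Q) = f n) (J : ℕ) :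
    ∑ i ∈ range (Q * (J + 1)), f (i + 1) / ((i : ℝ) + 1) ≤
      1 + Real.log Q + (∑ e ∈ range Q, f e) / Q * ∑ i ∈ range J, (1 : ℝ) / ((i : ℝ) + 1) := by
  have hQ' : (0 : ℝ) < Q := by exact_mod_cast hQ
  induction J with
  | zero =>
    rw [zero_add, mul_one, Finset.range_zero, Finset.sum_empty, mul_zero, add_zero]
    refine le_trans (Finset.sum_le_sum fun i _ => ?_) (harm_le Q)
    have h2 : (0 : ℝ) < (i : ℝ) + 1 := by positivity
    exact div_le_div_of_nonneg_right (h1 _) h2.le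
  | succ J ih =>
    rw [show Q * (J + 1 + 1) = Q * (J + 1) + Q by ring, Finset.sum_range_add,
      Finset.sum_range_succ (fun i : ℕ => (1 : ℝ) / ((i : ℝ) + 1)) J,
      mul_add ((∑ e ∈ range Q, f e) / (Q : ℝ)), ← add_assoc (1 + Real.log (Q : ℝ))]
    refine add_le_add ih ?_
    have hJ : (0 : ℝ) < (J : ℝ) + 1 := by positivity
    have h3 : ∑ i ∈ range Q, f (Q * (J + 1) + i + 1) / (((Q * (J + 1) + i : ℕ) : ℝ) + 1) ≤
        ∑ i ∈ range Q, f (i + 1) / ((Q : ℝ) * ((J : ℝ) + 1)) := by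
      refine Finset.sum_le_sum fun i _ => ?_
      rw [show Q * (J + 1) + i + 1 = i + 1 + Q * (J + 1) by ring, per_mul hper]
      refine div_le_div_of_nonneg_left (h0 _) (by positivity) ?_
      push_cast
      have : (0 : ℝ) ≤ i := Nat.cast_nonneg _
      linarith
    refine h3.trans (le_of_eq ?_)
    rw [← Finset.sum_div, shift_one hper]
    field_simp

theorem per_sum {Q : ℕ} (hQ : 0 < Q) {f : ℕ → ℝ} (h0 : ∀ n, 0 ≤ f n) (h1 : ∀ n, f n ≤ 1)
    (hper : ∀ n, f (n + Q) = f n) {x : ℕ} (hx : 1 ≤ x) :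
    ∑ e ∈ Icc 1 x, f e / e ≤
      1 + Real.log Q + (∑ e ∈ range Q, f e) / Q * (1 + Real.log x) := by
  have hQ' : (0 : ℝ) < Q := by exact_mod_cast hQ
  rw [icc_eq (fun e => f e / e)]
  have hlt : x < Q * (x / Q + 1) := by
    have := Nat.lt_mul_div_succ x hQ
    exact this
  have h2 : ∑ i ∈ range x, f (i + 1) / (((i + 1 : ℕ) : ℝ)) ≤
      ∑ i ∈ range (Q * (x / Q + 1)), f (i + 1) / ((i : ℝ) + 1) := by
    have h3 : ∑ i ∈ range x, f (i + 1) / (((i + 1 : ℕ) : ℝ)) =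
        ∑ i ∈ range x, f (i + 1) / ((i : ℝ) + 1) :=
      Finset.sum_congr rfl fun i _ => by push_cast; rfl
    rw [h3]
    refine Finset.sum_le_sum_of_subset_of_nonneg (Finset.range_mono hlt.le) fun i _ _ => ?_
    exact div_nonneg (h0 _) (by positivity)
  refine h2.trans ((blocks hQ h0 h1 hper (x / Q)).trans ?_)
  have hS : 0 ≤ (∑ e ∈ range Q, f e) / (Q : ℝ) :=
    div_nonneg (Finset.sum_nonneg fun _ _ => h0 _) hQ'.le
  have hx1 : (1 : ℝ) ≤ x := by exact_mod_cast hx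
  have h4 : ∑ i ∈ range (x / Q), (1 : ℝ) / ((i : ℝ) + 1) ≤ 1 + Real.log x := by
    refine (harm_le (x / Q)).trans ?_
    rcases Nat.eq_zero_or_pos (x / Q) with h | h
    · rw [h, Nat.cast_zero, Real.log_zero]
      linarith [Real.log_nonneg hx1]
    · have h5 : ((x / Q : ℕ) : ℝ) ≤ x := by exact_mod_cast Nat.div_le_self x Q
      have h6 : (0 : ℝ) < ((x / Q : ℕ) : ℝ) := by exact_mod_cast h
      linarith [Real.log_le_log h6 h5]
  linarith [mul_le_mul_of_nonneg_left h4 hS]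

end Pool.Agent.DPT
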