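import Mathlib

/-!
DPT-SumD. An average of a multiplicative function.

PLAN. Expand the product: `∏_{p ∈ F, p ∣ d} (1 + 1/(p-1)) = ∑_{T ⊆ F, ∏ T ∣ d} ∏_{p ∈ T} 1/(p-1)` (distinct primes: all `p ∈ T`
divide `d` iff `∏ T ∣ d`). Exchange the sums: `∑_{d ≤ R, m ∣ d} 1/d ≤ (1 + log R)/m`. The sum is at most
`(1 + log R) ∏_{p ∈ F} (1 + 1/(p(p-1))) ≤ (1 + log R) exp(∑_{p ∈ F} 1/(p(p-1))) ≤ (1 + log R) e`, since
`∑_{n=2}^N 1/(n(n-1)) ≤ 1`.
-/

set_option autoImplicit false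

open Finset

namespace Pool.Agent.DPT

private theorem base_sum {R m : ℕ} (hm : 1 ≤ m) :
    ∑ d ∈ (Icc 1 R).filter (fun d => m ∣ d), (1 / (d : ℝ)) ≤ (1 + Real.log R) / m := by
  have hsub : (Icc 1 R).filter (fun d => m ∣ d) ⊆ (Icc 1 R).image (fun e => m * e) := by
    intro d hd
    rw [mem_filter, mem_Icc] at hd
    obtain ⟨⟨h1, h2⟩, e, rfl⟩ := hd
    refine mem_image.2 ⟨e, mem_Icc.2 ⟨?_, ?_⟩, rfl⟩
    · rcases Nat.eq_zero_or_pos e with he | he
      · subst he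
        simp at h1
      · exact he
    · exact le_trans (Nat.le_mul_of_pos_left e hm) h2
  calc ∑ d ∈ (Icc 1 R).filter (fun d => m ∣ d), (1 / (d : ℝ))
      ≤ ∑ d ∈ (Icc 1 R).image (fun e => m * e), (1 / (d : ℝ)) :=
        sum_le_sum_of_subset_of_nonneg hsub (fun d _ _ => by positivity)
    _ = ∑ e ∈ Icc 1 R, (1 / ((m * e : ℕ) : ℝ)) := by
        rw [sum_image]
        intro x _ y _ hxy
        exact Nat.eq_of_mul_eq_mul_left hm hxy
    _ = (∑ e ∈ Icc 1 R, ((e : ℝ))⁻¹) / m := by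
        rw [sum_div]
        refine sum_congr rfl fun e _ => ?_
        rw [Nat.cast_mul, one_div, mul_inv, div_eq_mul_inv, mul_comm]
    _ ≤ (1 + Real.log R) / m := by
        apply div_le_div_of_nonneg_right _ (Nat.cast_nonneg m)
        have h := harmonic_le_one_add_log R
        rw [harmonic_eq_sum_Icc] at h
        push_cast at h
        exact h

private theorem step_sum {R : ℕ} (F : Finset ℕ) : (∀ p ∈ F, p.Prime) → ∀ m : ℕ, 1 ≤ m →
    (∀ p ∈ F, Nat.Coprime p m) →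
    ∑ d ∈ (Icc 1 R).filter (fun d => m ∣ d),
      (1 / (d : ℝ)) * ∏ p ∈ F.filter (· ∣ d), (1 + 1 / ((p : ℝ) - 1)) ≤
      (1 + Real.log R) / m * ∏ p ∈ F, (1 + 1 / ((p : ℝ) * ((p : ℝ) - 1))) := by
  induction F using Finset.induction_on with
  | empty =>
    intro _ m hm _
    simp only [filter_empty, prod_empty, mul_one]
    exact base_sum hm
  | insert q F hq ih =>
    intro hF m hm hco
    have hqp : q.Prime := hF q (mem_insert_self q F)
    have hFp : ∀ p ∈ F, p.Prime := fun p hp => hF p (mem_insert_of_mem hp)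
    have hq1 : (0 : ℝ) < (q : ℝ) - 1 := by
      have h2 : (2 : ℝ) ≤ q := by exact_mod_cast hqp.two_le
      linarith
    have hq0 : (0 : ℝ) < (q : ℝ) := by exact_mod_cast hqp.pos
    have hm0 : (0 : ℝ) < (m : ℝ) := by exact_mod_cast hm
    have hcq : Nat.Coprime q m := hco q (mem_insert_self q F)
    have key : ∀ d : ℕ, ∏ p ∈ (insert q F).filter (· ∣ d), (1 + 1 / ((p : ℝ) - 1)) =
        ∏ p ∈ F.filter (· ∣ d), (1 + 1 / ((p : ℝ) - 1)) +
          (if q ∣ d then (1 / ((q : ℝ) - 1)) * ∏ p ∈ F.filter (· ∣ d), (1 + 1 / ((p : ℝ) - 1))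
            else 0) := by
      intro d
      by_cases hd : q ∣ d
      · rw [filter_insert, if_pos hd, if_pos hd, prod_insert (fun h => hq (mem_filter.1 h).1)]
        ring
      · rw [filter_insert, if_neg hd, if_neg hd, add_zero]
    have h1 := ih hFp m hm (fun p hp => hco p (mem_insert_of_mem hp))
    have h2 := ih hFp (m * q) (Nat.one_le_iff_ne_zero.2 (Nat.mul_ne_zero (by omega) hqp.ne_zero))
      (fun p hp => Nat.Coprime.mul_right (hco p (mem_insert_of_mem hp))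
        ((Nat.coprime_primes (hFp p hp) hqp).2 (fun h => hq (h ▸ hp))))
    have hsplit : ∑ d ∈ (Icc 1 R).filter (fun d => m ∣ d),
        (1 / (d : ℝ)) * ∏ p ∈ (insert q F).filter (· ∣ d), (1 + 1 / ((p : ℝ) - 1)) =
        ∑ d ∈ (Icc 1 R).filter (fun d => m ∣ d),
          (1 / (d : ℝ)) * ∏ p ∈ F.filter (· ∣ d), (1 + 1 / ((p : ℝ) - 1)) +
        (1 / ((q : ℝ) - 1)) * ∑ d ∈ (Icc 1 R).filter (fun d => m * q ∣ d),
          (1 / (d : ℝ)) * ∏ p ∈ F.filter (· ∣ d), (1 + 1 / ((p : ℝ) - 1)) := by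
      have hf : (Icc 1 R).filter (fun d => m * q ∣ d) =
          ((Icc 1 R).filter (fun d => m ∣ d)).filter (fun d => q ∣ d) := by
        ext d
        simp only [mem_filter, and_assoc]
        constructor
        · rintro ⟨h3, h4⟩
          exact ⟨h3, dvd_trans (dvd_mul_right m q) h4, dvd_trans (dvd_mul_left q m) h4⟩
        · rintro ⟨h3, h4, h5⟩
          exact ⟨h3, Nat.Coprime.mul_dvd_of_dvd_of_dvd hcq.symm h4 h5⟩
      rw [hf, sum_filter (fun d => q ∣ d), mul_sum, ← sum_add_distrib]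
      refine sum_congr rfl fun d _ => ?_
      rw [key d]
      split_ifs
      · ring
      · ring
    rw [hsplit, prod_insert hq]
    set P : ℝ := ∏ p ∈ F, (1 + 1 / ((p : ℝ) * ((p : ℝ) - 1)))
    have h3 : (1 / ((q : ℝ) - 1)) * ∑ d ∈ (Icc 1 R).filter (fun d => m * q ∣ d),
          (1 / (d : ℝ)) * ∏ p ∈ F.filter (· ∣ d), (1 + 1 / ((p : ℝ) - 1)) ≤
        (1 / ((q : ℝ) - 1)) * ((1 + Real.log R) / ((m * q : ℕ) : ℝ) * P) :=
      mul_le_mul_of_nonneg_left h2 (by positivity)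
    have h4 : (1 / ((q : ℝ) - 1)) * ((1 + Real.log R) / ((m * q : ℕ) : ℝ) * P) =
        (1 + Real.log R) / m * P * (1 / ((q : ℝ) * ((q : ℝ) - 1))) := by
      push_cast
      field_simp
    have h5 : (1 + Real.log R) / m * ((1 + 1 / ((q : ℝ) * ((q : ℝ) - 1))) * P) =
        (1 + Real.log R) / m * P + (1 + Real.log R) / m * P * (1 / ((q : ℝ) * ((q : ℝ) - 1))) := by
      ring
    rw [h5, ← h4]
    exact add_le_add h1 h3

private theorem tele (N : ℕ) :
    ∑ n ∈ range (N + 2), 1 / ((n : ℝ) * ((n : ℝ) - 1)) = 1 - 1 / ((N : ℝ) + 1) := by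
  induction N with
  | zero => norm_num [sum_range_succ]
  | succ N ih =>
    rw [show N + 1 + 2 = (N + 2) + 1 by ring, sum_range_succ, ih]
    have h1 : ((N : ℝ) + 1) ≠ 0 := by positivity
    have h2 : ((N : ℝ) + 2) ≠ 0 := by positivity
    push_cast
    have h3 : (N : ℝ) + 2 - 1 = N + 1 := by ring
    have h4 : (N : ℝ) + 1 + 1 = N + 2 := by ring
    rw [h3, h4]
    field_simp
    ring

private theorem prod_le_three {F : Finset ℕ} (hF : ∀ p ∈ F, p.Prime) :
    ∏ p ∈ F, (1 + 1 / ((p : ℝ) * ((p : ℝ) - 1))) ≤ 3 := by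
  have hnn : ∀ n : ℕ, 0 ≤ 1 / ((n : ℝ) * ((n : ℝ) - 1)) := by
    intro n
    rcases Nat.eq_zero_or_pos n with h | h
    · subst h
      simp
    · have h1 : (1 : ℝ) ≤ n := by exact_mod_cast h
      exact div_nonneg zero_le_one (mul_nonneg (by linarith) (by linarith))
  have hsum : ∑ p ∈ F, 1 / ((p : ℝ) * ((p : ℝ) - 1)) ≤ 1 := by
    have hsub : F ⊆ range (F.sup id + 2) := by
      intro p hp
      have := Finset.le_sup (f := id) hp
      simp only [id] at this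
      exact mem_range.2 (by omega)
    calc ∑ p ∈ F, 1 / ((p : ℝ) * ((p : ℝ) - 1))
        ≤ ∑ n ∈ range (F.sup id + 2), 1 / ((n : ℝ) * ((n : ℝ) - 1)) :=
          sum_le_sum_of_subset_of_nonneg hsub (fun n _ _ => hnn n)
      _ = 1 - 1 / (((F.sup id : ℕ) : ℝ) + 1) := tele _
      _ ≤ 1 := by
          have : (0 : ℝ) ≤ 1 / (((F.sup id : ℕ) : ℝ) + 1) := by positivity
          linarith
  calc ∏ p ∈ F, (1 + 1 / ((p : ℝ) * ((p : ℝ) - 1)))
      ≤ ∏ p ∈ F, Real.exp (1 / ((p : ℝ) * ((p : ℝ) - 1))) :=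
        prod_le_prod (fun p _ => by have := hnn p; linarith)
          (fun p _ => by
            have := Real.add_one_le_exp (1 / ((p : ℝ) * ((p : ℝ) - 1)))
            linarith)
    _ = Real.exp (∑ p ∈ F, 1 / ((p : ℝ) * ((p : ℝ) - 1))) := (Real.exp_sum _ _).symm
    _ ≤ Real.exp 1 := Real.exp_le_exp.2 hsum
    _ ≤ 3 := by
        have := Real.exp_one_lt_d9
        linarith

theorem sum_d {F : Finset ℕ} (hF : ∀ p ∈ F, p.Prime) {R : ℕ} (hR : 1 ≤ R) :
    ∑ d ∈ Icc 1 R, (1 / (d : ℝ)) * ∏ p ∈ F.filter (· ∣ d), (1 + 1 / ((p : ℝ) - 1)) ≤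
      3 * (1 + Real.log R) := by
  have h := step_sum (R := R) F hF 1 le_rfl (fun p _ => Nat.coprime_one_right p)
  have hf : (Icc 1 R).filter (fun d => 1 ∣ d) = Icc 1 R := by
    ext d
    simp
  rw [hf] at h
  have hl : (0 : ℝ) ≤ Real.log R := Real.log_nonneg (by exact_mod_cast hR)
  calc _ ≤ (1 + Real.log R) / ((1 : ℕ) : ℝ) * ∏ p ∈ F, (1 + 1 / ((p : ℝ) * ((p : ℝ) - 1))) := h
    _ ≤ (1 + Real.log R) / ((1 : ℕ) : ℝ) * 3 :=
        mul_le_mul_of_nonneg_left (prod_le_three hF) (by positivity)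
    _ = 3 * (1 + Real.log R) := by
        rw [Nat.cast_one, div_one, mul_comm]

end Pool.Agent.DPT
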