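import Mathlib

/-!
DPT-Tau. Sums of the divisor function, by interchanging the order of summation and bounds for partial sums of the harmonic
series.
-/

set_option autoImplicit false

open Finset

namespace Pool.Agent.DPT

private theorem div_eq {a R : ℕ} (h1 : 1 ≤ a) (h2 : a ≤ R) :
    a.divisors = (Icc 1 R).filter (fun d => d ∣ a) := by
  ext d
  rw [Nat.mem_divisors, mem_filter, mem_Icc]
  constructor
  · rintro ⟨h3, -⟩
    exact ⟨⟨Nat.pos_of_dvd_of_pos h3 h1, (Nat.le_of_dvd h1 h3).trans h2⟩, h3⟩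
  · rintro ⟨-, h3⟩
    exact ⟨h3, by omega⟩

private theorem mul_eq {d R : ℕ} (h1 : 1 ≤ d) :
    (Icc 1 R).filter (fun a => d ∣ a) = (Icc 1 (R / d)).image (fun e => d * e) := by
  ext a
  rw [mem_filter, mem_Icc, mem_image]
  constructor
  · rintro ⟨⟨h2, h3⟩, e, rfl⟩
    refine ⟨e, mem_Icc.2 ⟨?_, ?_⟩, rfl⟩
    · exact Nat.pos_of_mul_pos_left h2
    · rw [Nat.le_div_iff_mul_le h1, mul_comm]
      exact h3
  · rintro ⟨e, he, rfl⟩
    rw [mem_Icc, Nat.le_div_iff_mul_le h1, mul_comm e d] at he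
    exact ⟨⟨Nat.mul_pos h1 he.1, he.2⟩, dvd_mul_right d e⟩

private theorem harm (n : ℕ) : ∑ e ∈ Icc 1 n, 1 / (e : ℝ) ≤ 1 + Real.log n := by
  have h1 := harmonic_le_one_add_log n
  rw [harmonic_eq_sum_Icc] at h1
  push_cast at h1
  simpa only [one_div] using h1

private theorem harm2 {m : ℕ} (hm : 1 ≤ m) (k : ℕ) :
    ∑ e ∈ Icc m (m + k), 1 / (e : ℝ) ≤ 1 + Real.log (((m + k : ℕ) : ℝ) / m) := by
  have hm' : (0 : ℝ) < m := by exact_mod_cast hm
  induction k with
  | zero =>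
    rw [add_zero, Icc_self, sum_singleton, div_self hm'.ne', Real.log_one, add_zero, div_le_one hm']
    exact_mod_cast hm
  | succ k ih =>
    rw [← add_assoc, Finset.sum_Icc_succ_top (by omega : m ≤ m + k + 1)]
    have hk : (0 : ℝ) < ((m + k : ℕ) : ℝ) := by exact_mod_cast (by omega : 0 < m + k)
    have hk1 : (0 : ℝ) < ((m + k + 1 : ℕ) : ℝ) := by exact_mod_cast (by omega : 0 < m + k + 1)
    have h2 := Real.one_sub_inv_le_log_of_pos (x := ((m + k + 1 : ℕ) : ℝ) / ((m + k : ℕ) : ℝ)) (by positivity)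
    have h3 : 1 - (((m + k + 1 : ℕ) : ℝ) / ((m + k : ℕ) : ℝ))⁻¹ = 1 / ((m + k + 1 : ℕ) : ℝ) := by
      rw [inv_div]
      field_simp
      push_cast
      ring
    have h4 : Real.log (((m + k + 1 : ℕ) : ℝ) / m) =
        Real.log (((m + k : ℕ) : ℝ) / m) + Real.log (((m + k + 1 : ℕ) : ℝ) / ((m + k : ℕ) : ℝ)) := by
      rw [← Real.log_mul (by positivity) (by positivity)]
      congr 1
      field_simp
    rw [h4]
    rw [h3] at h2
    linarith

theorem tau_swap (f : ℕ → ℝ) (R : ℕ) :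
    ∑ a ∈ Icc 1 R, (a.divisors.card : ℝ) / a * f a =
      ∑ d ∈ Icc 1 R, 1 / (d : ℝ) * ∑ e ∈ Icc 1 (R / d), f (d * e) / e := by
  have h1 : ∀ a ∈ Icc 1 R, (a.divisors.card : ℝ) / a * f a =
      ∑ d ∈ Icc 1 R, if d ∣ a then f a / a else 0 := by
    intro a ha
    rw [mem_Icc] at ha
    rw [← sum_filter, ← div_eq ha.1 ha.2, sum_const, nsmul_eq_mul]
    ring
  rw [sum_congr rfl h1, sum_comm]
  refine sum_congr rfl fun d hd => ?_
  rw [mem_Icc] at hd
  rw [← sum_filter, mul_eq hd.1, sum_image (by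
    intro a _ b _ hab
    exact Nat.eq_of_mul_eq_mul_left hd.1 hab), mul_sum]
  refine sum_congr rfl fun e _ => ?_
  push_cast
  rw [mul_comm (1 / (d : ℝ)), div_mul_div_comm, mul_one, mul_comm (e : ℝ)]

theorem tau_all {R : ℕ} (hR : 1 ≤ R) :
    ∑ a ∈ Icc 1 R, (a.divisors.card : ℝ) / a ≤ (1 + Real.log R) ^ 2 := by
  have h1 := tau_swap (fun _ => 1) R
  simp only [mul_one] at h1
  rw [h1, pow_two]
  have h0 : 0 ≤ Real.log R := Real.log_natCast_nonneg R
  calc ∑ d ∈ Icc 1 R, 1 / (d : ℝ) * ∑ e ∈ Icc 1 (R / d), 1 / (e : ℝ)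
      ≤ ∑ d ∈ Icc 1 R, 1 / (d : ℝ) * (1 + Real.log R) := by
        refine sum_le_sum fun d hd => mul_le_mul_of_nonneg_left ?_ (by positivity)
        refine le_trans ?_ (harm R)
        refine sum_le_sum_of_subset_of_nonneg (Icc_subset_Icc_right (Nat.div_le_self R d)) ?_
        intro e _ _
        positivity
    _ = (∑ d ∈ Icc 1 R, 1 / (d : ℝ)) * (1 + Real.log R) := by rw [sum_mul]
    _ ≤ (1 + Real.log R) * (1 + Real.log R) := mul_le_mul_of_nonneg_right (harm R) (by linarith)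

theorem tau_tail {A R : ℕ} (hA : 1 ≤ A) (hAR : A ≤ R) :
    ∑ a ∈ Ioc A R, (a.divisors.card : ℝ) / a ≤
      (1 + Real.log R) * (1 + Real.log ((R : ℝ) / A)) := by
  have hA' : (0 : ℝ) < A := by exact_mod_cast hA
  have hR' : (0 : ℝ) < R := by exact_mod_cast (hA.trans hAR)
  have hlog : 0 ≤ Real.log ((R : ℝ) / A) := by
    refine Real.log_nonneg ?_
    rw [le_div_iff₀ hA', one_mul]
    exact_mod_cast hAR
  have h1 := tau_swap (fun a => if A < a then 1 else 0) R
  have h2 : ∑ a ∈ Ioc A R, (a.divisors.card : ℝ) / a =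
      ∑ a ∈ Icc 1 R, (a.divisors.card : ℝ) / a * (if A < a then 1 else 0) := by
    have h3 : Ioc A R = (Icc 1 R).filter (fun a => A < a) := by
      ext a
      rw [mem_Ioc, mem_filter, mem_Icc]
      omega
    rw [h3, sum_filter]
    refine sum_congr rfl fun a _ => ?_
    rw [mul_ite, mul_one, mul_zero]
  rw [h2, h1]
  have h4 : ∀ d ∈ Icc 1 R, ∑ e ∈ Icc 1 (R / d), (if A < d * e then (1 : ℝ) else 0) / e ≤
      1 + Real.log ((R : ℝ) / A) := by
    intro d hd
    rw [mem_Icc] at hd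
    have h5 : ∑ e ∈ Icc 1 (R / d), (if A < d * e then (1 : ℝ) else 0) / e =
        ∑ e ∈ Icc (A / d + 1) (R / d), 1 / (e : ℝ) := by
      have h6 : Icc (A / d + 1) (R / d) = (Icc 1 (R / d)).filter (fun e => A < d * e) := by
        ext e
        rw [mem_filter, mem_Icc, mem_Icc, mul_comm d e, ← Nat.div_lt_iff_lt_mul hd.1]
        generalize A / d = u
        generalize R / d = v
        omega
      rw [h6, sum_filter]
      refine sum_congr rfl fun e _ => ?_
      split_ifs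
      · rfl
      · rw [zero_div]
    rw [h5]
    rcases Nat.lt_or_ge (R / d) (A / d + 1) with h7 | h7
    · rw [Icc_eq_empty (by omega), sum_empty]
      linarith
    · obtain ⟨k, hk⟩ := Nat.exists_eq_add_of_le h7
      rw [hk]
      refine (harm2 (Nat.succ_pos _) k).trans ?_
      rw [← hk]
      have hm : (0 : ℝ) < ((A / d + 1 : ℕ) : ℝ) := by exact_mod_cast Nat.succ_pos _
      have hn : (0 : ℝ) < ((R / d : ℕ) : ℝ) := by
        have : 0 < R / d := lt_of_lt_of_le (Nat.succ_pos _) h7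
        exact_mod_cast this
      have h8 : ((R / d : ℕ) : ℝ) / ((A / d + 1 : ℕ) : ℝ) ≤ (R : ℝ) / A := by
        rw [div_le_div_iff₀ hm hA']
        have h9 : A ≤ d * (A / d + 1) := by
          have := Nat.lt_mul_div_succ A hd.1
          exact this.le
        have h10 : R / d * d ≤ R := Nat.div_mul_le_self R d
        have h11 : R / d * A ≤ R * (A / d + 1) := by
          calc R / d * A ≤ R / d * (d * (A / d + 1)) := Nat.mul_le_mul_left _ h9
            _ = R / d * d * (A / d + 1) := by ring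
            _ ≤ R * (A / d + 1) := Nat.mul_le_mul_right _ h10
        exact_mod_cast h11
      have h12 := Real.log_le_log (by positivity) h8
      linarith
  calc ∑ d ∈ Icc 1 R, 1 / (d : ℝ) * ∑ e ∈ Icc 1 (R / d), (if A < d * e then (1 : ℝ) else 0) / e
      ≤ ∑ d ∈ Icc 1 R, 1 / (d : ℝ) * (1 + Real.log ((R : ℝ) / A)) :=
        sum_le_sum fun d hd => mul_le_mul_of_nonneg_left (h4 d hd) (by positivity)
    _ = (∑ d ∈ Icc 1 R, 1 / (d : ℝ)) * (1 + Real.log ((R : ℝ) / A)) := by rw [sum_mul]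
    _ ≤ (1 + Real.log R) * (1 + Real.log ((R : ℝ) / A)) :=
        mul_le_mul_of_nonneg_right (harm R) (by linarith)

end Pool.Agent.DPT
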