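import Pool.Agent.DPT.Mean
import Pool.Agent.DPT.Per
import Pool.Agent.DPT.SumD
import Pool.Agent.DPT.Tau

/-!
DPT-SumA. The average of `τ(a)/a · hh F a`.

PLAN. `tau_swap` with `f = hh F`; for `d ≤ R` the inner sum (with `x = R / d ≥ 1`) is at most
`1 + log Q + mean · (1 + log R)` by `per_sum` applied to `e ↦ hh F (d e)` (`Q = ∏ F`, `hh_nonneg`, `hh_per`), `mean` is
bounded by `hh_mean`. Sum over `d`: `∑ 1/d ≤ 1 + log R` and `sum_d`.
-/

set_option autoImplicit false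

open Finset

namespace Pool.Agent.DPT

private theorem sa_harm (R : ℕ) : ∑ d ∈ Icc 1 R, 1 / (d : ℝ) ≤ 1 + Real.log R := by
  have h := harmonic_le_one_add_log R
  rw [harmonic_eq_sum_Icc] at h
  push_cast at h
  refine le_trans (le_of_eq ?_) h
  exact Finset.sum_congr rfl fun d _ => one_div _

theorem sum_a {F : Finset ℕ} (hF : ∀ p ∈ F, p.Prime) {R : ℕ} (hR : 1 ≤ R) :
    ∑ a ∈ Icc 1 R, (a.divisors.card : ℝ) / a * hh F a ≤
      (1 + Real.log R) * (1 + Real.log ((∏ p ∈ F, p : ℕ) : ℝ)) +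
        3 * HH F * (1 + Real.log R) ^ 2 := by
  rw [tau_swap]
  have hQ : 0 < ∏ p ∈ F, p := Finset.prod_pos fun p hp => (hF p hp).pos
  have hlR : 0 ≤ Real.log R := Real.log_nonneg (by exact_mod_cast hR)
  have hlQ : 0 ≤ Real.log ((∏ p ∈ F, p : ℕ) : ℝ) := Real.log_nonneg (by exact_mod_cast hQ)
  have hH := (HH_pos hF).1
  have key : ∀ d ∈ Icc 1 R, 1 / (d : ℝ) * ∑ e ∈ Icc 1 (R / d), hh F (d * e) / e ≤
      1 / (d : ℝ) * (1 + Real.log ((∏ p ∈ F, p : ℕ) : ℝ)) +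
        HH F * (1 + Real.log R) * (1 / (d : ℝ) * ∏ p ∈ F.filter (· ∣ d), (1 + 1 / ((p : ℝ) - 1))) := by
    intro d hd
    obtain ⟨hd1, hd2⟩ := Finset.mem_Icc.1 hd
    have hx : 1 ≤ R / d := (Nat.one_le_div_iff (by omega)).2 hd2
    have h1 := per_sum hQ (f := fun e => hh F (d * e)) (fun n => (hh_nonneg hF _).1)
      (fun n => (hh_nonneg hF _).2) (fun n => hh_per d n) hx
    have h2 := hh_mean hF d
    have h3 : Real.log ((R / d : ℕ) : ℝ) ≤ Real.log R := by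
      refine Real.log_le_log (by exact_mod_cast hx) ?_
      exact_mod_cast Nat.div_le_self R d
    have h4 : 0 ≤ Real.log ((R / d : ℕ) : ℝ) := Real.log_nonneg (by exact_mod_cast hx)
    have hP : 0 ≤ HH F * ∏ p ∈ F.filter (· ∣ d), (1 + 1 / ((p : ℝ) - 1)) := by
      refine mul_nonneg hH.le (Finset.prod_nonneg fun p hp => ?_)
      have hp1 : (1 : ℝ) < p := by exact_mod_cast (hF p (Finset.mem_filter.1 hp).1).one_lt
      have hp2 : 0 ≤ 1 / ((p : ℝ) - 1) := div_nonneg zero_le_one (by linarith)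
      linarith
    have h5 : (∑ e ∈ range (∏ p ∈ F, p), hh F (d * e)) / ((∏ p ∈ F, p : ℕ) : ℝ) *
        (1 + Real.log ((R / d : ℕ) : ℝ)) ≤
        HH F * (∏ p ∈ F.filter (· ∣ d), (1 + 1 / ((p : ℝ) - 1))) * (1 + Real.log R) :=
      mul_le_mul h2 (by linarith) (by linarith) hP
    have hd0 : 0 ≤ 1 / (d : ℝ) := by positivity
    have h6 := mul_le_mul_of_nonneg_left (h1.trans (add_le_add_right h5 _)) hd0
    refine h6.trans (le_of_eq ?_)
    ring
  refine (Finset.sum_le_sum key).trans ?_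
  rw [Finset.sum_add_distrib, ← Finset.sum_mul, ← Finset.mul_sum]
  have h7 := sum_d hF hR
  have h8 := mul_le_mul_of_nonneg_right (sa_harm R)
    (by linarith : 0 ≤ 1 + Real.log ((∏ p ∈ F, p : ℕ) : ℝ))
  have h9 := mul_le_mul_of_nonneg_left h7 (mul_nonneg hH.le (by linarith : 0 ≤ 1 + Real.log R))
  refine (add_le_add h8 h9).trans (le_of_eq ?_)
  ring

end Pool.Agent.DPT
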