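import Pool.Agent.DPT.FixA
import Pool.Agent.DPT.SumA

/-!
DPT-Up. The upper bound for the pairs which are not excluded.

PLAN. `card (sieved2 F R) = ∑_{a ≤ R} card (sieved F a R)`. Let `Q = ∏ F ≥ 1`, `L = 1 + log R`, `A = R / Q²` (natural division).
For `a ≤ A` (so `a Q² ≤ R`): by `fix_a` and `rho_le` the term is at most
`2 τ(a) (R/a hh F a + Q) ≤ 2 R τ(a)/a (hh F a + 1/Q)`. For `a > A`: by `fix_triv` it is at most `2τ(a)(R/a + 1) ≤ 4 R τ(a)/a`.
Sum: `2R (∑ τ(a)/a hh F a) + 2R/Q ∑ τ(a)/a + 4R ∑_{A < a ≤ R} τ(a)/a`; `sum_a`, `tau_all`, and the last sum is at most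
`L (2 + 2 log Q)`: if `A ≥ 1`, `tau_tail` and `R/A ≤ 2Q²` (`A + 1 > R/Q²`, `A ≥ 1`), `log 2 ≤ 1`; if `A = 0`, `R < Q²` and `tau_all`.
Total: `2R (L (1 + log Q) + 3 HH L² ) + 2R L²/Q + 4R L (2 + 2 log Q) ≤ R (6 HH L² + 2 L²/Q + 10 L (1 + log Q))`.
-/

set_option autoImplicit false

open Finset

namespace Pool.Agent.DPT

private theorem up_card (F : Finset ℕ) (R : ℕ) :
    ((sieved2 F R).card : ℝ) = ∑ a ∈ Icc 1 R, ((sieved F a R).card : ℝ) := by
  have h : (sieved2 F R).card = ∑ a ∈ Icc 1 R, (sieved F a R).card := by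
    unfold sieved2 sieved
    rw [Finset.card_filter, Finset.sum_product]
    refine Finset.sum_congr rfl fun a _ => ?_
    rw [Finset.card_filter]
  rw [h]
  push_cast
  rfl

private theorem up_term {F : Finset ℕ} (hF : ∀ p ∈ F, p.Prime) {R Q a : ℕ} (hQ : 0 < Q)
    (hQF : (∏ p ∈ F, (p : ℝ)) = (Q : ℝ)) (ha : a ∈ Icc 1 R) :
    ((sieved F a R).card : ℝ) ≤ 2 * R * ((a.divisors.card : ℝ) / a * hh F a) +
      2 * R / Q * ((a.divisors.card : ℝ) / a) +
      4 * R * (if R / Q ^ 2 < a then (a.divisors.card : ℝ) / a else 0) := by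
  rw [Finset.mem_Icc] at ha
  have ha0 : 0 < a := ha.1
  have har : (0 : ℝ) < a := by exact_mod_cast ha0
  have hQr : (0 : ℝ) < Q := by exact_mod_cast hQ
  have hRr : (0 : ℝ) ≤ R := Nat.cast_nonneg R
  have haR : (a : ℝ) ≤ R := by exact_mod_cast ha.2
  have hrho : (rho a : ℝ) ≤ 2 * (a.divisors.card : ℝ) := by exact_mod_cast rho_le ha0
  have hh0 := (hh_nonneg hF a).1
  have ht : (0 : ℝ) ≤ (a.divisors.card : ℝ) := Nat.cast_nonneg _
  split_ifs with hA
  · have h1 := fix_triv F ha0 R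
    have h2 : (1 : ℝ) ≤ (R : ℝ) / a := by
      rw [le_div_iff₀ har, one_mul]
      exact haR
    have h3 : (rho a : ℝ) * ((R : ℝ) / a + 1) ≤
        2 * (a.divisors.card : ℝ) * ((R : ℝ) / a + (R : ℝ) / a) :=
      mul_le_mul hrho (by linarith) (by positivity) (by positivity)
    have h4 : 2 * (a.divisors.card : ℝ) * ((R : ℝ) / a + (R : ℝ) / a) =
        4 * R * ((a.divisors.card : ℝ) / a) := by ring
    have h5 : 0 ≤ 2 * (R : ℝ) * ((a.divisors.card : ℝ) / a * hh F a) := by positivity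
    have h6 : 0 ≤ 2 * (R : ℝ) / Q * ((a.divisors.card : ℝ) / a) := by positivity
    linarith
  · have h1 := fix_a hF ha0 R
    rw [hQF] at h1
    have h2 : a * Q ^ 2 ≤ R := by
      have h3 : a ≤ R / Q ^ 2 := not_lt.1 hA
      exact (Nat.le_div_iff_mul_le (by positivity)).1 h3
    have h2r : (a : ℝ) * (Q : ℝ) ^ 2 ≤ R := by exact_mod_cast h2
    have h3 : (Q : ℝ) ≤ (R : ℝ) / (Q * a) := by
      rw [le_div_iff₀ (by positivity)]
      calc (Q : ℝ) * (Q * a) = a * (Q : ℝ) ^ 2 := by ring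
        _ ≤ R := h2r
    have h4 : (rho a : ℝ) * ((R : ℝ) / a * hh F a + Q) ≤
        2 * (a.divisors.card : ℝ) * ((R : ℝ) / a * hh F a + (R : ℝ) / (Q * a)) :=
      mul_le_mul hrho (by linarith) (by positivity) (by positivity)
    have h5 : 2 * (a.divisors.card : ℝ) * ((R : ℝ) / a * hh F a + (R : ℝ) / (Q * a)) =
        2 * R * ((a.divisors.card : ℝ) / a * hh F a) + 2 * R / Q * ((a.divisors.card : ℝ) / a) := by
      field_simp
    rw [mul_zero, add_zero]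
    linarith

private theorem up_tail {R Q : ℕ} (hR : 1 ≤ R) (hQ : 0 < Q) :
    ∑ a ∈ Icc 1 R, (if R / Q ^ 2 < a then (a.divisors.card : ℝ) / a else 0) ≤
      (1 + Real.log R) * (2 + 2 * Real.log Q) := by
  have hL : 0 ≤ Real.log R := Real.log_natCast_nonneg R
  have hLQ : 0 ≤ Real.log Q := Real.log_natCast_nonneg Q
  have hQr : (1 : ℝ) ≤ Q := by exact_mod_cast hQ
  have hRr : (0 : ℝ) < R := by exact_mod_cast hR
  rw [← Finset.sum_filter]
  by_cases hA : 1 ≤ R / Q ^ 2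
  · have hAR : R / Q ^ 2 ≤ R := Nat.div_le_self _ _
    have e : (Icc 1 R).filter (fun a => R / Q ^ 2 < a) = Ioc (R / Q ^ 2) R := by
      ext a
      rw [Finset.mem_filter, Finset.mem_Icc, Finset.mem_Ioc]
      omega
    rw [e]
    refine (tau_tail hA hAR).trans ?_
    refine mul_le_mul_of_nonneg_left ?_ (by linarith)
    have hAr : (1 : ℝ) ≤ ((R / Q ^ 2 : ℕ) : ℝ) := by exact_mod_cast hA
    have h1 : R < (R / Q ^ 2 + 1) * Q ^ 2 := Nat.lt_mul_of_div_lt (Nat.lt_succ_self _) (by positivity)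
    have h2 : (R : ℝ) < (((R / Q ^ 2 : ℕ) : ℝ) + 1) * (Q : ℝ) ^ 2 := by exact_mod_cast h1
    have h3 : (R : ℝ) / ((R / Q ^ 2 : ℕ) : ℝ) ≤ 2 * (Q : ℝ) ^ 2 := by
      rw [div_le_iff₀ (by linarith)]
      nlinarith [sq_nonneg (Q : ℝ)]
    have h4 : Real.log ((R : ℝ) / ((R / Q ^ 2 : ℕ) : ℝ)) ≤ Real.log (2 * (Q : ℝ) ^ 2) :=
      Real.log_le_log (by positivity) h3
    rw [Real.log_mul (by norm_num) (by positivity), Real.log_pow] at h4
    have h5 : Real.log 2 ≤ 1 := by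
      have := Real.log_two_lt_d9
      linarith
    push_cast at h4 ⊢
    linarith
  · have h0 : R / Q ^ 2 = 0 := Nat.lt_one_iff.1 (not_le.1 hA)
    have h1 : R < Q ^ 2 := (Nat.div_eq_zero_iff_lt (by positivity)).1 h0
    have h2 : (R : ℝ) ≤ (Q : ℝ) ^ 2 := by exact_mod_cast h1.le
    have h3 : Real.log R ≤ 2 * Real.log Q := by
      have h4 := Real.log_le_log hRr h2
      rw [Real.log_pow] at h4
      push_cast at h4
      exact h4
    have h5 : ∑ a ∈ (Icc 1 R).filter (fun a => R / Q ^ 2 < a), (a.divisors.card : ℝ) / a ≤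
        ∑ a ∈ Icc 1 R, (a.divisors.card : ℝ) / a :=
      Finset.sum_le_sum_of_subset_of_nonneg (Finset.filter_subset _ _)
        fun a _ _ => by positivity
    refine (h5.trans (tau_all hR)).trans ?_
    rw [sq]
    refine mul_le_mul_of_nonneg_left ?_ (by linarith)
    linarith

theorem sieve_up {F : Finset ℕ} (hF : ∀ p ∈ F, p.Prime) {R : ℕ} (hR : 1 ≤ R) :
    ((sieved2 F R).card : ℝ) ≤ R * (6 * HH F * (1 + Real.log R) ^ 2 +
      2 * (1 + Real.log R) ^ 2 / ((∏ p ∈ F, p : ℕ) : ℝ) +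
      10 * (1 + Real.log R) * (1 + Real.log ((∏ p ∈ F, p : ℕ) : ℝ))) := by
  have hQ : 0 < ∏ p ∈ F, p := Finset.prod_pos fun p hp => (hF p hp).pos
  have hQF : (∏ p ∈ F, (p : ℝ)) = ((∏ p ∈ F, p : ℕ) : ℝ) := (Nat.cast_prod _ _).symm
  have hs := sum_a hF hR
  generalize (∏ p ∈ F, p) = Q at hQ hQF hs ⊢
  have hRr : (0 : ℝ) ≤ R := Nat.cast_nonneg R
  have hQr : (0 : ℝ) < Q := by exact_mod_cast hQ
  rw [up_card]
  have h1 := Finset.sum_le_sum fun a (ha : a ∈ Icc 1 R) => up_term hF hQ hQF ha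
  refine h1.trans ?_
  rw [Finset.sum_add_distrib, Finset.sum_add_distrib, ← Finset.mul_sum, ← Finset.mul_sum,
    ← Finset.mul_sum]
  have h2 := mul_le_mul_of_nonneg_left hs (show (0 : ℝ) ≤ 2 * R by positivity)
  have h3 := mul_le_mul_of_nonneg_left (tau_all hR) (show (0 : ℝ) ≤ 2 * R / Q by positivity)
  have h4 := mul_le_mul_of_nonneg_left (up_tail hR hQ) (show (0 : ℝ) ≤ 4 * R by positivity)
  refine (add_le_add (add_le_add h2 h3) h4).trans (le_of_eq ?_)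
  ring

end Pool.Agent.DPT
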