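import Pool.Agent.DPT.TripB
import Pool.Agent.DPT.NSc
import Pool.Agent.DPT.Up
import Pool.Agent.DPT.LowA
import Pool.Agent.DPT.LowB
import Pool.Agent.DPT.HB
import Pool.Agent.DPT.Ins
import Pool.Agent.DPT.Fin
import Pool.Agent.DPT.Seven

/-!
DPT-Main. Assembly.
-/

set_option autoImplicit false

open Finset

namespace Pool.Agent.DPT

theorem pairs_low : ∃ c : ℝ, 0 < c ∧ ∃ R₀ : ℕ, ∀ R : ℕ, R₀ ≤ R →
    c * (R * Real.log R ^ 2) ≤ (pairs R).card := by
  obtain ⟨c, hc, R₀, h⟩ := low_b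
  refine ⟨c / 2, by positivity, R₀, fun R hR => ?_⟩
  have h1 := h R hR
  have h2 := low_a R
  have h3 : ∑ q ∈ ((Icc 1 R) ×ˢ (Icc 1 R)).filter (fun q => q.1 % 2 = 1 ∧ q.2 % 2 = 1 ∧
      Nat.Coprime q.1 q.2 ∧ 4 * (q.1 * q.2) ≤ R), (R : ℝ) / (2 * (q.1 * q.2)) =
      (R : ℝ) / 2 * ∑ q ∈ ((Icc 1 R) ×ˢ (Icc 1 R)).filter (fun q => q.1 % 2 = 1 ∧ q.2 % 2 = 1 ∧
        Nat.Coprime q.1 q.2 ∧ 4 * (q.1 * q.2) ≤ R), 1 / ((q.1 : ℝ) * q.2) := by
    rw [Finset.mul_sum]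
    refine Finset.sum_congr rfl fun q _ => ?_
    rw [div_mul_div_comm, mul_one]
  rw [h3] at h2
  refine le_trans ?_ h2
  have h4 := mul_le_mul_of_nonneg_left h1 (show (0 : ℝ) ≤ (R : ℝ) / 2 by positivity)
  calc c / 2 * (R * Real.log R ^ 2) = (R : ℝ) / 2 * (c * Real.log R ^ 2) := by ring
    _ ≤ _ := h4

theorem exc_sub (R : ℕ) : (exceptional R).card ≤ (pairs R).card := by
  classical
  unfold exceptional
  exact Finset.card_le_card (Finset.filter_subset _ _)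

theorem main : ∃ C : ℝ, 0 < C ∧ ∀ R : ℕ, 16 ≤ R →
    ((exceptional R).card : ℝ) ≤
      C * (pairs R).card / Real.log (Real.log (R : ℝ)) ^ (1 / 16 : ℝ) := by
  obtain ⟨C₁, hC₁, h1⟩ := trip_card
  obtain ⟨C₂, hC₂, h2⟩ := HH_bound
  obtain ⟨c, hc, R₁, h3⟩ := pairs_low
  obtain ⟨C, R₀, hC, hR₀, h4⟩ := fin_real (12 * C₁) C₂ c (by positivity) hC₂ hc
  -- the range `R ≤ R₂` is trivial
  obtain ⟨R₂, hR₂⟩ : ∃ R₂ : ℕ, R₂ = max R₀ R₁ := ⟨_, rfl⟩
  have hll : ∀ R : ℕ, 16 ≤ R → 0 < Real.log (Real.log R) := by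
    intro R hR
    have e1 : Real.exp 1 < 2.7182818286 := Real.exp_one_lt_d9
    have e2 : Real.exp 1 < Real.log 16 := by
      have : Real.log 16 = 4 * Real.log 2 := by
        rw [show (16 : ℝ) = 2 ^ 4 by norm_num, Real.log_pow]; norm_num
      rw [this]
      have := Real.log_two_gt_d9
      linarith
    have e3 : Real.log 16 ≤ Real.log R := Real.log_le_log (by norm_num) (by exact_mod_cast hR)
    have e4 : 1 < Real.log R := by
      have : (1 : ℝ) ≤ Real.exp 1 := Real.one_le_exp (by norm_num)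
      linarith
    exact Real.log_pos e4
  refine ⟨C + Real.log (Real.log (R₂ : ℝ)) ^ (1 / 16 : ℝ), ?_, fun R hR => ?_⟩
  · have h16 : 16 ≤ R₂ := by rw [hR₂]; exact le_trans hR₀ (le_max_left _ _)
    have := Real.rpow_nonneg (hll R₂ h16).le (1 / 16 : ℝ)
    linarith
  have hpos : 0 < Real.log (Real.log R) ^ (1 / 16 : ℝ) := Real.rpow_pos_of_pos (hll R hR) _
  have h16 : 16 ≤ R₂ := by rw [hR₂]; exact le_trans hR₀ (le_max_left _ _)
  have hR2pos : 0 ≤ Real.log (Real.log (R₂ : ℝ)) ^ (1 / 16 : ℝ) :=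
    Real.rpow_nonneg (hll R₂ h16).le _
  rw [le_div_iff₀ hpos]
  by_cases hcase : R₂ ≤ R
  · have hR0' : R₀ ≤ R := le_trans (by rw [hR₂]; exact le_max_left _ _) hcase
    have hR1' : R₁ ≤ R := le_trans (by rw [hR₂]; exact le_max_right _ _) hcase
    obtain ⟨hy3, h5⟩ := h4 R hR0'
    set y := ⌊√(Real.log R)⌋₊ with hy
    have hFp : ∀ p ∈ FF y, p.Prime := fun p hp => (Finset.mem_filter.1 hp).2.1
    have hF : ∀ p ∈ FF y, p.Prime ∧ p % 12 = 7 := fun p hp => (Finset.mem_filter.1 hp).2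
    have hQ1 : 1 ≤ ∏ p ∈ FF y, p := Finset.one_le_prod' fun p hp => (hFp p hp).one_le
    have hQ2 : ((∏ p ∈ FF y, p : ℕ) : ℝ) ≤ 4 ^ y := by exact_mod_cast prod_FF y
    have h6 := h5 (HH (FF y)) (∏ p ∈ FF y, p) hQ1 hQ2 (inv_prod_le hFp) (h2 y hy3)
    have h7 := exc_card hF R
    have h8 := ns_card R
    have h9 := h1 R (by omega)
    have h10 := sieve_up hFp (R := R) (by omega)
    have h11 : ((exceptional R).card : ℝ) ≤ 12 * C₁ * R + R * (6 * HH (FF y) *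
        (1 + Real.log R) ^ 2 + 2 * (1 + Real.log R) ^ 2 / ((∏ p ∈ FF y, p : ℕ) : ℝ) +
        10 * (1 + Real.log R) * (1 + Real.log ((∏ p ∈ FF y, p : ℕ) : ℝ))) := by
      have e1 : ((exceptional R).card : ℝ) ≤ (nsPairs R).card + (sieved2 (FF y) R).card := by
        exact_mod_cast h7
      have e2 : ((nsPairs R).card : ℝ) ≤ 12 * (trip (R ^ 2)).card := by exact_mod_cast h8
      linarith
    have h12 := h11.trans h6
    rw [le_div_iff₀ hpos] at h12
    refine h12.trans ?_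
    have h13 := h3 R hR1'
    have h14 : C * (c * (R * Real.log R ^ 2)) ≤ C * (pairs R).card :=
      mul_le_mul_of_nonneg_left h13 hC.le
    refine h14.trans ?_
    have : (0 : ℝ) ≤ (pairs R).card := Nat.cast_nonneg _
    nlinarith
  · push Not at hcase
    have e1 : ((exceptional R).card : ℝ) ≤ (pairs R).card := by exact_mod_cast exc_sub R
    have e2 : Real.log (Real.log R) ^ (1 / 16 : ℝ) ≤ Real.log (Real.log (R₂ : ℝ)) ^ (1 / 16 : ℝ) := by
      apply Real.rpow_le_rpow (hll R hR).le _ (by norm_num)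
      apply Real.log_le_log
      · exact Real.log_pos (by exact_mod_cast (show 1 < R by omega))
      · exact Real.log_le_log (by positivity) (by exact_mod_cast hcase.le)
    have e3 : (0 : ℝ) ≤ (pairs R).card := Nat.cast_nonneg _
    calc ((exceptional R).card : ℝ) * Real.log (Real.log R) ^ (1 / 16 : ℝ) ≤
        (pairs R).card * Real.log (Real.log (R₂ : ℝ)) ^ (1 / 16 : ℝ) :=
        mul_le_mul e1 e2 hpos.le e3
      _ ≤ (C + Real.log (Real.log (R₂ : ℝ)) ^ (1 / 16 : ℝ)) * (pairs R).card := by nlinarith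

end Pool.Agent.DPT
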