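import Pool.Agent.DPT.Crt
import Pool.Agent.DPT.CardG

/-!
DPT-Mean. The mean value of `e ↦ hh F (d e)`.

PLAN. `wt_mod`: `good_mod`. `wt_sum`: for `p ∣ d` no `d e` is good (`(d e : ZMod p) = 0`), all weights are `1`; for `p ∤ d` the map
`e ↦ d e % p` is a bijection of `range p`, so the sum is `p - gg p / p`. `hh_mean`: `mean_prod` for
`φ p e = wt p (d e)`; the mean value is the product over `p ∈ F`, `p ∤ d`, of `1 - gg p / p²`, and for `p ∣ d` we use
`1 ≤ (1 - gg p / p²) (1 + 1/(p-1))` since `gg p ≤ p - 1` (`gg_le`): `1 - gg p / p² ≥ 1 - 1/p`.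
-/

set_option autoImplicit false

open Finset

namespace Pool.Agent.DPT

theorem wt_mod (p a : ℕ) : wt p (a % p) = wt p a := by
  unfold wt
  by_cases h : Good p a
  · rw [if_pos h, if_pos ((good_mod p a).2 h)]
  · rw [if_neg h, if_neg fun h1 => h ((good_mod p a).1 h1)]

private theorem mean_congr {p a b : ℕ} (h : a % p = b % p) : wt p a = wt p b := by
  rw [← wt_mod p a, h, wt_mod]

theorem wt_sum_dvd {p d : ℕ} (hp : p.Prime) (hd : p ∣ d) :
    ∑ e ∈ range p, wt p (d * e) = p := by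
  have h1 : ∀ e ∈ range p, wt p (d * e) = 1 := by
    intro e _
    unfold wt
    rw [if_neg]
    rintro ⟨h2, -⟩
    apply h2
    rw [ZMod.natCast_eq_zero_iff]
    exact Dvd.dvd.mul_right hd e
  rw [Finset.sum_congr rfl h1, Finset.sum_const, card_range, nsmul_eq_mul, mul_one]

private theorem mean_image {p d : ℕ} (hp : p.Prime) (hd : ¬ p ∣ d) :
    (range p).image (fun e => d * e % p) = range p := by
  apply Finset.eq_of_subset_of_card_le
  · intro a ha
    obtain ⟨e, -, rfl⟩ := Finset.mem_image.1 ha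
    exact mem_range.2 (Nat.mod_lt _ hp.pos)
  · rw [Finset.card_image_of_injOn]
    intro e he e' he' h
    have h1 : d * e ≡ d * e' [MOD p] := h
    have h2 : e ≡ e' [MOD p] :=
      Nat.ModEq.cancel_left_of_coprime ((Nat.Prime.coprime_iff_not_dvd hp).2 hd) h1
    exact h2.eq_of_lt_of_lt (mem_range.1 he) (mem_range.1 he')

private theorem mean_inj {p d : ℕ} (hp : p.Prime) (hd : ¬ p ∣ d) :
    Set.InjOn (fun e => d * e % p) (range p : Set ℕ) := by
  intro e he e' he' h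
  have h1 : d * e ≡ d * e' [MOD p] := h
  have h2 : e ≡ e' [MOD p] :=
    Nat.ModEq.cancel_left_of_coprime ((Nat.Prime.coprime_iff_not_dvd hp).2 hd) h1
  exact h2.eq_of_lt_of_lt (mem_range.1 he) (mem_range.1 he')

open Classical in
private theorem mean_wt (p a : ℕ) : wt p a = 1 - (if Good p a then 1 / (p : ℝ) else 0) := by
  unfold wt
  by_cases h : Good p a
  · rw [if_pos h, if_pos h]
  · rw [if_neg h, if_neg h, sub_zero]

theorem wt_sum {p d : ℕ} (hp : p.Prime) (hd : ¬ p ∣ d) :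
    ∑ e ∈ range p, wt p (d * e) = p - (gg p : ℝ) / p := by
  classical
  have h1 : ∑ e ∈ range p, wt p (d * e) = ∑ a ∈ range p, wt p a := by
    calc ∑ e ∈ range p, wt p (d * e) = ∑ e ∈ range p, wt p (d * e % p) :=
          Finset.sum_congr rfl fun e _ => (wt_mod p (d * e)).symm
      _ = ∑ a ∈ (range p).image (fun e => d * e % p), wt p a :=
          (Finset.sum_image (f := wt p) (mean_inj hp hd)).symm
      _ = ∑ a ∈ range p, wt p a := by rw [mean_image hp hd]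
  rw [h1, Finset.sum_congr rfl fun a _ => mean_wt p a, Finset.sum_sub_distrib, Finset.sum_const,
    card_range, nsmul_eq_mul, mul_one, ← Finset.sum_filter, Finset.sum_const, nsmul_eq_mul]
  unfold gg
  rw [mul_one_div]

private theorem mean_gg {p : ℕ} (hp : p.Prime) :
    (0 : ℝ) < p ∧ (1 : ℝ) < p ∧ 0 ≤ (gg p : ℝ) / (p : ℝ) ^ 2 ∧
      (gg p : ℝ) / (p : ℝ) ^ 2 ≤ (p - 1) / (p : ℝ) ^ 2 := by
  have h1 : (0 : ℝ) < p := by exact_mod_cast hp.pos
  have h2 : (1 : ℝ) < p := by exact_mod_cast hp.one_lt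
  have h3 : (gg p : ℝ) + 1 ≤ p := by exact_mod_cast gg_le hp
  refine ⟨h1, h2, by positivity, ?_⟩
  apply div_le_div_of_nonneg_right _ (by positivity)
  linarith

private theorem mean_inv_le {p : ℕ} (hp : p.Prime) :
    1 / (p : ℝ) ≤ 1 - (gg p : ℝ) / (p : ℝ) ^ 2 := by
  obtain ⟨h1, h2, h3, h4⟩ := mean_gg hp
  have h5 : 1 / (p : ℝ) + (p - 1) / (p : ℝ) ^ 2 ≤ 1 := by
    rw [div_add_div _ _ h1.ne' (by positivity), div_le_one (by positivity)]
    nlinarith [mul_pos h1 (sq_pos_of_pos (sub_pos.2 h2)), mul_pos h1 h1]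
  linarith

private theorem mean_one_le {p : ℕ} (hp : p.Prime) :
    1 ≤ (1 - (gg p : ℝ) / (p : ℝ) ^ 2) * (1 + 1 / ((p : ℝ) - 1)) := by
  obtain ⟨h1, h2, h3, h4⟩ := mean_gg hp
  have h6 : (0 : ℝ) < p - 1 := sub_pos.2 h2
  have h5 : 1 - 1 / (p : ℝ) ≤ 1 - (gg p : ℝ) / (p : ℝ) ^ 2 := by
    have h7 : ((p : ℝ) - 1) / (p : ℝ) ^ 2 ≤ 1 / (p : ℝ) := by
      rw [div_le_div_iff₀ (by positivity) h1]
      nlinarith
    linarith
  have h8 : (1 - 1 / (p : ℝ)) * (1 + 1 / ((p : ℝ) - 1)) = 1 := by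
    field_simp
    ring
  calc (1 : ℝ) = (1 - 1 / (p : ℝ)) * (1 + 1 / ((p : ℝ) - 1)) := h8.symm
    _ ≤ _ := mul_le_mul_of_nonneg_right h5 (by positivity)

theorem HH_pos {F : Finset ℕ} (hF : ∀ p ∈ F, p.Prime) : 0 < HH F ∧ HH F ≤ 1 := by
  unfold HH
  have h : ∀ p ∈ F, 0 < 1 - (gg p : ℝ) / (p : ℝ) ^ 2 := by
    intro p hp
    have h1 := mean_inv_le (hF p hp)
    have h2 : (0 : ℝ) < 1 / (p : ℝ) := by
      have := (mean_gg (hF p hp)).1
      positivity
    linarith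
  refine ⟨Finset.prod_pos h, Finset.prod_le_one (fun p hp => (h p hp).le) fun p hp => ?_⟩
  have h1 := (mean_gg (hF p hp)).2.2.1
  linarith

theorem hh_nonneg {F : Finset ℕ} (hF : ∀ p ∈ F, p.Prime) (a : ℕ) : 0 ≤ hh F a ∧ hh F a ≤ 1 := by
  have h : ∀ p ∈ F, 0 ≤ wt p a ∧ wt p a ≤ 1 := by
    intro p hp
    have h1 := (mean_gg (hF p hp)).1
    have h2 := (mean_gg (hF p hp)).2.1
    have h3 : 1 / (p : ℝ) ≤ 1 := (div_le_one h1).2 h2.le
    have h4 : 0 < 1 / (p : ℝ) := by positivity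
    unfold wt
    split_ifs
    · constructor <;> linarith
    · constructor <;> norm_num
  unfold hh
  exact ⟨Finset.prod_nonneg fun p hp => (h p hp).1,
    Finset.prod_le_one (fun p hp => (h p hp).1) fun p hp => (h p hp).2⟩

theorem hh_per {F : Finset ℕ} (d e : ℕ) : hh F (d * (e + ∏ p ∈ F, p)) = hh F (d * e) := by
  unfold hh
  refine Finset.prod_congr rfl fun p hp => mean_congr ?_
  obtain ⟨k, hk⟩ : p ∣ ∏ p ∈ F, p := Finset.dvd_prod_of_mem _ hp
  rw [hk, mul_add, ← mul_assoc, mul_comm d p, mul_assoc p d k, Nat.add_mul_mod_self_left]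

theorem hh_mean {F : Finset ℕ} (hF : ∀ p ∈ F, p.Prime) (d : ℕ) :
    (∑ e ∈ range (∏ p ∈ F, p), hh F (d * e)) / ((∏ p ∈ F, p : ℕ) : ℝ) ≤
      HH F * ∏ p ∈ F.filter (· ∣ d), (1 + 1 / ((p : ℝ) - 1)) := by
  classical
  have h1 : ∑ e ∈ range (∏ p ∈ F, p), hh F (d * e) =
      ∏ p ∈ F, ∑ e ∈ range p, wt p (d * e) := by
    refine mean_prod hF (fun p e => wt p (d * e)) fun p _ n => mean_congr ?_
    rw [Nat.mul_mod, Nat.mod_mod, ← Nat.mul_mod]
  unfold HH
  rw [h1, Nat.cast_prod, ← Finset.prod_div_distrib, Finset.prod_filter, ← Finset.prod_mul_distrib]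
  refine Finset.prod_le_prod (fun p hp => ?_) fun p hp => ?_
  · refine div_nonneg (Finset.sum_nonneg fun e _ => ?_) (Nat.cast_nonneg p)
    have h2 := (hh_nonneg (F := {p}) (fun q hq => by
      rw [Finset.mem_singleton] at hq
      rw [hq]
      exact hF p hp) (d * e)).1
    unfold hh at h2
    rwa [Finset.prod_singleton] at h2
  · obtain ⟨h2, h3, h4, h5⟩ := mean_gg (hF p hp)
    by_cases hd : p ∣ d
    · rw [if_pos hd, wt_sum_dvd (hF p hp) hd, div_self h2.ne']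
      exact mean_one_le (hF p hp)
    · rw [if_neg hd, wt_sum (hF p hp) hd, mul_one, sub_div, div_self h2.ne', div_div, ← pow_two]

theorem inv_prod_le {F : Finset ℕ} (hF : ∀ p ∈ F, p.Prime) : 1 / ((∏ p ∈ F, p : ℕ) : ℝ) ≤ HH F := by
  unfold HH
  have h1 : 1 / ((∏ p ∈ F, p : ℕ) : ℝ) = ∏ p ∈ F, 1 / (p : ℝ) := by
    rw [Nat.cast_prod, Finset.prod_div_distrib, Finset.prod_const_one]
  rw [h1]
  exact Finset.prod_le_prod (fun p _ => by positivity) fun p hp => mean_inv_le (hF p hp)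

end Pool.Agent.DPT
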