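import Pool.Agent.DPT.Defs
import Pool.Agent.BDN.MAP
import Pool.Agent.QTW.Psum
import Pool.Agent.MEN.Mer

/-!
DPT-Mert. Mertens' theorem for the primes `p ≡ 7 mod 12` (lower bound): partial summation (`QTW.psum`) for the primes of
the other residue classes, from Mertens' first theorem in progressions (`BDN.mertens_ap`), and Mertens' second theorem
for all primes (`MEN.mert_sum0`).
-/

set_option autoImplicit false

open Finset

namespace Pool.Agent.DPT

private theorem mert_up : ∃ C : ℝ, ∀ n : ℕ, 1 ≤ n →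
    ∑ p ∈ QTW.pri n, (if p % 12 = 7 then (0 : ℝ) else 1) * Real.log p / p ≤
      (1 - 1 / 4) * Real.log n + C := by
  obtain ⟨C1, h1⟩ := BDN.mertens_ap 1 0 one_pos (Nat.coprime_one_right 0)
  obtain ⟨C2, h2⟩ := BDN.mertens_ap 12 7 (by norm_num) (by norm_num)
  refine ⟨C1 + C2, fun n hn => ?_⟩
  have h3 := (abs_le.1 (h1 n hn)).2
  have h4 := (abs_le.1 (h2 n hn)).1
  have h12 : (Nat.totient 12 : ℝ) = 4 := by
    have : Nat.totient 12 = 4 := by decide
    rw [this]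
    norm_num
  rw [h12] at h4
  rw [Nat.totient_one, Nat.cast_one, div_one] at h3
  have e1 : (Icc 1 n).filter (fun p => p.Prime ∧ p % 1 = 0 % 1) = QTW.pri n := by
    ext p
    rw [mem_filter, mem_Icc, QTW.mem_pri]
    constructor
    · rintro ⟨⟨_, h⟩, h', _⟩
      exact ⟨h, h'⟩
    · rintro ⟨h, h'⟩
      exact ⟨⟨h'.one_lt.le, h⟩, h', by omega⟩
  have e2 : (Icc 1 n).filter (fun p => p.Prime ∧ p % 12 = 7 % 12) =
      (QTW.pri n).filter fun p => p % 12 = 7 := by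
    ext p
    rw [mem_filter, mem_Icc, mem_filter, QTW.mem_pri]
    constructor
    · rintro ⟨⟨_, h⟩, h', h''⟩
      exact ⟨⟨h, h'⟩, by omega⟩
    · rintro ⟨⟨h, h'⟩, h''⟩
      exact ⟨⟨h'.one_lt.le, h⟩, h', by omega⟩
  rw [e1] at h3
  rw [e2] at h4
  have h5 : ∑ p ∈ QTW.pri n, (if p % 12 = 7 then (0 : ℝ) else 1) * Real.log p / p ≤
      ∑ p ∈ QTW.pri n, Real.log p / ((p : ℝ) - 1) -
        ∑ p ∈ (QTW.pri n).filter (fun p => p % 12 = 7), Real.log p / ((p : ℝ) - 1) := by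
    rw [Finset.sum_filter, ← Finset.sum_sub_distrib]
    refine Finset.sum_le_sum fun p hp => ?_
    have hp2 : (2 : ℝ) ≤ p := by exact_mod_cast (QTW.mem_pri.1 hp).2.two_le
    by_cases h : p % 12 = 7
    · rw [if_pos h, if_pos h]
      simp
    · rw [if_neg h, if_neg h, one_mul, sub_zero]
      exact div_le_div_of_nonneg_left (Real.log_nonneg (by linarith)) (by linarith) (by linarith)
  linarith

theorem mert : ∃ C : ℝ, ∀ y : ℕ, 3 ≤ y →
    1 / 4 * Real.log (Real.log y) - C ≤ ∑ p ∈ FF y, 1 / (p : ℝ) := by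
  obtain ⟨C1, h1⟩ := mert_up
  obtain ⟨C2, h2⟩ := QTW.psum (fun p => if p % 12 = 7 then (0 : ℝ) else 1) (1 / 4) C1 (by norm_num) h1
  obtain ⟨C3, hC3, h3⟩ := MEN.mert_sum0
  refine ⟨C2 + C3, fun y hy => ?_⟩
  have h4 := h2 y hy
  have h5 := (abs_le.1 (h3 y (by omega))).1
  have e1 : ∑ p ∈ Helper52.pr 0 y, 1 / (p : ℝ) = ∑ p ∈ QTW.pri y, 1 / (p : ℝ) := by
    refine Finset.sum_congr ?_ fun _ _ => rfl
    ext p
    rw [QTW.mem_pri, Helper52.mem_pr]
    constructor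
    · rintro ⟨_, h, h'⟩
      exact ⟨h, h'⟩
    · rintro ⟨h, h'⟩
      exact ⟨h'.pos, h, h'⟩
  have e2 : ∑ p ∈ FF y, 1 / (p : ℝ) = ∑ p ∈ QTW.pri y, 1 / (p : ℝ) -
      ∑ p ∈ QTW.pri y, (if p % 12 = 7 then (0 : ℝ) else 1) / p := by
    have e3 : FF y = (QTW.pri y).filter fun p => p % 12 = 7 := by
      ext p
      rw [FF, mem_filter, mem_Icc, mem_filter, QTW.mem_pri]
      constructor
      · rintro ⟨⟨_, h⟩, h', h''⟩
        exact ⟨⟨h, h'⟩, h''⟩
      · rintro ⟨⟨h, h'⟩, h''⟩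
        exact ⟨⟨h'.one_lt.le, h⟩, h', h''⟩
    rw [e3, Finset.sum_filter, ← Finset.sum_sub_distrib]
    refine Finset.sum_congr rfl fun p _ => ?_
    by_cases h : p % 12 = 7
    · simp [h]
    · simp [h]
  rw [e1] at h5
  rw [e2]
  linarith

end Pool.Agent.DPT
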