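import Pool.Agent.DPT.Defs

/-!
DPT-Rho. Solutions of `r² ≡ 1 mod a`.

PLAN.
* `sq1_mod`: `r % a ≡ r mod a`.
* `count_sq1`: the map `r ↦ (r % a, r / a)` (or a decomposition of `[1, N]` into at most `N / a + 1` blocks of
  `a` consecutive integers, `r / a ≤ N / a`) is injective into `{r < a : SQ1 a r} × range (N / a + 1)`.
* `rho_le`: for `r < a` with `SQ1 a r` (`r ≥ 1` unless `a = 1`) put `d = gcd a (r - 1)` (use `Int.gcd` or
  `Nat.gcd a (r + a - 1)`), a divisor of `a`; `a / d` divides `r + 1`. So `r ≡ 1 mod d`, `r ≡ -1 mod a / d`, and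
  `gcd d (a / d) ∣ 2`, so `r` is determined by `d` modulo `a` if `gcd = 1`, modulo `a / 2` if `gcd = 2`:
  two elements `r, r'` with the same `d` satisfy `a ∣ 2 (r - r')`; so there are at most two of them in `range a`.
-/

set_option autoImplicit false

open Finset

namespace Pool.Agent.DPT

theorem sq1_mod (a r : ℕ) : SQ1 a (r % a) ↔ SQ1 a r := by
  unfold SQ1
  have h : (r : ℤ) = ((r % a : ℕ) : ℤ) + (a : ℤ) * ((r / a : ℕ) : ℤ) := by
    exact_mod_cast (Nat.mod_add_div r a).symm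
  have h2 : (r : ℤ) ^ 2 - 1 = (((r % a : ℕ) : ℤ) ^ 2 - 1) + (a : ℤ) *
      (((r / a : ℕ) : ℤ) * (2 * ((r % a : ℕ) : ℤ) + (a : ℤ) * ((r / a : ℕ) : ℤ))) := by
    rw [h]
    generalize ((r % a : ℕ) : ℤ) = x
    generalize ((r / a : ℕ) : ℤ) = y
    ring
  rw [h2]
  exact (dvd_add_left (Dvd.intro _ rfl)).symm

theorem count_sq1 {a : ℕ} (ha : 0 < a) (N : ℕ) : (sqs a N).card ≤ rho a * (N / a + 1) := by
  classical
  have hr : rho a * (N / a + 1) = (((range a).filter (SQ1 a)) ×ˢ range (N / a + 1)).card := by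
    rw [card_product, card_range]
    rfl
  rw [hr]
  unfold sqs
  refine card_le_card_of_injOn (fun r => (r % a, r / a)) (fun r hr => ?_) (fun r _ r' _ h => ?_)
  · rw [mem_coe, mem_filter, mem_Icc] at hr
    rw [mem_coe, mem_product, mem_filter, mem_range, mem_range]
    refine ⟨⟨Nat.mod_lt _ ha, (sq1_mod a r).2 hr.2⟩, ?_⟩
    exact Nat.lt_succ_of_le (Nat.div_le_div_right (c := a) hr.1.2)
  · have h1 := congrArg Prod.fst h
    have h2 := congrArg Prod.snd h
    simp only at h1 h2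
    rw [← Nat.mod_add_div r a, ← Nat.mod_add_div r' a, h1, h2]

private theorem key {a : ℕ} {r r' : ℤ} (h : (a : ℤ) ∣ r ^ 2 - 1) (h' : (a : ℤ) ∣ r' ^ 2 - 1)
    (ha : 0 < a) (hd : Int.gcd (a : ℤ) (r - 1) = Int.gcd (a : ℤ) (r' - 1)) :
    (a : ℤ) ∣ 2 * (r - r') := by
  have gen : ∀ t : ℤ, (a : ℤ) ∣ t ^ 2 - 1 → ∀ d : ℤ, d = (Int.gcd (a : ℤ) (t - 1) : ℤ) →
      ∀ e : ℤ, (a : ℤ) = d * e → d ∣ t - 1 ∧ e ∣ t + 1 := by
    intro t ht d hd e he
    have hdt : d ∣ t - 1 := by
      rw [hd]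
      exact Int.gcd_dvd_right _ _
    refine ⟨hdt, ?_⟩
    obtain ⟨s, hs⟩ := hdt
    have hd0 : d ≠ 0 := by
      intro h0
      rw [h0, zero_mul] at he
      have : a = 0 := by exact_mod_cast he
      omega
    have hb := Int.gcd_eq_gcd_ab (a : ℤ) (t - 1)
    rw [← hd, he, hs] at hb
    have h1 : (1 : ℤ) = e * Int.gcdA (d * e) (d * s) + s * Int.gcdB (d * e) (d * s) := by
      apply mul_left_cancel₀ hd0
      linear_combination hb
    have h2 : e ∣ s * (t + 1) := by
      obtain ⟨m, hm⟩ := ht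
      refine ⟨m, ?_⟩
      apply mul_left_cancel₀ hd0
      have h3 : t ^ 2 - 1 = (d * s) * (t + 1) := by
        rw [← hs]
        ring
      rw [h3, he] at hm
      linear_combination hm
    have h4 : t + 1 = e * ((t + 1) * Int.gcdA (d * e) (d * s)) +
        s * (t + 1) * Int.gcdB (d * e) (d * s) := by
      linear_combination (t + 1) * h1
    rw [h4]
    exact dvd_add (Dvd.intro _ rfl) (Dvd.dvd.mul_right h2 _)
  obtain ⟨e, he⟩ : (Int.gcd (a : ℤ) (r - 1) : ℤ) ∣ (a : ℤ) := Int.gcd_dvd_left _ _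
  obtain ⟨d1, e1⟩ := gen r h _ rfl e he
  obtain ⟨d2, e2⟩ := gen r' h' _ (by rw [hd]) e he
  generalize (Int.gcd (a : ℤ) (r - 1) : ℤ) = d at *
  obtain ⟨m, hm⟩ : d ∣ r - r' := by
    have : r - r' = (r - 1) - (r' - 1) := by ring
    rw [this]
    exact dvd_sub d1 d2
  obtain ⟨m', hm'⟩ : e ∣ r - r' := by
    have : r - r' = (r + 1) - (r' + 1) := by ring
    rw [this]
    exact dvd_sub e1 e2
  obtain ⟨s, hs⟩ := d1
  obtain ⟨k, hk⟩ := e1
  refine ⟨k * m - s * m', ?_⟩
  have h3 : 2 * (r - r') = e * k * (r - r') - d * s * (r - r') := by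
    rw [← hk, ← hs]
    ring
  rw [h3, he]
  calc e * k * (r - r') - d * s * (r - r') = e * k * (d * m) - d * s * (e * m') := by
        rw [← hm, ← hm']
    _ = d * e * (k * m - s * m') := by ring

theorem rho_le {a : ℕ} (ha : 0 < a) : rho a ≤ 2 * a.divisors.card := by
  classical
  have hc : 2 * a.divisors.card = (a.divisors ×ˢ (Finset.univ : Finset Bool)).card := by
    rw [card_product, Finset.card_univ, Fintype.card_bool, mul_comm]
  rw [hc]
  unfold rho
  refine card_le_card_of_injOn (fun r => (Int.gcd (a : ℤ) ((r : ℤ) - 1), decide (2 * r < a)))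
    (fun r hr => ?_) (fun r hr r' hr' h => ?_)
  · rw [mem_coe, mem_product]
    refine ⟨?_, mem_univ _⟩
    rw [Nat.mem_divisors]
    refine ⟨?_, ha.ne'⟩
    have h1 : ((Int.gcd (a : ℤ) ((r : ℤ) - 1) : ℕ) : ℤ) ∣ ((a : ℕ) : ℤ) := Int.gcd_dvd_left _ _
    exact Int.natCast_dvd_natCast.1 h1
  · rw [mem_coe, mem_filter, mem_range] at hr hr'
    have h1 := congrArg Prod.fst h
    have h2 := congrArg Prod.snd h
    simp only [decide_eq_decide] at h1 h2
    obtain ⟨m, hm⟩ := key hr.2 hr'.2 ha h1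
    have hm1 : m = 0 ∨ m = 1 ∨ m = -1 := by
      have hu : (a : ℤ) * m < (a : ℤ) * 2 := by
        rw [← hm]
        have := hr.1
        omega
      have hl : (a : ℤ) * (-2) < (a : ℤ) * m := by
        rw [← hm]
        have := hr'.1
        omega
      have ha' : (0 : ℤ) < a := by exact_mod_cast ha
      have h3 := lt_of_mul_lt_mul_left hu ha'.le
      have h4 := lt_of_mul_lt_mul_left hl ha'.le
      omega
    have h5 := hr.1
    have h6 := hr'.1
    rcases hm1 with rfl | rfl | rfl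
    · omega
    · exfalso
      have h7 : ¬ (2 * r < a) := by omega
      have h8 : 2 * r' < a := by omega
      exact h7 (h2.2 h8)
    · exfalso
      have h7 : ¬ (2 * r' < a) := by omega
      have h8 : 2 * r < a := by omega
      exact h7 (h2.1 h8)

end Pool.Agent.DPT
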