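import Mathlib

/-!
Definitions for the statement of MP_30ac48_nt.AlmostAllPairs.
-/

set_option autoImplicit false

open Finset

namespace Pool.Agent.DPT

/-- The curve `y² = (x+bc)(x+ac)(x+ab)`; it is isomorphic to the curve `y² = (ax+1)(bx+1)(cx+1)`
induced by `{a, b, c}`. -/
def curve (a b c : ℕ) : WeierstrassCurve ℚ :=
  WeierstrassCurve.mk (0 : ℚ) ((a : ℚ) * b + (a : ℚ) * c + (b : ℚ) * c) 0
    ((a : ℚ) * b * c * ((a : ℚ) + b + c)) (((a : ℚ) * b * c) ^ 2)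

/-- The rational torsion subgroup of `curve a b c` is isomorphic to `ℤ/2 × ℤ/6`. -/
def HasTorsion26 (a b c : ℕ) : Prop :=
  Nonempty (↥(AddCommGroup.torsion (curve a b c).toAffine.Point) ≃+ (ZMod 2 × ZMod 6))

open Classical in
/-- The Diophantine pairs `{a, b}`, `a < b`, with `√(ab + 1) ≤ R`. -/
noncomputable def pairs (R : ℕ) : Finset (ℕ × ℕ) :=
  ((Icc 1 (R ^ 2)) ×ˢ (Icc 1 (R ^ 2))).filter fun p =>
    p.1 < p.2 ∧ IsSquare (p.1 * p.2 + 1) ∧ p.1 * p.2 + 1 ≤ R ^ 2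

open Classical in
/-- The pairs of `pairs R` which are contained in a Diophantine triple with torsion
`ℤ/2 × ℤ/6`. -/
noncomputable def exceptional (R : ℕ) : Finset (ℕ × ℕ) :=
  (pairs R).filter fun p => ∃ c : ℕ, 0 < c ∧ IsSquare (p.1 * c + 1) ∧ IsSquare (p.2 * c + 1) ∧
    HasTorsion26 p.1 p.2 c

end Pool.Agent.DPT
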