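import Pool.Agent.DPT.Rho

/-!
DPT-TripA. The number of `z` for given `x < y`.

PLAN. For `z` in the set put `t = √(yz+1)`: `t² = yz + 1 ≤ R²/(4x²) + 1`, so `1 ≤ t ≤ N := R / (2x) + 1` (natural division;
`(2x(t-1))² ≤ 4x²(t² - 1) ≤ R²` for `t ≥ 1`), `SQ1 y t`, and `z` is determined by `t`. So the number is at most
`(sqs y N).card ≤ rho y * (N / y + 1) ≤ rho y * (R/(2xy) + 2)`.
-/

set_option autoImplicit false

open Finset

namespace Pool.Agent.DPT

open Classical in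
theorem count_z {x y : ℕ} (hx : 0 < x) (hxy : x < y) (R : ℕ) :
    (((Icc 1 (R ^ 2)).filter fun z => IsSquare (y * z + 1) ∧ 4 * x ^ 2 * y * z ≤ R ^ 2).card : ℝ) ≤
      rho y * ((R : ℝ) / (2 * x * y) + 2) := by
  have hy : 0 < y := hx.trans hxy
  have key : (((Icc 1 (R ^ 2)).filter fun z => IsSquare (y * z + 1) ∧
      4 * x ^ 2 * y * z ≤ R ^ 2).card) ≤ (sqs y (R / (2 * x) + 1)).card := by
    refine Finset.card_le_card_of_injOn (fun z => Nat.sqrt (y * z + 1)) ?_ ?_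
    · intro z hz
      obtain ⟨h1, ⟨t, ht⟩, h3⟩ := Finset.mem_filter.1 (Finset.mem_coe.1 hz)
      have hz1 : 1 ≤ z := (Finset.mem_Icc.1 h1).1
      have e : Nat.sqrt (y * z + 1) = t := by rw [ht, Nat.sqrt_eq]
      have ht1 : 1 ≤ t := by
        rcases Nat.eq_zero_or_pos t with h | h
        · rw [h] at ht
          omega
        · exact h
      obtain ⟨s, rfl⟩ := Nat.exists_eq_add_of_le' ht1
      have h4 : y * z = s * s + 2 * s := by
        have : y * z + 1 = s * s + 2 * s + 1 := by rw [ht]; ring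
        omega
      have h5 : s * (2 * x) ≤ R := by
        have h6 : (s * (2 * x)) ^ 2 ≤ R ^ 2 := by
          refine le_trans ?_ h3
          calc (s * (2 * x)) ^ 2 = 4 * x ^ 2 * (s * s) := by ring
            _ ≤ 4 * x ^ 2 * (y * z) := Nat.mul_le_mul_left _ (by omega)
            _ = 4 * x ^ 2 * y * z := by ring
        exact (Nat.pow_le_pow_iff_left two_ne_zero).1 h6
      show Nat.sqrt (y * z + 1) ∈ ((sqs y (R / (2 * x) + 1) : Finset ℕ) : Set ℕ)
      rw [e]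
      unfold sqs
      rw [Finset.mem_coe, Finset.mem_filter, Finset.mem_Icc]
      refine ⟨⟨by omega, Nat.add_le_add_right ((Nat.le_div_iff_mul_le (by omega)).2 h5) 1⟩, ?_⟩
      refine ⟨(z : ℤ), ?_⟩
      have h7 : (y : ℤ) * z + 1 = ((s : ℤ) + 1) * (s + 1) := by exact_mod_cast ht
      push_cast
      linear_combination -h7
    · intro z hz z' hz' h
      obtain ⟨-, ⟨t, ht⟩, -⟩ := Finset.mem_filter.1 (Finset.mem_coe.1 hz)
      obtain ⟨-, ⟨t', ht'⟩, -⟩ := Finset.mem_filter.1 (Finset.mem_coe.1 hz')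
      have h1 : Nat.sqrt (y * z + 1) = Nat.sqrt (y * z' + 1) := h
      rw [ht, ht', Nat.sqrt_eq, Nat.sqrt_eq] at h1
      subst h1
      have h2 : y * z = y * z' := by omega
      exact Nat.eq_of_mul_eq_mul_left hy h2
  have h2 := key.trans (count_sq1 hy (R / (2 * x) + 1))
  have h3 : (((Icc 1 (R ^ 2)).filter fun z => IsSquare (y * z + 1) ∧
      4 * x ^ 2 * y * z ≤ R ^ 2).card : ℝ) ≤
      (rho y : ℝ) * (((R / (2 * x) + 1) / y + 1 : ℕ) : ℝ) := by
    exact_mod_cast h2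
  refine h3.trans (mul_le_mul_of_nonneg_left ?_ (Nat.cast_nonneg _))
  have hxR : (0 : ℝ) < x := by exact_mod_cast hx
  have hyR : (0 : ℝ) < y := by exact_mod_cast hy
  have hy1 : (1 : ℝ) ≤ y := by exact_mod_cast hy
  have h4 : (((R / (2 * x) + 1) / y : ℕ) : ℝ) ≤ ((R / (2 * x) + 1 : ℕ) : ℝ) / y := Nat.cast_div_le
  have h5 : ((R / (2 * x) : ℕ) : ℝ) ≤ (R : ℝ) / ((2 * x : ℕ) : ℝ) := Nat.cast_div_le
  push_cast at h4 h5 ⊢
  have h6 : (((R / (2 * x) : ℕ) : ℝ) + 1) / y ≤ ((R : ℝ) / (2 * x) + 1) / y :=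
    div_le_div_of_nonneg_right (by linarith) hyR.le
  have h7 : ((R : ℝ) / (2 * x) + 1) / y = (R : ℝ) / (2 * x * y) + 1 / y := by
    field_simp
  have h8 : (1 : ℝ) / y ≤ 1 := by
    rw [div_le_one hyR]
    exact hy1
  linarith

end Pool.Agent.DPT
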