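import Pool.Agent.DPT.TripA
import Pool.Agent.DPT.DivB

/-!
DPT-TripB. The number of triples `x < y < z` with `4x²yz ≤ R²` is `O(R)`.

PLAN. `z > y` gives `4x²y² < R²`, so `w² = xy + 1 ≤ R/2 + 1`. By `count_z` the number is at most the sum over the
pairs `(x, y)`, `x < y`, `xy + 1 = w²`, `2 ≤ w`, `w² ≤ R/2 + 1` of `rho y (R/(2xy) + 2)`, where `xy = w² - 1 ≥ 3w²/4` and
`y` is a divisor of `w² - 1` (and `x` is determined by `w`, `y`). So it is at most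
`∑_{2 ≤ w, w² ≤ R/2+1} C w^(2/3) (2R/(3w²) + 2) ≤ C' R + 2 C W^(5/3) ≤ C'' R` with `W = √(R/2+1)` and
`∑ w^(-4/3) < ∞` (`Real.summable_nat_rpow` or so).
-/

set_option autoImplicit false

open Finset

namespace Pool.Agent.DPT

open Classical in
private noncomputable def tbP (R : ℕ) : Finset (ℕ × ℕ) :=
  ((Icc 1 R) ×ˢ (Icc 1 R)).filter fun p => p.1 < p.2 ∧ IsSquare (p.1 * p.2 + 1) ∧ 2 * (p.1 * p.2) ≤ R

open Classical in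
private noncomputable def tbT (R : ℕ) (p : ℕ × ℕ) : Finset ℕ :=
  (Icc 1 (R ^ 2)).filter fun z => IsSquare (p.2 * z + 1) ∧ 4 * p.1 ^ 2 * p.2 * z ≤ R ^ 2

private lemma tb_card (R : ℕ) : (trip (R ^ 2)).card ≤ ∑ p ∈ tbP R, (tbT R p).card := by
  classical
  rw [← Finset.card_sigma]
  refine Finset.card_le_card_of_injOn (fun q => ⟨(q.1, q.2.1), q.2.2⟩) ?_ ?_
  · rintro ⟨x, y, z⟩ hq
    obtain ⟨h1, h2, h3, h4, _, h6, h7⟩ := Finset.mem_filter.1 (Finset.mem_coe.1 hq)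
    simp only [Finset.mem_product, Finset.mem_Icc] at h1 h2 h3 h4 h6 h7
    have hx := h1.1.1
    have hy := h1.2.1.1
    have hz := h1.2.2.1
    have h8 : 2 * (x * y) ≤ R := by
      have h9 : (2 * (x * y)) ^ 2 ≤ R ^ 2 := by
        refine le_trans ?_ h7
        calc (2 * (x * y)) ^ 2 = 4 * x ^ 2 * y * y := by ring
          _ ≤ 4 * x ^ 2 * y * z := Nat.mul_le_mul_left _ h3.le
      exact (Nat.pow_le_pow_iff_left two_ne_zero).1 h9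
    have hxR : x ≤ R := by
      calc x = x * 1 := (mul_one x).symm
        _ ≤ x * y := Nat.mul_le_mul_left _ hy
        _ ≤ R := by omega
    have hyR : y ≤ R := by
      calc y = 1 * y := (one_mul y).symm
        _ ≤ x * y := Nat.mul_le_mul_right _ hx
        _ ≤ R := by omega
    rw [Finset.mem_coe, Finset.mem_sigma]
    refine ⟨?_, ?_⟩
    · unfold tbP
      rw [Finset.mem_filter, Finset.mem_product, Finset.mem_Icc, Finset.mem_Icc]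
      exact ⟨⟨⟨hx, hxR⟩, ⟨hy, hyR⟩⟩, h2, h4, h8⟩
    · unfold tbT
      rw [Finset.mem_filter, Finset.mem_Icc]
      exact ⟨h1.2.2, h6, h7⟩
  · rintro ⟨x, y, z⟩ _ ⟨x', y', z'⟩ _ h
    simp only [Sigma.mk.injEq, Prod.mk.injEq, heq_eq_eq] at h
    obtain ⟨⟨h1, h2⟩, h3⟩ := h
    rw [h1, h2, h3]

private noncomputable def tbg (R : ℕ) (q : (_ : ℕ) × ℕ) : ℝ :=
  (rho q.2 : ℝ) * ((R : ℝ) / (2 * ((q.1 : ℝ) ^ 2 - 1)) + 2)

open Classical in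
private noncomputable def tbW (R : ℕ) : Finset ℕ := (Icc 2 (R + 1)).filter fun w => 2 * (w ^ 2 - 1) ≤ R

private lemma tb_sum (R : ℕ) : ∑ p ∈ tbP R, ((tbT R p).card : ℝ) ≤
    ∑ w ∈ tbW R, ∑ y ∈ (w ^ 2 - 1).divisors, tbg R ⟨w, y⟩ := by
  classical
  set φ : ℕ × ℕ → (_ : ℕ) × ℕ := fun p => ⟨Nat.sqrt (p.1 * p.2 + 1), p.2⟩ with hφ
  have hP : ∀ p ∈ tbP R, 1 ≤ p.1 ∧ 1 ≤ p.2 ∧ p.1 < p.2 ∧
      (Nat.sqrt (p.1 * p.2 + 1)) ^ 2 = p.1 * p.2 + 1 ∧ 2 * (p.1 * p.2) ≤ R := by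
    intro p hp
    unfold tbP at hp
    rw [Finset.mem_filter, Finset.mem_product, Finset.mem_Icc, Finset.mem_Icc] at hp
    obtain ⟨⟨h1, h2⟩, h3, ⟨t, ht⟩, h5⟩ := hp
    refine ⟨h1.1, h2.1, h3, ?_, h5⟩
    rw [ht, Nat.sqrt_eq, sq]
  have h1 : ∀ p ∈ tbP R, ((tbT R p).card : ℝ) ≤ tbg R (φ p) := by
    intro p hp
    obtain ⟨h1, h2, h3, h4, h5⟩ := hP p hp
    have h6 := count_z (x := p.1) (y := p.2) (by omega) h3 R
    have h7 : ((Nat.sqrt (p.1 * p.2 + 1) : ℕ) : ℝ) ^ 2 - 1 = (p.1 : ℝ) * p.2 := by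
      have h8 : ((Nat.sqrt (p.1 * p.2 + 1) : ℕ) : ℝ) ^ 2 = (p.1 : ℝ) * p.2 + 1 := by exact_mod_cast h4
      rw [h8]
      ring
    show ((tbT R p).card : ℝ) ≤ (rho p.2 : ℝ) *
      ((R : ℝ) / (2 * (((Nat.sqrt (p.1 * p.2 + 1) : ℕ) : ℝ) ^ 2 - 1)) + 2)
    rw [h7, ← mul_assoc]
    unfold tbT
    convert h6 using 2
  refine (Finset.sum_le_sum h1).trans ?_
  refine le_of_le_of_eq ?_ (Finset.sum_sigma (tbW R) (fun w => (w ^ 2 - 1).divisors) (tbg R))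
  have hinj : Set.InjOn φ (tbP R : Set (ℕ × ℕ)) := by
    intro p hp p' hp' h
    obtain ⟨h1, h2, h3, h4, h5⟩ := hP p (Finset.mem_coe.1 hp)
    obtain ⟨h1', h2', h3', h4', h5'⟩ := hP p' (Finset.mem_coe.1 hp')
    simp only [hφ, Sigma.mk.injEq, heq_eq_eq] at h
    obtain ⟨e1, e2⟩ := h
    rw [e1, h4', e2] at h4
    have e3 : p'.1 * p'.2 = p.1 * p'.2 := by omega
    have e4 : p'.1 = p.1 := Nat.eq_of_mul_eq_mul_right (by omega) e3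
    exact Prod.ext e4.symm e2
  rw [← Finset.sum_image (f := tbg R) hinj]
  refine Finset.sum_le_sum_of_subset_of_nonneg ?_ ?_
  · intro q hq
    obtain ⟨p, hp, rfl⟩ := Finset.mem_image.1 hq
    obtain ⟨h1, h2, h3, h4, h5⟩ := hP p hp
    rw [Finset.mem_sigma]
    have h6 : 2 ≤ p.1 * p.2 := by
      calc 2 ≤ p.2 := by omega
        _ = 1 * p.2 := (one_mul _).symm
        _ ≤ p.1 * p.2 := Nat.mul_le_mul_right _ h1
    have h7 : Nat.sqrt (p.1 * p.2 + 1) ^ 2 - 1 = p.1 * p.2 := by omega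
    refine ⟨?_, ?_⟩
    · show Nat.sqrt (p.1 * p.2 + 1) ∈ tbW R
      unfold tbW
      rw [Finset.mem_filter, Finset.mem_Icc, h7]
      refine ⟨⟨?_, ?_⟩, h5⟩
      · by_contra hc
        have h8 : Nat.sqrt (p.1 * p.2 + 1) ≤ 1 := by omega
        have h9 : Nat.sqrt (p.1 * p.2 + 1) ^ 2 ≤ 1 ^ 2 := Nat.pow_le_pow_left h8 2
        omega
      · have h8 : Nat.sqrt (p.1 * p.2 + 1) ≤ p.1 * p.2 + 1 := Nat.sqrt_le_self _
        omega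
    · show p.2 ∈ (Nat.sqrt (p.1 * p.2 + 1) ^ 2 - 1).divisors
      rw [h7, Nat.mem_divisors]
      exact ⟨Dvd.intro_left _ rfl, by omega⟩
  · intro q hq _
    rw [Finset.mem_sigma] at hq
    have h2 : 2 ≤ q.1 := by
      have := hq.1
      unfold tbW at this
      rw [Finset.mem_filter, Finset.mem_Icc] at this
      exact this.1.1
    have h3 : (2 : ℝ) ≤ (q.1 : ℝ) := by exact_mod_cast h2
    have h4 : (0 : ℝ) < (q.1 : ℝ) ^ 2 - 1 := by nlinarith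
    unfold tbg
    positivity

private lemma tb_inner {C : ℝ} (hC : ∀ w : ℕ, 2 ≤ w →
    ∑ y ∈ (w ^ 2 - 1).divisors, (rho y : ℝ) ≤ C * (w : ℝ) ^ (2 / 3 : ℝ)) (hC0 : 0 < C) {R w : ℕ}
    (hw : w ∈ tbW R) : ∑ y ∈ (w ^ 2 - 1).divisors, tbg R ⟨w, y⟩ ≤
      2 * C * R * (w : ℝ) ^ (-(4 / 3) : ℝ) := by
  unfold tbW at hw
  rw [Finset.mem_filter, Finset.mem_Icc] at hw
  obtain ⟨⟨hw2, _⟩, hwR⟩ := hw
  have h2 : (2 : ℝ) ≤ (w : ℝ) := by exact_mod_cast hw2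
  have hw0 : (0 : ℝ) < w := by linarith
  have h4 : (0 : ℝ) < (w : ℝ) ^ 2 - 1 := by nlinarith
  have hR : 2 * ((w : ℝ) ^ 2 - 1) ≤ R := by
    have h5 : 1 ≤ w ^ 2 := Nat.one_le_pow _ _ (by omega)
    have h6 : ((2 * (w ^ 2 - 1) : ℕ) : ℝ) ≤ (R : ℝ) := by exact_mod_cast hwR
    rw [Nat.cast_mul, Nat.cast_sub h5] at h6
    push_cast at h6
    exact h6
  have hR0 : (0 : ℝ) ≤ R := Nat.cast_nonneg R
  have h5 : (R : ℝ) / (2 * ((w : ℝ) ^ 2 - 1)) + 2 ≤ 2 * R / (w : ℝ) ^ 2 := by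
    have h6 : (R : ℝ) / (2 * ((w : ℝ) ^ 2 - 1)) + 2 ≤ (3 / 2) * R / ((w : ℝ) ^ 2 - 1) := by
      rw [← sub_nonneg]
      have : (3 / 2) * (R : ℝ) / ((w : ℝ) ^ 2 - 1) - ((R : ℝ) / (2 * ((w : ℝ) ^ 2 - 1)) + 2) =
          (R - 2 * ((w : ℝ) ^ 2 - 1)) / ((w : ℝ) ^ 2 - 1) := by
        field_simp
        ring
      rw [this]
      exact div_nonneg (by linarith) h4.le
    refine h6.trans ?_
    rw [div_le_div_iff₀ h4 (by positivity)]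
    nlinarith [mul_nonneg hR0 (show (0 : ℝ) ≤ (w : ℝ) ^ 2 - 4 by nlinarith)]
  have h6 : ∑ y ∈ (w ^ 2 - 1).divisors, tbg R ⟨w, y⟩ =
      (∑ y ∈ (w ^ 2 - 1).divisors, (rho y : ℝ)) * ((R : ℝ) / (2 * ((w : ℝ) ^ 2 - 1)) + 2) := by
    rw [Finset.sum_mul]
    rfl
  rw [h6]
  have h7 : (w : ℝ) ^ (-(4 / 3) : ℝ) = (w : ℝ) ^ (2 / 3 : ℝ) / (w : ℝ) ^ 2 := by
    rw [← Real.rpow_natCast (w : ℝ) 2, ← Real.rpow_sub hw0]
    norm_num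
  calc (∑ y ∈ (w ^ 2 - 1).divisors, (rho y : ℝ)) * ((R : ℝ) / (2 * ((w : ℝ) ^ 2 - 1)) + 2)
      ≤ (C * (w : ℝ) ^ (2 / 3 : ℝ)) * (2 * R / (w : ℝ) ^ 2) :=
        mul_le_mul (hC w hw2) h5 (by positivity) (by positivity)
    _ = 2 * C * R * (w : ℝ) ^ (-(4 / 3) : ℝ) := by
        rw [h7]
        ring

theorem trip_card : ∃ C : ℝ, 0 < C ∧ ∀ R : ℕ, 1 ≤ R → ((trip (R ^ 2)).card : ℝ) ≤ C * R := by
  obtain ⟨C, hC0, hC⟩ := div_sum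
  have hs : Summable fun n : ℕ => (n : ℝ) ^ (-(4 / 3) : ℝ) :=
    Real.summable_nat_rpow.2 (by norm_num)
  have hS0 : 0 ≤ ∑' n : ℕ, (n : ℝ) ^ (-(4 / 3) : ℝ) :=
    tsum_nonneg fun n => Real.rpow_nonneg (Nat.cast_nonneg n) _
  refine ⟨2 * C * (∑' n : ℕ, (n : ℝ) ^ (-(4 / 3) : ℝ)) + 1, by positivity, fun R hR => ?_⟩
  have h1 : ((trip (R ^ 2)).card : ℝ) ≤ ∑ p ∈ tbP R, ((tbT R p).card : ℝ) := by
    exact_mod_cast tb_card R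
  refine (h1.trans (tb_sum R)).trans ((Finset.sum_le_sum fun w hw => tb_inner hC hC0 hw).trans ?_)
  rw [← Finset.mul_sum]
  have h2 : ∑ w ∈ tbW R, (w : ℝ) ^ (-(4 / 3) : ℝ) ≤ ∑' n : ℕ, (n : ℝ) ^ (-(4 / 3) : ℝ) :=
    hs.sum_le_tsum _ fun n _ => Real.rpow_nonneg (Nat.cast_nonneg n) _
  have h3 : 2 * C * R * ∑ w ∈ tbW R, (w : ℝ) ^ (-(4 / 3) : ℝ) ≤
      2 * C * R * ∑' n : ℕ, (n : ℝ) ^ (-(4 / 3) : ℝ) :=
    mul_le_mul_of_nonneg_left h2 (by positivity)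
  have h4 : (0 : ℝ) ≤ R := Nat.cast_nonneg R
  linarith

end Pool.Agent.DPT
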